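import Pool.Agent.Helper98.TR.NonSimple

/-!
The exceptional pairs (rank, dimension): arithmetic.
-/

namespace TR

lemma four_pow_big {n : ℕ} (hn : 4 ≤ n) : 2 * n * (n + 1) ≤ 4 ^ n := by
  induction n, hn using Nat.le_induction with
  | base => norm_num
  | succ k hk ih =>
    rw [pow_succ]
    nlinarith

/-- The middle binomial coefficients. -/
lemma exc_choose {m : ℕ} (hm : Odd m) (h3 : 3 ≤ m) :
    Exc ((2 * m - 2).choose (m - 1)) ((2 * m).choose m) := by
  obtain ⟨n, rfl⟩ : ∃ n, m = n + 1 := ⟨m - 1, by omega⟩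
  have e1 : (2 * (n + 1) - 2).choose (n + 1 - 1) = n.centralBinom := by
    rw [Nat.centralBinom]; congr 1
  have e2 : (2 * (n + 1)).choose (n + 1) = (n + 1).centralBinom := by
    rw [Nat.centralBinom]
  rw [e1, e2]
  obtain ⟨c, hc⟩ := Nat.succ_dvd_centralBinom n
  have h1 := Nat.succ_mul_centralBinom_succ n
  rw [hc] at h1
  have hD : (n + 1).centralBinom = 2 * (2 * n + 1) * c := by
    have : (n + 1) * (n + 1).centralBinom = (n + 1) * (2 * (2 * n + 1) * c) := by
      rw [h1]; ring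
    exact Nat.eq_of_mul_eq_mul_left (Nat.succ_pos n) this
  have hc2 : 2 ∣ c := by
    obtain ⟨k, hk⟩ : ∃ k, n = k + 1 := ⟨n - 1, by omega⟩
    have h2 := Nat.two_dvd_centralBinom_succ k
    rw [← hk, hc] at h2
    have h4 : Nat.Coprime 2 (n + 1) := (Nat.coprime_two_left).mpr hm
    exact h4.dvd_of_dvd_mul_left h2
  obtain ⟨k, rfl⟩ := hc2
  have hk0 : 0 < k := by
    rcases Nat.eq_zero_or_pos k with h | h
    · exfalso
      have := Nat.centralBinom_pos n
      rw [hc, h] at this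
      omega
    · exact h
  rw [hc, hD]
  have hn2 : 2 ≤ n := by omega
  refine ⟨⟨(2 * n + 1) * k, by ring⟩, by nlinarith, by nlinarith, ⟨(n + 1) * k, by ring⟩, ?_⟩
  have e3 : (n + 1) * (2 * k) / 2 = (n + 1) * k := by
    rw [show (n + 1) * (2 * k) = 2 * ((n + 1) * k) by ring, Nat.mul_div_cancel_left _ two_pos]
  have e4 : 2 * (2 * n + 1) * (2 * k) / 4 = (2 * n + 1) * k := by
    rw [show 2 * (2 * n + 1) * (2 * k) = 4 * ((2 * n + 1) * k) by ring,
      Nat.mul_div_cancel_left _ (by norm_num)]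
  rw [e3, e4]
  by_cases hk1 : k = 1
  · right; right
    subst hk1
    by_cases hn : 4 ≤ n
    · exfalso
      have h5 := Nat.four_pow_lt_mul_centralBinom n hn
      have h6 := four_pow_big hn
      rw [hc] at h5
      nlinarith
    · have hn' : n = 2 ∨ n = 3 := by omega
      rcases hn' with rfl | rfl
      · exact ⟨by norm_num, by norm_num⟩
      · exfalso
        exact absurd hm (by decide)
  · right; left
    intro hcop
    have h5 := Nat.Coprime.eq_one_of_dvd (Nat.Coprime.coprime_mul_left hcop)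
      (Dvd.intro_left (2 * n + 1) rfl)
    exact hk1 h5

/-- The powers of two. -/
lemma exc_pow {n r : ℕ} (hn : 5 ≤ n) (hr : r = 2 ^ (n - 2) ∨ r = 2 ^ (n - 1)) :
    Exc r (2 ^ n) := by
  obtain ⟨k, rfl⟩ : ∃ k, n = k + 5 := ⟨n - 5, by omega⟩
  have hk : 0 < 2 ^ k := by positivity
  have e1 : 2 ^ (k + 5) = 32 * 2 ^ k := by rw [pow_add]; ring
  have e2 : 2 ^ (k + 5 - 2) = 8 * 2 ^ k := by
    rw [show k + 5 - 2 = k + 3 by omega, pow_add]; ring
  have e3 : 2 ^ (k + 5 - 1) = 16 * 2 ^ k := by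
    rw [show k + 5 - 1 = k + 4 by omega, pow_add]; ring
  rw [e1]
  rw [e2, e3] at hr
  rcases hr with rfl | rfl
  · exact ⟨⟨8 * 2 ^ k, by ring⟩, by omega, by omega, ⟨4 * 2 ^ k, by ring⟩,
      Or.inl ⟨2 * 2 ^ k, by ring⟩⟩
  · exact ⟨⟨8 * 2 ^ k, by ring⟩, by omega, by omega, ⟨8 * 2 ^ k, by ring⟩,
      Or.inl ⟨4 * 2 ^ k, by ring⟩⟩

end TR
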