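import Pool.Agent.Helper21.TR.Simple
import Pool.Agent.Helper21.TR.Exc
import Pool.Agent.Helper98.TR.NonSimple
import Pool.Agent.Helper34.MT.Base2
import Pool.Agent.Helper21.MT.Gour3

/-!
The exceptional pairs (rank, dimension): the Lie algebra form and the group form.
-/

open Module LieAlgebra MTPairs

namespace TR

open MTP MTP.MF

section lie

attribute [local instance 100] LieRing.ofAssociativeRing

variable {K : Type*} [Field K] [CharZero K] [IsAlgClosed K] {V : Type*} [AddCommGroup V]
  [Module K V] [FiniteDimensional K V] {ω : LinearMap.BilinForm K V}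

/-- The simple case. -/
theorem simple_exc {L : LieSubalgebra K (Module.End K V)} {S : Set (Module.End K V)}
    (hC : Ctx ω L.toSubmodule S) (halt : ω.IsAlt) (hsimple : IsSimple K L)
    {N : Module.End K V} (hN : N ∈ L) (hNN : N * N = 0) (hN0 : N ≠ 0) :
    (∀ z, IsSk ω z → z ∈ L) ∨ Exc (rk N) (finrank K V) := by
  rcases simple_class hC halt hsimple hN hNN hN0 with h | ⟨m, h1, h2, h3, h4⟩ | ⟨n, -, h2, h3, h4⟩
  · exact Or.inl h
  · right
    rw [h3, h4]
    exact exc_choose h1 h2
  · right
    rw [h3]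
    exact exc_pow h2 h4

/-- W, Lie algebra form -/
theorem eq_sp_or_exc [Nontrivial V] {L : LieSubalgebra K (Module.End K V)}
    {S : Set (Module.End K V)}
    (hC : Ctx ω L.toSubmodule S) (halt : ω.IsAlt)
    {N : Module.End K V} (hN : N ∈ L) (hNN : N * N = 0) :
    (∀ z, IsSk ω z → z ∈ L) ∨ Exc (rk N) (finrank K V) := by
  by_cases hs : IsSimple K L
  · by_cases hN0 : N = 0
    · obtain ⟨s, hsS⟩ := exists_inv hC halt
      obtain ⟨x, hx, hx0, hxx⟩ := exists_sq_zero hC hsS
      rcases simple_exc hC halt hs (N := x) hx hxx hx0 with h | h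
      · exact Or.inl h
      · right
        have h0 : rk N = 0 := by
          rw [hN0, rk, LinearMap.range_zero, finrank_bot]
        rw [h0]
        exact ⟨h.1, h.2.1, by omega, dvd_zero 2, Or.inl (dvd_zero 4)⟩
    · exact simple_exc hC halt hs hN hNN hN0
  · exact Or.inr (nonsimple_exc hC halt hs hN hNN)

/-- W, Lie algebra form, for a submodule closed under commutators. -/
theorem eq_sp_sub [Nontrivial V] {L : Submodule K (Module.End K V)}
    {S : Set (Module.End K V)} (hC : Ctx ω L S) (halt : ω.IsAlt)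
    {N : Module.End K V} (hN : N ∈ L) (hNN : N * N = 0)
    (hexc : ¬ Exc (rk N) (finrank K V)) {z : Module.End K V} (hz : IsSk ω z) : z ∈ L := by
  let L' : LieSubalgebra K (Module.End K V) :=
    { L with lie_mem' := by intro x y hx hy; exact hC.irr.br x hx y hy }
  exact (eq_sp_or_exc (L := L') (S := S) hC halt hN hNN).resolve_right hexc z hz

end lie

section family
variable {K : Type*} [Field K] {ι : Type*} [Fintype ι] [DecidableEq ι] {W : ι → Type*}
  [∀ j, AddCommGroup (W j)] [∀ j, Module K (W j)] [∀ j, FiniteDimensional K (W j)]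
  {σ : Type*} [Fintype σ]
  {ω : ∀ j, LinearMap.BilinForm K (W j)} {b : Basis σ K (∀ j, Module.End K (W j))}
  {G : Set (∀ j, Module.End K (W j))}

/-- The projection of the Lie algebra to a factor, given a quadratic unipotent of the group
whose rank and the dimension of the factor are not exceptional. -/
theorem proj_of_unip [IsAlgClosed K] [CharZero K] (D : GrpBase ω b G) (j : ι)
    {u : ∀ j, Module.End K (W j)} (hu : u ∈ G) (hN : (u j - 1) * (u j - 1) = 0)
    (hexc : ¬ Exc (rk (u j - 1)) (finrank K (W j)))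
    {z : Module.End K (W j)} (hz : IsSk (ω j) z) :
    ∃ x ∈ lieGen K (GrpBase.Inv ω G), x j = z := by
  have hntj : Nontrivial (W j) := D.nt j
  obtain ⟨h, hh, huh, hhu⟩ := D.inv u hu
  set N := u j - 1 with hNdef
  have huj : u j = 1 + N := by rw [hNdef]; abel
  have hhj : h j = 1 - N := by
    have e1 : h j * u j = 1 := congrFun hhu j
    have e2 : u j * (1 - N) = 1 := by
      have e3 : (1 + N) * (1 - N) = 1 - N * N := by noncomm_ring
      rw [huj, e3, hN, sub_zero]
    calc h j = h j * (u j * (1 - N)) := by rw [e2, mul_one]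
      _ = (h j * u j) * (1 - N) := by rw [mul_assoc]
      _ = _ := by rw [e1, one_mul]
  obtain ⟨c, hc⟩ := D.sim u hu
  obtain ⟨c', hc'⟩ := D.sim h hh
  have hcc : c * c' = 1 := by
    obtain ⟨v, w, hvw⟩ := D.exists_ne_form j
    have h1 : ∀ x, u j (h j x) = x := fun x => LinearMap.congr_fun (congrFun huh j) x
    have e1 := hc j (h j v) (h j w)
    rw [h1, h1, hc'] at e1
    have e2 : (c * c' - 1) * ω j v w = 0 := by linear_combination -e1
    have e3 := (mul_eq_zero.mp e2).resolve_right hvw
    linear_combination e3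
  have hsk : IsSk (ω j) N := by
    apply quad_skew hN (c := c) (c' := c') _ _ hcc (D.nd j)
    · intro v w; rw [← huj]; exact hc j v w
    · intro v w; rw [← hhj]; exact hc' j v w
  have hctx := D.ctx j
  set Lj := lieGen K ((Pi.evalAlgHom K (fun j => Module.End K (W j)) j) '' (GrpBase.Inv ω G))
    with hLj
  have hmap : ∀ x, x ∈ Lj ↔ ∃ y ∈ lieGen K (GrpBase.Inv ω G), y j = x := by
    intro x
    rw [hLj, ← lieGen_map]
    rfl
  have hnormj : ∀ x ∈ Lj, N * x - x * N ∈ Lj := by
    intro x hx
    obtain ⟨y, hy, rfl⟩ := (hmap x).mp hx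
    have h1 : (1 + N) * y j * (1 - N) ∈ Lj := by
      rw [hmap]
      refine ⟨u * y * h, D.lie_conj hu hh huh hhu hy, ?_⟩
      rw [Pi.mul_apply, Pi.mul_apply, huj, hhj]
    have h2 : (1 - N) * y j * (1 + N) ∈ Lj := by
      rw [hmap]
      refine ⟨h * y * u, D.lie_conj hh hu hhu huh hy, ?_⟩
      rw [Pi.mul_apply, Pi.mul_apply, huj, hhj]
    have h3 := Lj.smul_mem (2 : K)⁻¹ (Lj.sub_mem h1 h2)
    have e : (1 + N) * y j * (1 - N) - (1 - N) * y j * (1 + N) =
        (2 : K) • (N * y j - y j * N) := by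
      have : (1 + N) * y j * (1 - N) - (1 - N) * y j * (1 + N) =
        (N * y j - y j * N) + (N * y j - y j * N) := by noncomm_ring
      rw [this, two_smul]
    rw [e, smul_smul, inv_mul_cancel₀ two_ne_zero, one_smul] at h3
    exact h3
  have hNL : N ∈ Lj := hctx.irr.mem_of_normalize hctx.nd hsk hnormj
  have hzL : z ∈ Lj := eq_sp_sub hctx (D.alt j) hNL hN hexc hz
  exact (hmap z).mp hzL

end family

section matrix
variable {K : Type*} [Field K] {m : Type*} [Fintype m] [DecidableEq m]
  {ι : Type*} [Fintype ι] [DecidableEq ι] {W : ι → Submodule K (m → K)}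
  {J : Matrix m m K} {G : Subgroup (Matrix.GeneralLinearGroup m K)}

/-- **The classification of the toric ranks, if part.** -/
theorem isFull_of_ranks [IsAlgClosed K] [CharZero K] (hG : IsMTPair J G)
    (hW : IsSplit J G W)
    (hq : ∀ j, W j ≠ ⊥ ∧ ∃ u ∈ G, ∃ r : ℕ, IsQuadraticOn u (W j) r ∧
      ¬ Exc r (finrank K (W j))) :
    IsFull J G W := by
  classical
  have h := hW.internal
  have hnt : ∀ j, W j ≠ ⊥ := fun j => (hq j).1
  have hnt' : ∀ j, Nontrivial (W j) := fun j => (Submodule.nontrivial_iff_ne_bot).mpr (hnt j)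
  refine isFull_of_proj hG hW hnt ?_ (fun L h1 h2 h3 h4 =>
    goursat hnt' (form J W) (form_nd hG.skew hG.det hW.internal hW.orth)
      (form_alt hG.skew) L h1 h2 h3 h4)
  intro j z hz
  obtain ⟨n, ⟨b⟩⟩ := exists_basis (W := W)
  have D := grpBase b hG hW hnt
  obtain ⟨-, u, hu, r, ⟨h1, h2⟩, hr⟩ := hq j
  obtain ⟨a, hga⟩ := exists_mat h (hW.stable u hu)
  have ha : a ∈ GS G h := ⟨u, hu, hga⟩
  have hsub : (u : Matrix m m K) - 1 = mat h (a - 1) := by
    rw [mat_sub, mat_one, hga]
  refine proj_of_unip D j ha ?_ ?_ hz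
  · ext1 v
    apply Subtype.ext
    have := h1 v v.2
    rw [hsub, mat_mulVec, mat_mulVec] at this
    exact this
  · have h4 : rk (a j - 1) = r := by
      have := finrank_range_restrict h (a - 1) j
      rw [← hsub, h2] at this
      exact this
    rw [h4]; exact hr

end matrix

end TR
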