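import Mathlib

/-!
Abstract data for the classification of toric ranks: finite systems of roots and weights
together with a coweight which takes the values `1` and `-1` on the weights.
-/

namespace TR

variable {K : Type*} [Field K] {M : Type*} [AddCommGroup M] [Module K M]

/-- One step between weights: subtract a root of value zero which pairs to one with the weight.
`c x g` is the pairing of the weight `x` with the coroot of `g`. -/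
def Step (c : M → M → K) (s : M →ₗ[K] K) (Φ : Finset M) (x y : M) : Prop :=
  ∃ g ∈ Φ, s g = 0 ∧ c x g = 1 ∧ y = x - g

/-- Simply laced systems: roots `Φ` of squared length two, weights `X`, coweight `s`. -/
structure SL (B : LinearMap.BilinForm K M) (s : M →ₗ[K] K) (Φ X : Finset M) : Prop where
  symm : ∀ x y, B x y = B y x
  two : ∀ a ∈ Φ, B a a = 2
  neg : ∀ a ∈ Φ, -a ∈ Φ
  pair : ∀ a ∈ Φ, ∀ b ∈ Φ, a ≠ b → a ≠ -b → B a b = -1 ∨ B a b = 0 ∨ B a b = 1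
  sub : ∀ a ∈ Φ, ∀ b ∈ Φ, B a b = 1 → a - b ∈ Φ
  small : ∀ x ∈ X, ∀ a ∈ Φ, B x a = -1 ∨ B x a = 0 ∨ B x a = 1
  xsub : ∀ x ∈ X, ∀ a ∈ Φ, B x a = 1 → x - a ∈ X
  xneg : ∀ x ∈ X, -x ∈ X
  sx : ∀ x ∈ X, s x = 1 ∨ s x = -1
  faith : ∀ a ∈ Φ, ∃ x ∈ X, B x a = 1
  chain : ∀ x ∈ X, ∀ y ∈ X, s x = 1 → s y = 1 →
    Relation.ReflTransGen (Step (fun x a => B x a) s Φ) x y
  hit : ∀ g ∈ Φ, s g = 0 → ∃ a ∈ Φ, s a = 2 ∧ B g a ≠ 0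
  sep : ∀ x ∈ X, ∀ y ∈ X, (∀ a ∈ Φ, B x a = B y a) → x = y
  orth : ∀ x ∈ X, ∀ a ∈ Φ, B x a = 1 → ∃ A : Finset M, A ⊆ Φ ∧ a ∈ A ∧ (∀ b ∈ A, B x b = 1) ∧
    (∀ b ∈ A, ∀ c ∈ A, b ≠ c → B b c = 0) ∧ ∑ b ∈ A, b = x + x ∧ Odd A.card

/-- The pairing with the coroot in a system with two lengths (squared lengths four and two). -/
noncomputable def co (B : LinearMap.BilinForm K M) (x a : M) : K := 2 * B x a / B a a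

/-- Systems with two root lengths: long roots `ΦL` of squared length four, short roots `ΦS` of
squared length two, weights `X`, coweight `s`. -/
structure TL [DecidableEq M] (B : LinearMap.BilinForm K M) (s : M →ₗ[K] K)
    (ΦL ΦS X : Finset M) : Prop where
  symm : ∀ x y, B x y = B y x
  four : ∀ a ∈ ΦL, B a a = 4
  two : ∀ a ∈ ΦS, B a a = 2
  negL : ∀ a ∈ ΦL, -a ∈ ΦL
  negS : ∀ a ∈ ΦS, -a ∈ ΦS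
  pairLL : ∀ a ∈ ΦL, ∀ b ∈ ΦL, a ≠ b → a ≠ -b → B a b = -2 ∨ B a b = 0 ∨ B a b = 2
  pairLS : ∀ a ∈ ΦL, ∀ b ∈ ΦS, B a b = -2 ∨ B a b = 0 ∨ B a b = 2
  pairSS : ∀ a ∈ ΦS, ∀ b ∈ ΦS, a ≠ b → a ≠ -b → B a b = -1 ∨ B a b = 0 ∨ B a b = 1
  subLL : ∀ a ∈ ΦL, ∀ b ∈ ΦL, B a b = 2 → a - b ∈ ΦL
  subLS : ∀ a ∈ ΦL, ∀ b ∈ ΦS, B a b = 2 → a - b ∈ ΦS ∧ a - (2 : K) • b ∈ ΦL
  subSS : ∀ a ∈ ΦS, ∀ b ∈ ΦS, B a b = 1 → a - b ∈ ΦS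
  smallL : ∀ x ∈ X, ∀ a ∈ ΦL, B x a = -2 ∨ B x a = 0 ∨ B x a = 2
  smallS : ∀ x ∈ X, ∀ a ∈ ΦS, B x a = -1 ∨ B x a = 0 ∨ B x a = 1
  xsubL : ∀ x ∈ X, ∀ a ∈ ΦL, B x a = 2 → x - a ∈ X
  xsubS : ∀ x ∈ X, ∀ a ∈ ΦS, B x a = 1 → x - a ∈ X
  xneg : ∀ x ∈ X, -x ∈ X
  sx : ∀ x ∈ X, s x = 1 ∨ s x = -1
  faithL : ∀ a ∈ ΦL, ∃ x ∈ X, B x a = 2
  faithS : ∀ a ∈ ΦS, ∃ x ∈ X, B x a = 1
  chain : ∀ x ∈ X, ∀ y ∈ X, s x = 1 → s y = 1 →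
    Relation.ReflTransGen (Step (co B) s (ΦL ∪ ΦS)) x y
  exL : ∃ a ∈ ΦL, s a = 2
  exS : ∃ a ∈ ΦS, s a = 2
  -- the roots of value two span everything
  hit : ∀ m : M, (∀ a ∈ ΦL ∪ ΦS, s a = 2 → B m a = 0) → ∀ a ∈ ΦL ∪ ΦS, B m a = 0
  sep : ∀ x ∈ X, ∀ y ∈ X, (∀ a ∈ ΦL ∪ ΦS, B x a = B y a) → x = y
  orth : ∀ x ∈ X, ∀ a ∈ ΦL, B x a = 2 → ∃ A : Finset M, A ⊆ ΦL ∪ ΦS ∧ a ∈ A ∧
    (∀ b ∈ A, co B x b = 1) ∧ (∀ b ∈ A, ∀ c ∈ A, b ≠ c → B b c = 0) ∧ ∑ b ∈ A, b = x + x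
  par : ∀ x ∈ X, ∃ A : Finset M, A ⊆ ΦL ∪ ΦS ∧ (∀ b ∈ A, co B x b = 1) ∧
    (∀ b ∈ A, ∀ c ∈ A, b ≠ c → B b c = 0 ∧ b + c ∉ ΦL ∪ ΦS) ∧ ∑ b ∈ A, b = x + x ∧ Odd A.card

end TR
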