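import Pool.Agent.Helper21.TR.EigDefs
import Pool.Agent.Helper80.TR.Diag

/-!
# Bad places given by diagonal matrices, with the number of eigenvalues
-/

open Module MTPairs

namespace TR

variable {K : Type*} [Field K] {m : Type*} [Fintype m] [DecidableEq m]

/-- Criterion: a diagonal element whose eigenvalues are powers of `2`. -/
theorem isBadEig_of_diag [CharZero K] {u g : Matrix.GeneralLinearGroup m K}
    {r k : ℕ} (e : m → ℤ) (hg : (g : Matrix m m K) = Matrix.diagonal (fun p => (2 : K) ^ e p))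
    (A B : Finset m)
    (hker : LinearMap.ker ((u : Matrix m m K) - 1).mulVecLin = coordSub K A)
    (him : (⊤ : Submodule K (m → K)).map ((u : Matrix m m K) - 1).mulVecLin = coordSub K B)
    (hBA : B ⊆ A) {e0 : ℤ} (he0 : ∀ p ∈ B, e p = e0)
    (hr : 0 < r) (hcard : B.card = r) (hk : ((A \ B).image e).card = k) :
    IsBadEig u g ⊤ r k := by
  classical
  -- multiplicities
  have hm : ∀ a : K, mlt (u : Matrix m m K) g ⊤ a =
      ((A \ B).filter fun p => (2 : K) ^ e p = a).card := by
    intro a
    rw [mlt, top_inf_eq, hker, him, hg, maxGen_diagonal, coordSub_inf, coordSub_inf,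
      finrank_coordSub, finrank_coordSub, ← Finset.card_sdiff_of_subset]
    · congr 1
      ext p
      simp only [Finset.mem_sdiff, Finset.mem_inter, Finset.mem_filter, Finset.mem_univ, true_and]
      tauto
    · exact Finset.inter_subset_inter_right hBA
  have hset : {a : K | mlt (u : Matrix m m K) g ⊤ a ≠ 0} =
      (((A \ B).image e).image (fun i : ℤ => (2 : K) ^ i) : Finset K) := by
    ext a
    rw [Set.mem_ofPred_eq, hm, Finset.card_ne_zero, Finset.coe_image, Set.mem_image]
    constructor
    · rintro ⟨p, hp⟩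
      rw [Finset.mem_filter] at hp
      exact ⟨e p, Finset.mem_coe.mpr (Finset.mem_image_of_mem e hp.1), hp.2⟩
    · rintro ⟨i, hi, rfl⟩
      rw [Finset.mem_coe, Finset.mem_image] at hi
      obtain ⟨p, hp, rfl⟩ := hi
      exact ⟨p, Finset.mem_filter.mpr ⟨hp, rfl⟩⟩
  have heig : ∀ (a : K) (v : m → K), v ≠ 0 → (g : Matrix m m K).mulVec v = a • v →
      ∃ p, (2 : K) ^ e p = a := by
    intro a v hv h
    obtain ⟨p, hp⟩ : ∃ p, v p ≠ 0 := by
      by_contra hcon
      push Not at hcon
      exact hv (funext hcon)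
    refine ⟨p, ?_⟩
    have h1 := congrFun h p
    rw [hg, Matrix.mulVec_diagonal, Pi.smul_apply, smul_eq_mul] at h1
    exact mul_right_cancel₀ hp h1
  have hBim : ∀ v : m → K, ((u : Matrix m m K) - 1).mulVec v ∈ coordSub K B := by
    intro v
    rw [← him]
    exact ⟨v, trivial, rfl⟩
  refine ⟨hr, ⟨fun v _ => ?_, ?_⟩, ?_, ⟨(2 : K) ^ e0, fun v _ => ?_⟩, ?_⟩
  · have h1 : ((u : Matrix m m K) - 1).mulVec v ∈ coordSub K A := fun p hp =>
      hBim v p (fun h => hp (hBA h))
    rw [← hker] at h1
    exact h1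
  · rw [him, finrank_coordSub, hcard]
  · intro a b v _ v' _ hv hv' h h' n hn hab
    obtain ⟨p, rfl⟩ := heig a v hv h
    obtain ⟨q, rfl⟩ := heig b v' hv' h'
    rw [← zpow_natCast, ← zpow_natCast, ← zpow_mul, ← zpow_mul] at hab
    have h1 := zpow_two_inj hab
    have hn' : (n : ℤ) ≠ 0 := by exact_mod_cast hn.ne'
    rw [mul_right_cancel₀ hn' h1]
  · rw [hg, maxGen_diagonal]
    intro p hp
    by_cases h : p ∈ B
    · exfalso
      apply hp
      rw [Finset.mem_filter]
      exact ⟨Finset.mem_univ _, by rw [he0 p h]⟩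
    · exact hBim v p h
  · rw [hset, Set.ncard_coe_finset, Finset.card_image_of_injective _
      (fun i j h => zpow_two_inj h), hk]

end TR
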