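import Pool.Agent.Helper83.TR.SpinMain
import Pool.Agent.Helper21.TR.EigDiag

/-!
A place of bad reduction for the spin representation, with two eigenvalues on the abelian part.
-/

open Module MTPairs MTP

namespace TRSpin

variable {K : Type*} [Field K] {k : ℕ}

/-- Two distinguished factors. -/
def Df (k : ℕ) (B C : Matrix (Fin 2) (Fin 2) K) : Fin (k + 2) → Matrix (Fin 2) (Fin 2) K :=
  fun i => if i = 0 then B else if i = 1 then C else 1

lemma Df_mul (A B C D : Matrix (Fin 2) (Fin 2) K) :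
    Tn (Df k A B) * Tn (Df k C D) = Tn (Df k (A * C) (B * D)) := by
  rw [Tn_mul]
  congr 1
  funext i
  unfold Df
  by_cases h : i = 0
  · simp [h]
  · by_cases h1 : i = 1
    · simp [h1]
    · simp [h, h1]

/-- The diagonal idempotents. -/
def Dd (K : Type*) [Field K] (a : Fin 2) : Matrix (Fin 2) (Fin 2) K :=
  Matrix.diagonal (fun i => if i = a then 1 else 0)

lemma cm_am_eq : cm K * am K = Dd K 1 := by
  ext i j; fin_cases i <;> fin_cases j <;> simp [cm, am, Dd, Matrix.mul_apply, Fin.sum_univ_two]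
lemma am_cm_eq : am K * cm K = Dd K 0 := by
  ext i j; fin_cases i <;> fin_cases j <;> simp [cm, am, Dd, Matrix.mul_apply, Fin.sum_univ_two]
lemma cm_am_cm : cm K * am K * cm K = cm K := by
  ext i j; fin_cases i <;> fin_cases j <;> simp [cm, am, Matrix.mul_apply, Fin.sum_univ_two]
lemma am_cm_am : am K * cm K * am K = am K := by
  ext i j; fin_cases i <;> fin_cases j <;> simp [cm, am, Matrix.mul_apply, Fin.sum_univ_two]

lemma Dd_diag (a b : Fin 2) : Tn (Df k (Dd K a) (Dd K b)) =
    Matrix.diagonal (fun p => if p 0 = a ∧ p 1 = b then (1 : K) else 0) := by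
  have hE : ∀ c i j : Fin 2, Dd K c i j = if i = j ∧ i = c then 1 else 0 := by
    intro c i j
    unfold Dd
    by_cases h : i = j
    · subst h; simp
    · simp [h, Matrix.diagonal_apply_ne]
  ext p r
  by_cases h : p = r
  · subst h
    rw [Matrix.diagonal_apply_eq]
    by_cases hs : p 0 = a ∧ p 1 = b
    · rw [if_pos hs]
      apply Finset.prod_eq_one
      intro i _
      unfold Df
      by_cases h : i = 0
      · subst h
        rw [if_pos rfl, hE, if_pos ⟨rfl, hs.1⟩]
      · rw [if_neg h]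
        by_cases h1 : i = 1
        · subst h1
          rw [if_pos rfl, hE, if_pos ⟨rfl, hs.2⟩]
        · rw [if_neg h1, Matrix.one_apply_eq]
    · rw [if_neg hs]
      rw [not_and_or] at hs
      rcases hs with hs | hs
      · refine Finset.prod_eq_zero (Finset.mem_univ 0) ?_
        unfold Df
        rw [if_pos rfl, hE, if_neg (fun h => hs h.2)]
      · refine Finset.prod_eq_zero (Finset.mem_univ 1) ?_
        unfold Df
        rw [if_neg one_ne, if_pos rfl, hE, if_neg (fun h => hs h.2)]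
  · rw [Matrix.diagonal_apply_ne _ h]
    obtain ⟨i, hi⟩ := Function.ne_iff.mp h
    refine Finset.prod_eq_zero (Finset.mem_univ i) ?_
    unfold Df
    split_ifs
    · rw [hE, if_neg (fun h => hi h.1)]
    · rw [hE, if_neg (fun h => hi h.1)]
    · exact Matrix.one_apply_ne hi

lemma jw_zero_one (B C : Matrix (Fin 2) (Fin 2) K) :
    (jw (0 : Fin (k + 2)) B : Matrix (Sx (k + 2)) (Sx (k + 2)) K) * jw 1 C =
      Tn (Df k (B * Zm K) C) := by
  rw [jw, jw, Tn_mul]
  congr 1
  funext i
  unfold Df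
  by_cases h0 : i = 0
  · subst h0
    have : (0 : Fin (k + 2)) < 1 := Fin.pos_of_ne_zero one_ne
    simp [this]
  · by_cases h1 : i = 1
    · subst h1
      simp [h0]
    · have h2 : ¬ i < 1 := by
        intro h
        apply h0
        apply Fin.ext
        have := Fin.lt_def.mp h
        simp at this
        simpa using this
      have h3 : ¬ i < 0 := Fin.not_lt_zero i
      simp [h0, h1, h2]

/-- The first root vector. -/
def EE (K : Type*) [Field K] (k : ℕ) : Matrix (Sx (k + 2)) (Sx (k + 2)) K := Tn (Df k (cm K) (am K))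
/-- The second root vector. -/
def FF (K : Type*) [Field K] (k : ℕ) : Matrix (Sx (k + 2)) (Sx (k + 2)) K := Tn (Df k (am K) (cm K))

lemma EE_eq : x0 K k * jw 1 (am K) = EE K k := by
  rw [x0, jw_zero_one, cm_Zm]; rfl

lemma Tn_Df_neg (B C : Matrix (Fin 2) (Fin 2) K) : Tn (Df k (-B) C) = -Tn (Df k B C) := by
  ext p r
  rw [Matrix.neg_apply]
  simp only [Tn]
  rw [Fin.prod_univ_succ (fun i => Df k (-B) C i (p i) (r i)),
    Fin.prod_univ_succ (fun i => Df k B C i (p i) (r i))]
  have h0 : ∀ B : Matrix (Fin 2) (Fin 2) K, Df k B C 0 = B := fun B => if_pos rfl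
  have h1 : ∀ i : Fin (k + 1), Df k (-B) C i.succ = Df k B C i.succ := fun i => by
    unfold Df
    rw [if_neg (Fin.succ_ne_zero i), if_neg (Fin.succ_ne_zero i)]
  simp only [h0, h1, Matrix.neg_apply]
  ring

lemma FF_eq : y0 K k * jw 1 (cm K) = -FF K k := by
  rw [y0, jw_zero_one, am_Zm, Tn_Df_neg]; rfl

lemma Tn_Df_zero (C : Matrix (Fin 2) (Fin 2) K) : Tn (Df k 0 C) = 0 := by
  ext p r
  refine Finset.prod_eq_zero (Finset.mem_univ 0) ?_
  unfold Df
  rw [if_pos rfl]; rfl

lemma EE_sq : EE K k * EE K k = 0 := by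
  rw [EE, Df_mul, cm_sq, Tn_Df_zero]
lemma FF_sq : FF K k * FF K k = 0 := by
  rw [FF, Df_mul, am_sq, Tn_Df_zero]
lemma EE_FF : EE K k * FF K k = Matrix.diagonal
    (fun p => if p 0 = 1 ∧ p 1 = 0 then (1 : K) else 0) := by
  rw [EE, FF, Df_mul, cm_am_eq, am_cm_eq, Dd_diag]
lemma FF_EE : FF K k * EE K k = Matrix.diagonal
    (fun p => if p 0 = 0 ∧ p 1 = 1 then (1 : K) else 0) := by
  rw [EE, FF, Df_mul, cm_am_eq, am_cm_eq, Dd_diag]
lemma EFE : EE K k * FF K k * EE K k = EE K k := by
  rw [EE, FF, Df_mul, Df_mul, cm_am_cm, am_cm_am]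
lemma FEF : FF K k * EE K k * FF K k = FF K k := by
  rw [EE, FF, Df_mul, Df_mul, cm_am_cm, am_cm_am]

/-- The torus element as a product of unipotent elements. -/
lemma torus_prod [CharZero K] {m : Type*} [Fintype m] [DecidableEq m] {E F : Matrix m m K}
    (hE : E * E = 0) (hF : F * F = 0) (h1 : E * F * E = E) (h2 : F * E * F = F) :
    (1 + (2 : K) • E) * (1 + (-(1 / 2) : K) • F) * (1 + (1 : K) • E) * (1 + (1 : K) • F) *
      (1 + (-1 : K) • E) = 1 + E * F - (1 / 2 : K) • (F * E) := by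
  have a1 : (1 + (1 : K) • F) * (1 + (-1 : K) • E) = 1 - E + F - F * E := by
    simp only [mul_add, add_mul, mul_one, one_mul, one_smul, neg_smul, mul_neg]
    abel
  have a2 : (1 + (1 : K) • E) * (1 - E + F - F * E) = 1 + F - F * E + E * F - E := by
    simp only [mul_add, add_mul, mul_sub, mul_one, one_mul, one_smul, hE, ← mul_assoc, h1]
    abel
  have a3 : (1 + (-(1 / 2) : K) • F) * (1 + F - F * E + E * F - E) =
      1 - (1 / 2 : K) • (F * E) + E * F - E := by
    simp only [mul_add, add_mul, mul_sub, mul_one, one_mul, smul_mul_assoc, ← mul_assoc, hF, h2,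
      zero_mul, smul_zero]
    module
  have a4 : (1 + (2 : K) • E) * (1 - (1 / 2 : K) • (F * E) + E * F - E) =
      1 + E * F - (1 / 2 : K) • (F * E) := by
    simp only [mul_add, add_mul, mul_sub, mul_one, one_mul, smul_mul_assoc, mul_smul_comm,
      ← mul_assoc, hE, h1, zero_mul, smul_zero]
    module
  rw [mul_assoc, a1, mul_assoc, a2, mul_assoc, a3, a4]

/-- The exponents. -/
def eS (p : Sx (k + 2)) : ℤ :=
  if p 0 = 1 ∧ p 1 = 0 then 1 else if p 0 = 0 ∧ p 1 = 1 then -1 else 0

lemma torus_diag [CharZero K] : 1 + EE K k * FF K k - (1 / 2 : K) • (FF K k * EE K k) =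
    Matrix.diagonal (fun p : Sx (k + 2) => (2 : K) ^ eS p) := by
  rw [EE_FF, FF_EE, ← Matrix.diagonal_one, ← Matrix.diagonal_smul, Matrix.diagonal_add,
    Matrix.diagonal_sub]
  congr 1
  funext p
  simp only [Pi.smul_apply, smul_eq_mul, eS]
  by_cases h1 : p 0 = 1 ∧ p 1 = 0
  · have h2 : ¬ (p 0 = 0 ∧ p 1 = 1) := by
      rintro ⟨h, -⟩
      rw [h1.1] at h
      exact absurd h (by decide)
    rw [if_pos h1, if_neg h2, if_pos h1]
    norm_num
  · by_cases h2 : p 0 = 0 ∧ p 1 = 1
    · rw [if_neg h1, if_pos h2, if_neg h1, if_pos h2]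
      rw [zpow_neg, zpow_one]
      norm_num
    · rw [if_neg h1, if_neg h2, if_neg h1, if_neg h2]
      norm_num

lemma ker_xz : LinearMap.ker (x0 K k * z1 K k).mulVecLin =
    TR.coordSub K (Finset.univ.filter fun p : Sx (k + 2) => ¬ (p 0 = 0 ∧ p 1 = 0)) := by
  have hN : x0 K k * z1 K k = Tn (Df k (cm K) (cm K)) := by
    rw [x0, z1, jw_zero_one, cm_Zm]
  have h1 : Tn (Df k (am K) (am K)) * Tn (Df k (cm K) (cm K)) =
      Matrix.diagonal (fun p => if p 0 = 0 ∧ p 1 = 0 then (1 : K) else 0) := by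
    rw [Df_mul, am_cm_eq, Dd_diag]
  have h2 : Tn (Df k (cm K) (cm K)) * Tn (Df k (am K) (am K)) * Tn (Df k (cm K) (cm K)) =
      Tn (Df k (cm K) (cm K)) := by
    rw [Df_mul, Df_mul, cm_am_cm]
  rw [hN]
  ext v
  rw [LinearMap.mem_ker, Matrix.mulVecLin_apply, TR.mem_coordSub]
  constructor
  · intro hv p hp
    rw [Finset.mem_filter] at hp
    push Not at hp
    have h3 := hp (Finset.mem_univ _)
    have h4 : (Matrix.diagonal (fun p : Sx (k + 2) =>
        if p 0 = 0 ∧ p 1 = 0 then (1 : K) else 0)).mulVec v = 0 := by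
      rw [← h1, ← Matrix.mulVec_mulVec, hv, Matrix.mulVec_zero]
    have h5 := congrFun h4 p
    rw [Matrix.mulVec_diagonal, if_pos h3, one_mul] at h5
    exact h5
  · intro hv
    have h4 : (Matrix.diagonal (fun p : Sx (k + 2) =>
        if p 0 = 0 ∧ p 1 = 0 then (1 : K) else 0)).mulVec v = 0 := by
      funext p
      rw [Matrix.mulVec_diagonal, Pi.zero_apply]
      split_ifs with h
      · rw [hv p (fun hp => (Finset.mem_filter.mp hp).2 h), mul_zero]
      · rw [zero_mul]
    rw [← h2, mul_assoc, h1, ← Matrix.mulVec_mulVec, h4, Matrix.mulVec_zero]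

lemma map_xz : (⊤ : Submodule K (Sx (k + 2) → K)).map (x0 K k * z1 K k).mulVecLin =
    TR.coordSub K (Finset.univ.filter fun p : Sx (k + 2) => p 0 = 1 ∧ p 1 = 1) := by
  have hN : x0 K k * z1 K k = Tn (Df k (cm K) (cm K)) := by
    rw [x0, z1, jw_zero_one, cm_Zm]
  have h1 : Tn (Df k (cm K) (cm K)) * Tn (Df k (am K) (am K)) =
      Matrix.diagonal (fun p => if p 0 = 1 ∧ p 1 = 1 then (1 : K) else 0) := by
    rw [Df_mul, cm_am_eq, Dd_diag]
  have h2 : Tn (Df k (cm K) (cm K)) * Tn (Df k (am K) (am K)) * Tn (Df k (cm K) (cm K)) =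
      Tn (Df k (cm K) (cm K)) := by
    rw [Df_mul, Df_mul, cm_am_cm]
  rw [hN]
  apply le_antisymm
  · rintro _ ⟨v, -, rfl⟩ p hp
    rw [Matrix.mulVecLin_apply, ← h2, h1, ← Matrix.mulVec_mulVec, Matrix.mulVec_diagonal,
      if_neg (fun h => hp (Finset.mem_filter.mpr ⟨Finset.mem_univ _, h⟩)), zero_mul]
  · intro v hv
    refine ⟨(Tn (Df k (am K) (am K))).mulVec v, trivial, ?_⟩
    rw [Matrix.mulVecLin_apply, Matrix.mulVec_mulVec, h1]
    funext p
    rw [Matrix.mulVec_diagonal]
    split_ifs with h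
    · rw [one_mul]
    · rw [zero_mul, hv p (fun hp => h (Finset.mem_filter.mp hp).2)]

end TRSpin

namespace TR

open TRSpin

/-- The spin representation, rank `2^(n-2)`, two eigenvalues. -/
theorem strong_spin_eig (K : Type*) [Field K] [CharZero K] {n : ℕ} (hn : n % 4 = 1 ∨ n % 4 = 2)
    (hn5 : 5 ≤ n) :
    ∃ (m : Type) (_ : Fintype m) (_ : DecidableEq m)
      (J : Matrix m m K) (G : Subgroup (Matrix.GeneralLinearGroup m K)) (π : Matrix m m K),
      Fintype.card m = 2 ^ n ∧ IsStrongMTPair ⊥ J G π ∧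
      IsSplit J G (fun _ : Unit => (⊤ : Submodule K (m → K))) ∧
      (∃ u ∈ G, ∃ g ∈ G, IsBadEig u g ⊤ (2 ^ (n - 2)) 2) ∧
      ¬ IsFull J G (fun _ : Unit => (⊤ : Submodule K (m → K))) := by
  obtain ⟨k, rfl⟩ : ∃ k, n = k + 2 := ⟨n - 2, by omega⟩
  have hJt : (JS K (k + 2)).transpose = -JS K (k + 2) := JS_t hn
  have hJd : (JS K (k + 2)).det ≠ 0 := JS_det hn
  set V := VS K (k + 2) with hV
  set P0 := x0 K k * y0 K k with hP0
  have hsub : ∀ P ∈ OH V (x0 K k) (y0 K k), P ∈ HypSet V := fun P hP =>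
    OH_hyp VS_cliff (jw_mem 0 mem_cm) (jw_mem 0 mem_am) x0_sq y0_sq x0_y0 hP
  have hee : (-1 : K) ^ (k + 2) * (-1 : K) ^ (k + 2) = 1 := by
    rw [← mul_pow]; simp
  have hlag : ∀ P ∈ OH V (x0 K k) (y0 K k), P ∈ LagSet (JS K (k + 2)) := fun P hP =>
    hyp_lag hee JS_VS (hsub P hP)
  have hEN : EN V (x0 K k) (y0 K k) ≤ GenG (OH V (x0 K k) (y0 K k)) :=
    EN_le_gen x0_sq y0_sq x0_y0
  have hmem : ∀ z w : Matrix (Sx (k + 2)) (Sx (k + 2)) K, w ∈ V → w * x0 K k + x0 K k * w = 0 →
      w * y0 K k + y0 K k * w = 0 → (z = x0 K k * w ∨ z = y0 K k * w) →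
      ∃ u ∈ GenG (OH V (x0 K k) (y0 K k)), (u : Matrix _ _ K) = 1 + z := by
    intro z w hw hwx hwy hz
    rcases hz with rfl | rfl
    · obtain ⟨u, hu⟩ := unip_ex (eich_sq x0_sq hwx)
      exact ⟨u, hEN (Subgroup.subset_closure ⟨w, hw, hwx, hwy, Or.inl hu⟩), hu⟩
    · obtain ⟨u, hu⟩ := unip_ex (eich_sq y0_sq hwy)
      exact ⟨u, hEN (Subgroup.subset_closure ⟨w, hw, hwx, hwy, Or.inr hu⟩), hu⟩
  have hX : ∀ s : K, ∃ u ∈ GenG (OH V (x0 K k) (y0 K k)), (u : Matrix _ _ K) = 1 + s • TRSpin.EE K k := by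
    intro s
    have a1 := jw_orth (K := K) (one_ne (k := k)) mem_am mem_cm
    have a2 := jw_orth (K := K) (one_ne (k := k)) mem_am mem_am
    refine hmem _ (s • jw 1 (am K)) (V.smul_mem _ (jw_mem 1 mem_am)) ?_ ?_ (Or.inl ?_)
    · rw [smul_mul_assoc, mul_smul_comm, ← smul_add, a1, smul_zero]
    · rw [smul_mul_assoc, mul_smul_comm, ← smul_add, a2, smul_zero]
    · rw [mul_smul_comm, EE_eq]
  have hY : ∀ s : K, ∃ u ∈ GenG (OH V (x0 K k) (y0 K k)), (u : Matrix _ _ K) = 1 + s • TRSpin.FF K k := by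
    intro s
    have a1 := jw_orth (K := K) (one_ne (k := k)) mem_cm mem_cm
    have a2 := jw_orth (K := K) (one_ne (k := k)) mem_cm mem_am
    refine hmem _ ((-s) • jw 1 (cm K)) (V.smul_mem _ (jw_mem 1 mem_cm)) ?_ ?_ (Or.inr ?_)
    · rw [smul_mul_assoc, mul_smul_comm, ← smul_add, a1, smul_zero]
    · rw [smul_mul_assoc, mul_smul_comm, ← smul_add, a2, smul_zero]
    · rw [mul_smul_comm, FF_eq, smul_neg, neg_smul, neg_neg]
  obtain ⟨g1, hg1, e1⟩ := hX 2
  obtain ⟨g2, hg2, e2⟩ := hY (-(1 / 2))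
  obtain ⟨g3, hg3, e3⟩ := hX 1
  obtain ⟨g4, hg4, e4⟩ := hY 1
  obtain ⟨g5, hg5, e5⟩ := hX (-1)
  have hg : ((g1 * g2 * g3 * g4 * g5 : Matrix.GeneralLinearGroup (Sx (k + 2)) K) :
      Matrix (Sx (k + 2)) (Sx (k + 2)) K) =
      Matrix.diagonal (fun p : Sx (k + 2) => (2 : K) ^ eS p) := by
    rw [Units.val_mul, Units.val_mul, Units.val_mul, Units.val_mul, e1, e2, e3, e4, e5,
      torus_prod EE_sq FF_sq EFE FEF, torus_diag]
  obtain ⟨u, hu, eu⟩ := hmem _ (z1 K k) (jw_mem 1 mem_cm) (jw_orth one_ne mem_cm mem_cm)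
      (jw_orth one_ne mem_cm mem_am) (Or.inl rfl)
  refine ⟨Sx (k + 2), inferInstance, inferInstance, JS K (k + 2),
    GenG (OH V (x0 K k) (y0 K k)), P0, ?_, ?_, ?_, ?_, ?_⟩
  · simp
  · exact strong_of_orbit_self hJt hJd _ _ hlag hEN
  · exact split_of_irr (fun P hP => (hlag P hP).1) (fun U hU => spin_irr U hU)
  · refine ⟨u, hu, g1 * g2 * g3 * g4 * g5, Subgroup.mul_mem _ (Subgroup.mul_mem _
      (Subgroup.mul_mem _ (Subgroup.mul_mem _ hg1 hg2) hg3) hg4) hg5, ?_⟩
    have eN : (u : Matrix (Sx (k + 2)) (Sx (k + 2)) K) - 1 = x0 K k * z1 K k := by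
      rw [eu, add_sub_cancel_left]
    have h10 : ((1 : Fin 2) ≠ 0) := by decide
    refine isBadEig_of_diag eS hg
      (Finset.univ.filter fun p : Sx (k + 2) => ¬ (p 0 = 0 ∧ p 1 = 0))
      (Finset.univ.filter fun p : Sx (k + 2) => p 0 = 1 ∧ p 1 = 1)
      ?_ ?_ ?_ (e0 := 0) ?_ (by positivity) ?_ ?_
    · rw [eN]; exact ker_xz
    · rw [eN]; exact map_xz
    · intro p hp
      rw [Finset.mem_filter] at hp ⊢
      refine ⟨hp.1, fun h => ?_⟩
      rw [hp.2.1] at h
      exact h10 h.1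
    · intro p hp
      rw [Finset.mem_filter] at hp
      unfold eS
      rw [if_neg (fun h => h10 (hp.2.2.symm.trans h.2)),
        if_neg (fun h => h10 (hp.2.1.symm.trans h.1))]
    · rw [Nat.add_sub_cancel, ← card_Sp2 (k := k), Fintype.card_of_subtype]
      intro p
      rw [Finset.mem_filter]
      exact ⟨fun h => h.2, fun h => ⟨Finset.mem_univ _, h⟩⟩
    · have himg : (((Finset.univ.filter fun p : Sx (k + 2) => ¬ (p 0 = 0 ∧ p 1 = 0)) \
          (Finset.univ.filter fun p : Sx (k + 2) => p 0 = 1 ∧ p 1 = 1)).image eS) =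
          {1, -1} := by
        ext z
        rw [Finset.mem_image, Finset.mem_insert, Finset.mem_singleton]
        constructor
        · rintro ⟨p, hp, rfl⟩
          rw [Finset.mem_sdiff, Finset.mem_filter, Finset.mem_filter] at hp
          obtain ⟨⟨-, h1⟩, h2⟩ := hp
          have c0 : p 0 = 0 ∨ p 0 = 1 := by
            generalize p 0 = a
            fin_cases a <;> simp
          have c1 : p 1 = 0 ∨ p 1 = 1 := by
            generalize p 1 = a
            fin_cases a <;> simp
          unfold eS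
          rcases c0 with c0 | c0 <;> rcases c1 with c1 | c1
          · exact absurd ⟨c0, c1⟩ h1
          · right
            rw [if_neg (fun h => h10 (h.1.symm.trans c0)), if_pos ⟨c0, c1⟩]
          · left
            rw [if_pos ⟨c0, c1⟩]
          · exact absurd ⟨Finset.mem_univ _, c0, c1⟩ h2
        · rintro (rfl | rfl)
          · refine ⟨fun i => if i = 0 then 1 else 0, ?_, ?_⟩
            · rw [Finset.mem_sdiff, Finset.mem_filter, Finset.mem_filter]
              exact ⟨⟨Finset.mem_univ _, by simp⟩, by simp⟩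
            · unfold eS
              rw [if_pos]
              simp
          · refine ⟨fun i => if i = 0 then 0 else 1, ?_, ?_⟩
            · rw [Finset.mem_sdiff, Finset.mem_filter, Finset.mem_filter]
              exact ⟨⟨Finset.mem_univ _, by simp⟩, by simp⟩
            · unfold eS
              rw [if_neg (by simp), if_pos]
              simp
      rw [himg]
      rfl
  · intro hfull
    set z : Sx (k + 2) := fun _ => 0 with hz
    set w : Sx (k + 2) := fun _ => 1 with hw
    have hzw' : w ≠ z := by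
      intro h
      have := congrFun h 0
      simp [hz, hw] at this
    set N : Matrix (Sx (k + 2)) (Sx (k + 2)) K := Matrix.single z w 1 with hN
    have hNN : N * N = 0 := Matrix.single_mul_single_of_ne _ _ _ _ hzw' _
    have hleft : ∀ (A : Matrix (Sx (k + 2)) (Sx (k + 2)) K) y, (N * A) z y = A w y := by
      intro A y
      rw [Matrix.mul_apply, Finset.sum_eq_single w]
      · simp [hN]
      · intro b _ hb
        simp [hN, Matrix.single_apply, Ne.symm hb]
      · intro h; exact absurd (Finset.mem_univ _) h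
    have hright : ∀ (A : Matrix (Sx (k + 2)) (Sx (k + 2)) K) x y,
        (A * N) x y = if y = w then A x z else 0 := by
      intro A x y
      rw [Matrix.mul_apply, Finset.sum_eq_single z]
      · by_cases h : y = w
        · subst h; simp [hN]
        · simp [hN, Matrix.single_apply, h, Ne.symm h]
      · intro b _ hb
        simp [hN, Matrix.single_apply, Ne.symm hb]
      · intro h; exact absurd (Finset.mem_univ _) h
    have hJf : ∀ (l : ℕ) (a : Fin 2), a ≠ 1 → Jf K l a 0 = 0 := by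
      intro l a ha
      have ha0 : a = 0 := by omega
      subst ha0
      unfold Jf
      split_ifs <;> simp [Xm, Ym]
    have hJ : ∀ x, x ≠ w → JS K (k + 2) x z = 0 := by
      intro x hx
      obtain ⟨i, hi⟩ := Function.ne_iff.mp hx
      exact Finset.prod_eq_zero (Finset.mem_univ i) (hJf _ _ hi)
    have hsym : (JS K (k + 2) * N).transpose = JS K (k + 2) * N := by
      ext x y
      rw [Matrix.transpose_apply, hright, hright]
      by_cases hx : x = w <;> by_cases hy : y = w
      · rw [hx, hy]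
      · rw [if_pos hx, if_neg hy, hJ y hy]
      · rw [if_neg hx, if_pos hy, hJ x hx]
      · rw [if_neg hx, if_neg hy]
    have hsp : N.transpose * JS K (k + 2) + JS K (k + 2) * N = 0 := by
      rw [Matrix.transpose_mul, hJt, mul_neg] at hsym
      rw [← hsym]; abel
    let t : Matrix.GeneralLinearGroup (Sx (k + 2)) K :=
      ⟨1 + N, 1 - N, one_add_mul hNN, one_sub_mul hNN⟩
    have ht : t ∈ GenG (OH V (x0 K k) (y0 K k)) := by
      apply hfull t ⟨1, ?_⟩ (fun _ _ _ => trivial)
      rw [one_smul]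
      exact isom_one_add hNN hsp
    have hle : GenG (OH V (x0 K k) (y0 K k)) ≤ Nrm (V * V) :=
      GenG_le (Nrm_closed _) (fun P hP => hyp_nrm VS_cliff (hsub P hP))
    have hP0v : P0 ∈ V * V := Submodule.mul_mem_mul (jw_mem 0 mem_cm) (jw_mem 0 mem_am)
    have hZ := hle ht P0 hP0v
    change (1 + N) * P0 * (1 - N) ∈ V * V at hZ
    have hd : hammingDist z w = k + 2 := by
      rw [hammingDist]
      have : Finset.univ.filter (fun i => z i ≠ w i) = Finset.univ := by
        ext i; simp [hz, hw]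
      rw [this, Finset.card_univ, Fintype.card_fin]
    have hfar := VV_far hZ (p := z) (q := w) (by rw [hd]; omega)
    have e : (1 + N) * P0 * (1 - N) = P0 + N * P0 - P0 * N - N * (P0 * N) := by
      simp only [add_mul, mul_sub, one_mul, mul_one, mul_assoc]
      abel
    have a1 : P0 z w = 0 := VV_far hP0v (by rw [hd]; omega)
    have hP0d : P0 = loc 0 (cm K * am K) := by rw [hP0, jw_mul_same]
    have a2 : P0 w w = 1 := by
      rw [hP0d, loc_apply, if_pos (fun _ _ => rfl), mul_one]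
      simp [hw, cm, am, Matrix.mul_apply, Fin.sum_univ_two]
    have a3 : P0 z z = 0 := by
      rw [hP0d, loc_apply, if_pos (fun _ _ => rfl), mul_one]
      simp [hz, cm, am, Matrix.mul_apply, Fin.sum_univ_two]
    have a4 : P0 w z = 0 := VV_far hP0v (by rw [hammingDist_comm, hd]; omega)
    rw [e, Matrix.sub_apply, Matrix.sub_apply, Matrix.add_apply, hleft, hleft, hright, hright,
      if_pos rfl, if_pos rfl, a1, a2, a3, a4] at hfar
    norm_num at hfar

end TR
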