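import Pool.Agent.Helper21.TR.Weak
import Pool.Agent.Helper54.MT.TwoMain

/-!
Multiplicities of a diagonalizable operator on the kernel modulo the image of a square zero
operator: counting.
-/

open Module

namespace TR

open MTP MTP.MF Pool.Agent.Helper54.MT

section
variable {K : Type*} [Field K] {V : Type*} [AddCommGroup V] [Module K V]

/-- The multiplicity of `a` on the kernel of `N` modulo its image. -/
noncomputable def ml (N h : Module.End K V) (a : K) : ℕ :=
  finrank K ↥(LinearMap.ker N ⊓ h.eigenspace a) - finrank K ↥(LinearMap.range N ⊓ h.eigenspace a)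

/-- The divisibility conditions. -/
def DivL (N h : Module.End K V) (e : ℕ) : Prop :=
  e ∣ rk N ∧ ∀ a : K, (a ≠ 0 → e ∣ ml N h a) ∧ (a = 0 → 2 * e ∣ ml N h a)

lemma rat_of_diag [CharZero K] {y : Module.End K V} (h : ⨆ q : ℚ, y.eigenspace (q : K) = ⊤) :
    ∀ μ, y.eigenspace μ ≠ ⊥ → ∃ q : ℚ, (q : K) = μ := by
  intro μ hμ
  by_contra hcon
  push Not at hcon
  apply hμ
  have h1 := y.eigenspaces_iSupIndep μ
  have h2 : (⊤ : Submodule K V) ≤ ⨆ j, ⨆ _ : j ≠ μ, y.eigenspace j := by
    rw [← h]
    apply iSup_le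
    intro n
    exact le_iSup₂_of_le (n : K) (hcon n) le_rfl
  rw [top_le_iff.mp h2, disjoint_top] at h1
  exact h1

/-- The situation at a bad place. -/
structure BC (ω : LinearMap.BilinForm K V) (N h : Module.End K V) (σ : K) [CharZero K] :
    Prop where
  nd : ω.Nondegenerate
  skN : IsSk ω N
  skh : IsSk ω h
  sq : N * N = 0
  ne : N ≠ 0
  diag : ⨆ q : ℚ, h.eigenspace (q : K) = ⊤
  eig : h * N = σ • N

variable [FiniteDimensional K V] [CharZero K] {ω : LinearMap.BilinForm K V}
  {N h : Module.End K V} {σ : K}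

omit [FiniteDimensional K V] in
lemma BC.anti (H : BC ω N h σ) : N * h = (-σ) • N := by
  ext w
  have key : ∀ u, ω ((N * h) w - ((-σ) • N) w) u = 0 := by
    intro u
    have e : ω (N (h w)) u = (-σ) * ω (N w) u := by
      have h1 : h (N u) = σ • N u := LinearMap.congr_fun H.eig u
      rw [H.skN, H.skh, h1, map_smul, H.skN w u, smul_eq_mul]; ring
    rw [map_sub, LinearMap.sub_apply, Module.End.mul_apply, e, LinearMap.smul_apply, map_smul,
      LinearMap.smul_apply, smul_eq_mul, sub_self]
  exact sub_eq_zero.mp (H.nd.1 _ key)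

omit [FiniteDimensional K V] in
lemma BC.range_le (H : BC ω N h σ) : LinearMap.range N ≤ h.eigenspace σ := by
  rintro _ ⟨u, rfl⟩
  rw [Module.End.mem_eigenspace_iff]
  exact LinearMap.congr_fun H.eig u

open Classical in
omit [FiniteDimensional K V] in
lemma BC.range_part (H : BC ω N h σ) (a : K) :
    finrank K ↥(LinearMap.range N ⊓ h.eigenspace a) = if a = σ then rk N else 0 := by
  split_ifs with ha
  · rw [ha, inf_eq_left.mpr H.range_le]; rfl
  · have : LinearMap.range N ⊓ h.eigenspace a = ⊥ := by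
      rw [eq_bot_iff]
      rintro v ⟨h1, h2⟩
      have h3 := Module.End.mem_eigenspace_iff.mp (H.range_le h1)
      have h4 := Module.End.mem_eigenspace_iff.mp h2
      have h5 : (a - σ) • v = 0 := by rw [sub_smul, ← h3, ← h4, sub_self]
      exact (Submodule.mem_bot K).mpr ((smul_eq_zero.mp h5).resolve_left (sub_ne_zero.mpr ha))
    rw [this, finrank_bot]

omit [FiniteDimensional K V] in
lemma BC.le_ker (H : BC ω N h σ) {a : K} (ha : a ≠ -σ) :
    h.eigenspace a ≤ LinearMap.ker N := by
  intro v hv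
  have h1 := Module.End.mem_eigenspace_iff.mp hv
  have h2 : N (h v) = (-σ) • N v := LinearMap.congr_fun H.anti v
  rw [h1, map_smul] at h2
  have h3 : (a - -σ) • N v = 0 := by rw [sub_smul, h2, sub_self]
  exact (smul_eq_zero.mp h3).resolve_left (sub_ne_zero.mpr ha)

lemma finrank_inf_ker (f : Module.End K V) (E : Submodule K V) :
    finrank K ↥(LinearMap.ker f ⊓ E) + finrank K ↥(E.map f) = finrank K E := by
  have h1 := LinearMap.finrank_range_add_finrank_ker (f.domRestrict E)
  have h2 : LinearMap.range (f.domRestrict E) = E.map f := by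
    rw [LinearMap.range_domRestrict]
  have h3 : (LinearMap.ker (f.domRestrict E)).map E.subtype = LinearMap.ker f ⊓ E := by
    ext v
    constructor
    · rintro ⟨w, hw, rfl⟩
      exact ⟨hw, w.2⟩
    · rintro ⟨h1, h2⟩
      exact ⟨⟨v, h2⟩, h1, rfl⟩
  rw [h2, ← Submodule.finrank_map_subtype_eq E (LinearMap.ker (f.domRestrict E)), h3] at h1
  omega

open Classical in
lemma BC.ker_part (H : BC ω N h σ) (a : K) :
    finrank K ↥(LinearMap.ker N ⊓ h.eigenspace a) + (if a = -σ then rk N else 0) =
      finrank K (h.eigenspace a) := by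
  split_ifs with ha
  · have h1 := finrank_inf_ker N (h.eigenspace a)
    have h2 : (h.eigenspace a).map N = LinearMap.range N := by
      apply le_antisymm (LinearMap.map_le_range)
      rw [← Submodule.map_top, ← H.diag, Submodule.map_iSup]
      apply iSup_le
      intro q
      by_cases hq : (q : K) = -σ
      · rw [hq, ha]
      · rw [Submodule.map_le_iff_le_comap]
        intro v hv
        rw [Submodule.mem_comap]
        have := H.le_ker hq hv
        rw [LinearMap.mem_ker] at this
        rw [this]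
        exact Submodule.zero_mem _
    rw [h2] at h1
    exact h1
  · rw [inf_eq_right.mpr (H.le_ker ha), add_zero]

open Classical in
lemma BC.ml_eq (H : BC ω N h σ) (a : K) :
    ml N h a + (if a = σ then rk N else 0) + (if a = -σ then rk N else 0) =
      finrank K (h.eigenspace a) := by
  have h1 := H.ker_part a
  have h2 := H.range_part a
  have h3 : finrank K ↥(LinearMap.range N ⊓ h.eigenspace a) ≤
      finrank K ↥(LinearMap.ker N ⊓ h.eigenspace a) := by
    apply Submodule.finrank_mono
    apply inf_le_inf_right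
    rintro _ ⟨u, rfl⟩
    rw [LinearMap.mem_ker, ← Module.End.mul_apply, H.sq, LinearMap.zero_apply]
  unfold ml
  omega

lemma BC.ml_neg (H : BC ω N h σ) (a : K) : ml N h (-a) = ml N h a := by
  classical
  have h1 := H.ml_eq a
  have h2 := H.ml_eq (-a)
  rw [mult_symm H.nd H.skh a, ← h1] at h2
  have e1 : (-a = σ) ↔ (a = -σ) := neg_eq_iff_eq_neg
  have e2 : (-a = -σ) ↔ (a = σ) := neg_inj
  simp only [e1, e2] at h2
  omega

omit [FiniteDimensional K V] in
lemma BC.rat (H : BC ω N h σ) : ∃ q : ℚ, (q : K) = σ := by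
  apply rat_of_diag H.diag
  intro h0
  have := H.range_le
  rw [h0, le_bot_iff, LinearMap.range_eq_bot] at this
  exact H.ne this

lemma BC.dim (H : BC ω N h σ) (T : Finset ℚ)
    (hT : ∀ q : ℚ, h.eigenspace (q : K) ≠ ⊥ → q ∈ T) :
    finrank K V = ∑ q ∈ T, finrank K (h.eigenspace (q : K)) := by
  classical
  have htop : ⨆ μ, h.eigenspace μ = ⊤ := by
    rw [eq_top_iff, ← H.diag]
    exact iSup_le (fun q => le_iSup (fun μ : K => h.eigenspace μ) (q : K))
  have hinj : Function.Injective (fun q : ℚ => (q : K)) := Rat.cast_injective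
  have h1 := trace_aeval htop (T.map ⟨_, hinj⟩)
    (fun μ hμ => by
      obtain ⟨q, hq⟩ := rat_of_diag H.diag μ hμ
      rw [Finset.mem_map]
      exact ⟨q, hT q (by rw [hq]; exact hμ), hq⟩) (1 : Polynomial K)
  rw [map_one, LinearMap.trace_one, Finset.sum_map] at h1
  simp only [Polynomial.eval_one, one_mul, Function.Embedding.coeFn_mk] at h1
  exact_mod_cast h1

/-- **The counting formula.** -/
lemma BC.count (H : BC ω N h σ) : ∃ P : Finset ℚ, (∀ q ∈ P, 0 < q) ∧
    finrank K V = 2 * rk N + ml N h 0 + 2 * ∑ q ∈ P, ml N h (q : K) ∧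
    ∀ a : K, a ≠ 0 → (∀ q ∈ P, a ≠ (q : K) ∧ a ≠ -(q : K)) → ml N h a = 0 := by
  classical
  obtain ⟨s, hs⟩ := H.rat
  obtain ⟨Λ, hΛ⟩ := exists_finset h
  have hinj : Function.Injective (fun q : ℚ => (q : K)) := Rat.cast_injective
  set Q : Finset ℚ := Λ.preimage _ hinj.injOn ∪ {s} with hQ
  have hQm : ∀ q : ℚ, h.eigenspace (q : K) ≠ ⊥ → q ∈ Q := by
    intro q hq
    rw [hQ, Finset.mem_union, Finset.mem_preimage]
    exact Or.inl ((hΛ _).mp hq)
  have hsQ : s ∈ Q := by rw [hQ]; simp
  set P : Finset ℚ := (Q.image (fun q => |q|)).erase 0 with hP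
  have hPpos : ∀ q ∈ P, 0 < q := by
    intro q hq
    rw [hP, Finset.mem_erase, Finset.mem_image] at hq
    obtain ⟨h1, x, -, rfl⟩ := hq
    exact lt_of_le_of_ne (abs_nonneg x) (Ne.symm h1)
  have hPmem : ∀ q ∈ Q, q ≠ 0 → q ∈ P ∨ -q ∈ P := by
    intro q hq hq0
    have : |q| ∈ P := by
      rw [hP, Finset.mem_erase]
      exact ⟨abs_ne_zero.mpr hq0, Finset.mem_image_of_mem _ hq⟩
    rcases abs_choice q with h | h <;> rw [h] at this
    · exact Or.inl this
    · exact Or.inr this
  set T : Finset ℚ := insert 0 (P ∪ P.map ⟨_, neg_injective⟩) with hTdef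
  have hTmem : ∀ q, q ∈ T ↔ q = 0 ∨ q ∈ P ∨ -q ∈ P := by
    intro q
    rw [hTdef, Finset.mem_insert, Finset.mem_union, Finset.mem_map]
    constructor
    · rintro (h | h | ⟨x, hx, rfl⟩)
      · exact Or.inl h
      · exact Or.inr (Or.inl h)
      · right; right
        simpa using hx
    · rintro (h | h | h)
      · exact Or.inl h
      · exact Or.inr (Or.inl h)
      · exact Or.inr (Or.inr ⟨-q, h, by simp⟩)
  have hQT : ∀ q ∈ Q, q ∈ T := by
    intro q hq
    rw [hTmem]
    by_cases h0 : q = 0
    · exact Or.inl h0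
    · exact Or.inr (hPmem q hq h0)
  have hTneg : ∀ q ∈ T, -q ∈ T := by
    intro q hq
    rw [hTmem] at hq ⊢
    rcases hq with h | h | h
    · left; rw [h, neg_zero]
    · right; right; rw [neg_neg]; exact h
    · right; left; exact h
  have hdim := H.dim T (fun q hq => hQT q (hQm q hq))
  have hsum : ∀ f : ℚ → ℕ, ∑ q ∈ T, f q = f 0 + ∑ q ∈ P, f q + ∑ q ∈ P, f (-q) := by
    intro f
    rw [hTdef, Finset.sum_insert, Finset.sum_union, Finset.sum_map]
    · simp only [Function.Embedding.coeFn_mk]; ring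
    · rw [Finset.disjoint_left]
      intro q hq hq'
      rw [Finset.mem_map] at hq'
      obtain ⟨x, hx, rfl⟩ := hq'
      have h1 := hPpos _ hq
      have h2 := hPpos _ hx
      simp only [Function.Embedding.coeFn_mk] at h1
      linarith
    · rw [Finset.mem_union, Finset.mem_map]
      rintro (h | ⟨x, hx, h⟩)
      · exact lt_irrefl _ (hPpos _ h)
      · have h2 := hPpos _ hx
        simp only [Function.Embedding.coeFn_mk] at h
        linarith
  refine ⟨P, hPpos, ?_, ?_⟩
  · rw [hdim]
    have h1 : ∑ q ∈ T, finrank K (h.eigenspace (q : K)) =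
        ∑ q ∈ T, (ml N h (q : K) + (if q = s then rk N else 0) + (if q = -s then rk N else 0)) := by
      apply Finset.sum_congr rfl
      intro q _
      rw [← H.ml_eq (q : K)]
      have e1 : ((q : K) = σ) ↔ (q = s) := by rw [← hs]; exact Rat.cast_inj
      have e2 : ((q : K) = -σ) ↔ (q = -s) := by rw [← hs, ← Rat.cast_neg]; exact Rat.cast_inj
      simp only [e1, e2]
    rw [h1, Finset.sum_add_distrib, Finset.sum_add_distrib, Finset.sum_ite_eq', Finset.sum_ite_eq',
      if_pos (hQT s hsQ), if_pos (hTneg s (hQT s hsQ)), hsum]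
    have h2 : ∀ q ∈ P, ml N h ((-q : ℚ) : K) = ml N h (q : K) := by
      intro q _
      rw [Rat.cast_neg, H.ml_neg]
    rw [Finset.sum_congr rfl h2, Rat.cast_zero]
    ring
  · intro a ha hPa
    by_contra hne
    have h1 : h.eigenspace a ≠ ⊥ := by
      intro h0
      have := H.ml_eq a
      rw [h0, finrank_bot] at this
      omega
    obtain ⟨q, hq⟩ := rat_of_diag H.diag a h1
    have hq0 : q ≠ 0 := by
      rintro rfl
      exact ha (by rw [← hq, Rat.cast_zero])
    rcases hPmem q (hQm q (by rw [hq]; exact h1)) hq0 with h2 | h2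
    · exact (hPa q h2).1 hq.symm
    · apply (hPa (-q) h2).2
      rw [← hq, Rat.cast_neg, neg_neg]

end

end TR
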