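import Pool.Agent.Helper21.TR.SL6
import Pool.Agent.Helper38.TR.C

/-!
The roots orthogonal to a root of value two act non trivially on the weights which pair to one
with it; extremal elements.
-/

set_option linter.unusedSectionVars false

namespace TR

variable {K : Type*} [Field K] [CharZero K] {M : Type*} [AddCommGroup M] [Module K M]
  {B : LinearMap.BilinForm K M} {s : M →ₗ[K] K} {Φ X : Finset M}

/-- Q1: nontriviality, simply laced systems. -/
theorem SL.nontriv (h : SL B s Φ X) {i g : M} (hi : i ∈ Φ) (hs : s i = 2)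
    (hg : g ∈ Φ) (sg : s g = 0) (hig : B g i = 0) :
    ∃ z ∈ X, B z i = 1 ∧ B z g ≠ 0 := by
  classical
  by_contra hcon
  have h0 : ∀ z ∈ X, B z i = 1 → B z g = 0 := by
    intro z hz hzi
    by_contra h1
    exact hcon ⟨z, hz, hzi, h1⟩
  -- a neighbour of `i` which is not orthogonal to `g`
  obtain ⟨a, ha, sa, ai, ga⟩ : ∃ a ∈ Φ, s a = 2 ∧ B a i = 1 ∧ B g a ≠ 0 := by
    obtain ⟨k, hk, sk, gk⟩ := h.hit g hg sg
    by_cases hki : k = i
    · rw [hki] at gk
      exact absurd hig gk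
    rcases h.pp hk hi sk hs hki with h1 | h1
    · have h1' : B i k = 0 := by rw [h.symm]; exact h1
      obtain ⟨e, he, se, ei, ek⟩ := h.common hi hk hs sk h1'
      by_cases hge : B g e = 0
      · obtain ⟨q1, q2, q3, q4, q5⟩ := h.square hi hk he hs sk se h1' ei ek
        refine ⟨_, q1, q2, q3, ?_⟩
        rw [map_sub, map_add, hig, hge, zero_add, sub_zero]
        exact gk
      · exact ⟨e, he, se, ei, hge⟩
    · exact ⟨k, hk, sk, h1, gk⟩
  -- make the pairing equal to one
  obtain ⟨g, hg, sg, hig, h0, ga⟩ : ∃ g ∈ Φ, s g = 0 ∧ B g i = 0 ∧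
      (∀ z ∈ X, B z i = 1 → B z g = 0) ∧ B a g = 1 := by
    rcases h.pair_zero_two hg sg ha sa with h1 | h1 | h1
    · refine ⟨-g, h.neg g hg, by rw [map_neg, sg, neg_zero], by
        rw [map_neg, LinearMap.neg_apply, hig, neg_zero], ?_, by rw [map_neg, h1, neg_neg]⟩
      intro z hz hzi
      rw [map_neg, h0 z hz hzi, neg_zero]
    · rw [h.symm] at h1
      exact absurd h1 ga
    · exact ⟨g, hg, sg, hig, h0, h1⟩
  -- a weight which is one on `i` and on `a`
  obtain ⟨x, hx, xi, xa⟩ : ∃ x ∈ X, B x i = 1 ∧ B x a = 1 := by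
    obtain ⟨x, A, D⟩ := h.exists_blk hi hs
    rcases D.inR_or ha sa ai with h1 | h1
    · exact ⟨x, D.hx, D.xi, h1.2.2.2⟩
    · exact ⟨i - x, D.yX, D.yi, D.y_C h1⟩
  obtain ⟨A, h1, h2, h3, h4, h5, h6⟩ := h.orth x hx i hi xi
  have D : SL.Blk B s Φ X i x A := ⟨h, hi, hs, hx, xi, h1, h2, h3, h4, h5, h6⟩
  have haR : D.InR a := ⟨ha, sa, ai, xa⟩
  have hag : a - g ∈ Φ := h.sub a ha g hg ga
  have haR' : D.InR (a - g) := by
    refine ⟨hag, by rw [map_sub, sa, sg, sub_zero], ?_, ?_⟩
    · rw [map_sub, LinearMap.sub_apply, ai, hig, sub_zero]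
    · rw [map_sub, xa, h0 x hx xi, sub_zero]
  obtain ⟨b, hb, hbi, hba, hbu⟩ := D.block_R haR
  -- another block
  obtain ⟨b', hb', hb'i, hb'b⟩ : ∃ b' ∈ A, b' ≠ i ∧ b' ≠ b := by
    by_contra hcon
    push Not at hcon
    have hA2 : A = {i, b} := by
      ext z
      rw [Finset.mem_insert, Finset.mem_singleton]
      constructor
      · intro hz
        by_cases hzi : z = i
        · exact Or.inl hzi
        · exact Or.inr (hcon z hz hzi)
      · rintro (rfl | rfl)
        · exact h2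
        · exact hb
    rw [hA2, Finset.card_pair (Ne.symm hbi)] at h6
    exact (by decide : ¬ Odd 2) h6
  have hb'a : B b' a = 0 := hbu b' hb' hb'i hb'b
  have hb'g : B b' g = 0 := by
    have h7 := h.xsub x hx b' (h1 hb') (h3 b' hb')
    have h8 : B (x - b') i = 1 := by
      rw [map_sub, LinearMap.sub_apply, xi, D.bi hb' hb'i, sub_zero]
    have h9 := h0 _ h7 h8
    rw [map_sub, LinearMap.sub_apply, h0 x hx xi, zero_sub, neg_eq_zero] at h9
    exact h9
  have hb'a' : B b' (a - g) = 0 := by rw [map_sub, hb'a, hb'g, sub_zero]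
  obtain ⟨u, hu, hb'u⟩ := D.block_ne hb' hb'i
  have hc := D.sub_mem_C hu hb' hb'i hb'u
  set c := u - b' with hcdef
  have hcb : B b' c = -1 := by
    rw [hcdef, map_sub, hb'u, h.two b' (h1 hb')]; norm_num
  have e1 : c + b' = u := by rw [hcdef]; abel
  clear_value c
  have hau : a ≠ u := by
    rintro rfl
    rw [hb'a] at hb'u
    exact zero_ne_one hb'u
  have hau' : a - g ≠ u := by
    intro h7
    rw [h7, hb'u] at hb'a'
    exact one_ne_zero hb'a'
  have k1 : B a c = 1 := by
    have := D.adj_CR hc hb' hb'i hcb haR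
    rwa [e1, if_neg hau, hb'a, sub_zero] at this
  have k2 : B (a - g) c = 1 := by
    have := D.adj_CR hc hb' hb'i hcb haR'
    rwa [e1, if_neg hau', hb'a', sub_zero] at this
  have k3 : B g c = 0 := by
    have k : B (a - g) c = B a c - B g c := by rw [map_sub, LinearMap.sub_apply]
    rw [k2, k1] at k
    linear_combination k
  have k4 : a - c ∈ Φ := h.sub a ha c hc.1 k1
  have k5 : B x (a - c) = 1 := by rw [map_sub, xa, hc.2.2.2, sub_zero]
  have k6 := h.xsub x hx _ k4 k5
  have k7 : B (x - (a - c)) i = 1 := by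
    rw [map_sub, map_sub, LinearMap.sub_apply, LinearMap.sub_apply, xi, ai, hc.2.2.1]; ring
  have k8 := h0 _ k6 k7
  rw [map_sub, map_sub, LinearMap.sub_apply, LinearMap.sub_apply, h0 x hx xi, ga,
    h.symm c g, k3] at k8
  norm_num at k8

open Module MTP

/-- Q4: a square zero element is extremal, or it is the sum of two square zero elements of
smaller rank. -/
theorem ext_or_split {K : Type*} [Field K] [CharZero K] [IsAlgClosed K] {V : Type*}
    [AddCommGroup V] [Module K V] [FiniteDimensional K V] {ω : LinearMap.BilinForm K V}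
    {L : Submodule K (Module.End K V)} (hL : IrrSymp ω L)
    (hω : ω.Nondegenerate) {N : Module.End K V} (hN : N ∈ L) (hNN : N * N = 0) (hN0 : N ≠ 0) :
    (∃ u ∈ L, ∃ v ∈ L, u * u = 0 ∧ v * v = 0 ∧ rk u + rk v = rk N ∧ 0 < rk u ∧ 0 < rk v) ∨
    ∀ y ∈ L, ∃ c : K, N * y * N = c • N := by
  by_cases hsp : ∃ u ∈ L, ∃ v ∈ L, u * u = 0 ∧ v * v = 0 ∧ rk u + rk v = rk N ∧
      0 < rk u ∧ 0 < rk v
  · exact Or.inl hsp
  right
  intro y hy
  exact ⟨_, RD.ext_of_trace hL hω hN hNN hN0
    (fun y hy => (RD.dich hL hN hNN hN0 hy).resolve_left hsp) hy⟩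

end TR
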