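import Pool.Agent.Helper21.TR.Bad1
import Pool.Agent.Helper11.TR.NonSimplePlus
import Pool.Agent.Helper48.TR.SimplePlus

/-!
The exceptional triples (rank, greatest common divisor, dimension): the Lie algebra form.
-/

open Module LieAlgebra MTPairs

namespace TR

open MTP MTP.MF Pool.Agent.Helper54.MT

/-- The exceptional triples: rank, greatest common divisor of the multiplicities, dimension. -/
def ExcB (r d D : ℕ) : Prop :=
  0 < r ∧ 2 * r ≤ D ∧ 2 ∣ d ∧ d ∣ r ∧ 2 * d ∣ D ∧ (2 * r = D → d = r) ∧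
    (4 ≤ d ∨ 4 ∣ r ∨ (r = 6 ∧ D = 20))

section
variable {K : Type*} [Field K] {V : Type*} [AddCommGroup V] [Module K V]
  [FiniteDimensional K V] [CharZero K] {ω : LinearMap.BilinForm K V}
  {N h : Module.End K V} {σ : K}

lemma BC.two_le (H : BC ω N h σ) : 2 * rk N ≤ finrank K V := by
  obtain ⟨P, -, h1, -⟩ := H.count
  omega

lemma BC.pos (H : BC ω N h σ) : 0 < rk N := by
  rw [Nat.pos_iff_ne_zero]
  intro h0
  unfold rk at h0
  rw [Submodule.finrank_eq_zero, LinearMap.range_eq_bot] at h0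
  exact H.ne h0

lemma BC.two_dvd (H : BC ω N h σ) {e : ℕ} (he : DivL N h e) : 2 * e ∣ finrank K V := by
  obtain ⟨P, hP, h1, -⟩ := H.count
  rw [h1, add_assoc]
  apply dvd_add (Nat.mul_dvd_mul_left 2 he.1)
  apply dvd_add ((he.2 0).2 rfl)
  apply Nat.mul_dvd_mul_left 2
  apply Finset.dvd_sum
  intro q hq
  apply (he.2 (q : K)).1
  exact_mod_cast (hP q hq).ne'

lemma BC.divL_of (H : BC ω N h σ) {e : ℕ} (h1 : e ∣ rk N) (h2 : 2 * e ∣ finrank K V)
    (h3 : ∀ a : K, a ≠ 0 → e ∣ ml N h a) : DivL N h e := by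
  refine ⟨h1, fun a => ⟨h3 a, ?_⟩⟩
  rintro rfl
  obtain ⟨P, hP, h4, -⟩ := H.count
  have h5 : 2 * e ∣ 2 * ∑ q ∈ P, ml N h (q : K) := by
    apply Nat.mul_dvd_mul_left 2
    apply Finset.dvd_sum
    intro q hq
    apply h3
    exact_mod_cast (hP q hq).ne'
  rw [h4] at h2
  have h6 : 2 * e ∣ 2 * rk N + ml N h 0 := (Nat.dvd_add_left h5).mp h2
  exact (Nat.dvd_add_right (Nat.mul_dvd_mul_left 2 h1)).mp h6

lemma BC.of_half (H : BC ω N h σ) (hr : 2 * rk N = finrank K V) {d : ℕ} (hd : DivL N h d)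
    (hmax : ∀ e, DivL N h e → e ∣ d) : d = rk N := by
  apply Nat.dvd_antisymm hd.1
  apply hmax
  apply H.divL_of dvd_rfl (by rw [hr])
  intro a ha
  obtain ⟨P, hP, h4, h5⟩ := H.count
  rw [← hr] at h4
  have h6 : ∑ q ∈ P, ml N h (q : K) = 0 := by omega
  rw [Finset.sum_eq_zero_iff] at h6
  by_cases h7 : ∀ q ∈ P, a ≠ (q : K) ∧ a ≠ -(q : K)
  · rw [h5 a ha h7]; exact dvd_zero _
  · push Not at h7
    obtain ⟨q, hq, h8⟩ := h7
    by_cases h9 : a = q
    · rw [h9, h6 q hq]; exact dvd_zero _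
    · rw [h8 h9, H.ml_neg, h6 q hq]; exact dvd_zero _

/-- The case in which there is at most one eigenvalue up to sign. -/
lemma BC.of_one (H : BC ω N h σ) {a : K} (ha : ∀ v, N v = 0 → ∃ w, h (h v) - (a * a) • v = N w)
    {e : ℕ} (h1 : e ∣ rk N) (h2 : 2 * e ∣ finrank K V) : DivL N h e := by
  have key : ∀ b : K, b * b ≠ a * a → ml N h b = 0 := by
    intro b hb
    have : LinearMap.ker N ⊓ h.eigenspace b ≤ LinearMap.range N ⊓ h.eigenspace b := by
      rintro v ⟨hv1, hv2⟩
      refine ⟨?_, hv2⟩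
      obtain ⟨w, hw⟩ := ha v hv1
      have hv3 := Module.End.mem_eigenspace_iff.mp hv2
      rw [hv3, map_smul, hv3, smul_smul, ← sub_smul] at hw
      refine ⟨(b * b - a * a)⁻¹ • w, ?_⟩
      rw [map_smul, ← hw, smul_smul, inv_mul_cancel₀ (sub_ne_zero.mpr hb), one_smul]
    have := Submodule.finrank_mono this
    unfold ml
    omega
  apply H.divL_of h1 h2
  intro b hb
  by_cases hba : b * b = a * a
  swap
  · rw [key b hba]; exact dvd_zero _
  obtain ⟨P, hP, h4, h5⟩ := H.count
  have h0 : ml N h 0 = 0 := by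
    apply key
    rw [← hba, mul_zero]
    exact (mul_ne_zero hb hb).symm
  by_cases h7 : ∀ q ∈ P, b ≠ (q : K) ∧ b ≠ -(q : K)
  · rw [h5 b hb h7]; exact dvd_zero _
  push Not at h7
  obtain ⟨q, hq, h8⟩ := h7
  have hqb : ml N h b = ml N h (q : K) ∧ (q : K) * q = a * a := by
    by_cases h9 : b = q
    · rw [h9] at hba ⊢; exact ⟨rfl, hba⟩
    · rw [h8 h9] at hba ⊢; exact ⟨H.ml_neg _, by rw [← hba]; ring⟩
  have h6 : ∑ q ∈ P, ml N h (q : K) = ml N h (q : K) := by
    apply Finset.sum_eq_single q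
    · intro p hp hpq
      apply key
      rw [← hqb.2]
      intro h10
      have h11 : p * p = q * q := by exact_mod_cast h10
      have h12 : (p - q) * (p + q) = 0 := by linear_combination h11
      rcases mul_eq_zero.mp h12 with h13 | h13
      · exact hpq (sub_eq_zero.mp h13)
      · have := hP p hp; have := hP q hq; linarith
    · intro h; exact absurd hq h
  rw [hqb.1]
  rw [h6, h0] at h4
  obtain ⟨x, hx⟩ := h1
  obtain ⟨y, hy⟩ := h2
  rw [hx, hy] at h4
  have h13 : e * y = e * x + ml N h (q : K) := by nlinarith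
  exact (Nat.dvd_add_right (Dvd.intro x rfl)).mp (by rw [← h13]; exact Dvd.intro y rfl)

end

section lie

attribute [local instance 100] LieRing.ofAssociativeRing

variable {K : Type*} [Field K] [CharZero K] [IsAlgClosed K] {V : Type*} [AddCommGroup V]
  [Module K V] [FiniteDimensional K V] {ω : LinearMap.BilinForm K V}

/-- **The multiplicities at a bad place, Lie algebra form.** -/
theorem bad_lie [Nontrivial V] {L : LieSubalgebra K (Module.End K V)}
    {S : Set (Module.End K V)}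
    (hC : Ctx ω L.toSubmodule S) (halt : ω.IsAlt) {N h : Module.End K V} (hN : N ∈ L)
    (hNN : N * N = 0) (hN0 : N ≠ 0) (hh : h ∈ L)
    (hdiag : ⨆ q : ℚ, h.eigenspace (q : K) = ⊤) {σ : K} (hσ : h * N = σ • N) {d : ℕ}
    (hd : DivL N h d) (hmax : ∀ e, DivL N h e → e ∣ d) :
    (∀ z, IsSk ω z → z ∈ L) ∨ ExcB (rk N) d (finrank K V) := by
  have H : BC ω N h σ := ⟨hC.nd, hC.irr.sk N hN, hC.irr.sk h hh, hNN, hN0, hdiag, hσ⟩
  have hpos := H.pos
  have hd0 : 0 < d := Nat.pos_of_dvd_of_pos hd.1 hpos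
  by_cases hs : IsSimple K L
  · rcases simple_plus hC halt hs hN hNN hN0 hh hdiag hσ with h1 | ⟨a, ha⟩
    · exact Or.inl h1
    rcases simple_exc hC halt hs hN hNN hN0 with h1 | hex
    · exact Or.inl h1
    right
    obtain ⟨e1, e2, e3, e4, e5⟩ := hex
    have hdvd : ∀ e, e ∣ rk N → 2 * e ∣ finrank K V → e ∣ d :=
      fun e h1 h2 => hmax e (H.of_one ha h1 h2)
    refine ⟨hpos, e3, hdvd 2 e4 (by exact e1), hd.1, H.two_dvd hd,
      fun h1 => H.of_half h1 hd hmax, ?_⟩
    rcases e5 with e5 | e5 | e5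
    · exact Or.inr (Or.inl e5)
    · left
      obtain ⟨p, hp, hp1, hp2⟩ := Nat.Prime.not_coprime_iff_dvd.mp e5
      have h2 : 2 * p ∣ d := by
        apply hdvd
        · obtain ⟨x, hx⟩ := e4
          rw [hx, Nat.mul_div_cancel_left _ two_pos] at hp1
          rw [hx]
          exact Nat.mul_dvd_mul_left 2 hp1
        · obtain ⟨x, hx⟩ := e1
          rw [hx, Nat.mul_div_cancel_left _ (by norm_num)] at hp2
          rw [hx, show 2 * (2 * p) = 4 * p by ring]
          exact Nat.mul_dvd_mul_left 4 hp2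
      have h3 := Nat.le_of_dvd hd0 h2
      have h4 := hp.two_le
      omega
    · exact Or.inr (Or.inr e5)
  · right
    obtain ⟨e, e0, e1, e2, e3, e4, e5⟩ := nonsimple_plus hC halt hs hN hNN hN0 hh hσ
    have hss : h.IsSemisimple := by
      apply semisimple_of_diag
      rw [eq_top_iff, ← hdiag]
      exact iSup_le (fun q => le_iSup (fun μ : K => h.eigenspace μ) (q : K))
    have hgen : ∀ a : K, h.maxGenEigenspace a = h.eigenspace a := fun a =>
      hss.isFinitelySemisimple.maxGenEigenspace_eq_eigenspace a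
    have hed : e ∣ d := by
      apply hmax
      apply H.divL_of e3 e2
      intro a _
      classical
      have h1 := e5 a
      rw [hgen] at h1
      have h2 := H.range_part a
      unfold ml
      rw [h2]
      apply Nat.dvd_sub h1
      split_ifs
      · exact e3
      · exact dvd_zero _
    refine ⟨hpos, H.two_le, e1.trans hed, hd.1, H.two_dvd hd,
      fun h1 => H.of_half h1 hd hmax, ?_⟩
    rcases e4 with e4 | e4
    · exact Or.inl (e4.trans (Nat.le_of_dvd hd0 hed))
    · exact Or.inr (Or.inl e4)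

/-- The same for a submodule closed under commutators. -/
theorem bad_sub [Nontrivial V] {L : Submodule K (Module.End K V)}
    {S : Set (Module.End K V)} (hC : Ctx ω L S) (halt : ω.IsAlt) {N h : Module.End K V}
    (hN : N ∈ L) (hNN : N * N = 0) (hN0 : N ≠ 0) (hh : h ∈ L)
    (hdiag : ⨆ q : ℚ, h.eigenspace (q : K) = ⊤) {σ : K} (hσ : h * N = σ • N) {d : ℕ}
    (hd : DivL N h d) (hmax : ∀ e, DivL N h e → e ∣ d)
    (hexc : ¬ ExcB (rk N) d (finrank K V)) {z : Module.End K V} (hz : IsSk ω z) : z ∈ L := by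
  let L' : LieSubalgebra K (Module.End K V) :=
    { L with lie_mem' := by intro x y hx hy; exact hC.irr.br x hx y hy }
  exact (bad_lie (L := L') (S := S) hC halt hN hNN hN0 hh hdiag hσ hd hmax).resolve_right
    hexc z hz

end lie

end TR
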