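import Pool.Agent.Helper21.MT.Defs

/-!
The data of a place of bad reduction, in matrix form: a quadratic unipotent element together with
an element of the group (a Frobenius) which has one eigenvalue on its image.
-/

open Module

namespace MTPairs

variable {K : Type*} [Field K] {m : Type*} [Fintype m] [DecidableEq m]

/-- The multiplicity of `a` as an eigenvalue of `g` on the quotient of the kernel of `u - 1` by
the image of `u - 1`, on the subspace `W`. -/
noncomputable def mlt (u g : Matrix m m K) (W : Submodule K (m → K)) (a : K) : ℕ :=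
  finrank K ↥(W ⊓ LinearMap.ker (u - 1).mulVecLin ⊓ Module.End.maxGenEigenspace g.mulVecLin a) -
  finrank K ↥(W.map (u - 1).mulVecLin ⊓ Module.End.maxGenEigenspace g.mulVecLin a)

/-- `d` divides the rank `r`, the multiplicities `mlt a` with `a² ≠ c`, and the numbers
`mlt a / 2` with `a² = c`. -/
def Divs (u g : Matrix m m K) (W : Submodule K (m → K)) (r : ℕ) (c : K) (d : ℕ) : Prop :=
  d ∣ r ∧ ∀ a : K, (a * a ≠ c → d ∣ mlt u g W a) ∧ (a * a = c → 2 * d ∣ mlt u g W a)

/-- The data of a bad place on `W`: `u` is `1 + N` on `W`, `N² = 0`, of rank `r > 0`; no quotient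
of two different eigenvalues of `g` on `W` is a root of unity; `g` has only one eigenvalue on the
image of `N`; and `d` is the greatest common divisor of `r` and of the multiplicities of the
eigenvalues of `g` on the kernel of `N` modulo the image of `N`, where the multiplicity of an
eigenvalue whose square is the multiplier `c` of `g` is halved. -/
def IsBad (J : Matrix m m K) (u g : Matrix.GeneralLinearGroup m K)
    (W : Submodule K (m → K)) (r d : ℕ) : Prop :=
  0 < r ∧ IsQuadraticOn u W r ∧
  (∀ a b : K, ∀ v ∈ W, ∀ w ∈ W, v ≠ 0 → w ≠ 0 → (g : Matrix m m K).mulVec v = a • v →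
    (g : Matrix m m K).mulVec w = b • w → ∀ n : ℕ, 0 < n → a ^ n = b ^ n → a = b) ∧
  (∃ a : K, ∀ v ∈ W, ((u : Matrix m m K) - 1).mulVec v ∈
    Module.End.maxGenEigenspace (g : Matrix m m K).mulVecLin a) ∧
  ∃ c : K, (g : Matrix m m K).transpose * J * (g : Matrix m m K) = c • J ∧
    Divs (u : Matrix m m K) g W r c d ∧ ∀ e, Divs (u : Matrix m m K) g W r c e → e ∣ d

end MTPairs
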