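import Pool.Agent.Helper21.TR.SL5

/-!
Simply laced systems: the classification.
-/

set_option linter.unusedSectionVars false

namespace TR

variable {K : Type*} [Field K] [CharZero K] {M : Type*} [AddCommGroup M] [Module K M]
  {B : LinearMap.BilinForm K M} {s : M →ₗ[K] K} {Φ X : Finset M}

namespace SL

namespace Blk

variable {i x : M} {A : Finset M} (D : Blk B s Φ X i x A)
include D

/-- A root orthogonal to `i` comes from a non adjacent pair. -/
lemma orth_bad {j : M} (hj : j ∈ Φ) (sj : s j = 2) (hij : B i j = 0) :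
    ∃ g c, D.Bad g c ∧ j = g + c - i := by
  obtain ⟨g, hg, sg, gi, gj⟩ := D.common D.hi hj D.si sj hij
  obtain ⟨q1, q2, q3, q4, q5⟩ := D.square D.hi hj hg D.si sj sg hij gi gj
  rcases D.inR_or hg sg gi with h2 | h2
  · exact ⟨_, _, D.bad_of_j hj sj hij h2 gj, by abel⟩
  · have h3 : D.InR (i + j - g) := by
      refine ⟨q1, q2, q3, ?_⟩
      rw [map_sub, map_add, D.xi, D.x_orth D.hx D.hi hj D.si sj D.xi hij, h2.2.2.2]; ring
    exact ⟨_, _, D.bad_of_j hj sj hij h3 q4, by abel⟩

lemma P_of_noBad (hno : ∀ g c, ¬ D.Bad g c) : D.P.card + 1 = 2 * (D.R x).card := by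
  classical
  have h1 := D.card_P
  have h2 : Φ.filter (fun a => s a = 2 ∧ a ≠ i ∧ B a i = 0) = ∅ := by
    rw [Finset.filter_eq_empty_iff]
    rintro a ha ⟨h3, h4, h5⟩
    rw [D.caseA hno ha h3 h4] at h5
    exact one_ne_zero h5
  rw [h2, Finset.card_empty, add_zero] at h1
  rw [P]
  convert h1

lemma P_of_bad {g c : M} (hbad : D.Bad g c) : D.P.card = 2 * (D.R x).card := by
  classical
  have h1 := D.card_P
  have h2 : Φ.filter (fun a => s a = 2 ∧ a ≠ i ∧ B a i = 0) = {g + c - i} := by
    ext a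
    rw [Finset.mem_filter, Finset.mem_singleton]
    constructor
    · rintro ⟨ha, h3, h4, h5⟩
      obtain ⟨g', c', hb, rfl⟩ := D.orth_bad ha h3 (by rw [D.symm]; exact h5)
      exact D.caseB_unique hb hbad
    · rintro rfl
      obtain ⟨j1, j2, j3, j4, j5⟩ := D.bad_j hbad
      exact ⟨j1, j2, j4, j3⟩
  rw [h2, Finset.card_singleton] at h1
  rw [P]
  have h3 : (Finset.filter (fun a => s a = 2) Φ).card = 2 * (D.R x).card := by omega
  convert h3

end Blk

lemma exists_blk (h : SL B s Φ X) {a : M} (ha : a ∈ Φ) (sa : s a = 2) :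
    ∃ x A, Blk B s Φ X a x A := by
  obtain ⟨x, hx, xa⟩ := h.faith a ha
  obtain ⟨A, h1, h2, h3, h4, h5, h6⟩ := h.orth x hx a ha xa
  exact ⟨x, A, ⟨h, ha, sa, hx, xa, h1, h2, h3, h4, h5, h6⟩⟩

open Classical in
/-- The classification of simply laced systems. -/
theorem main (h : SL B s Φ X) {i : M} (hi : i ∈ Φ) (hs : s i = 2) :
    (∃ m, Odd m ∧ X.card = (2 * m).choose m ∧
      (X.filter (fun x => B x i = 1)).card = (2 * m - 2).choose (m - 1)) ∨
    (∃ n, n % 4 = 1 ∧ 5 ≤ n ∧ X.card = 2 ^ n ∧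
      (X.filter (fun x => B x i = 1)).card = 2 ^ (n - 2)) := by
  have hiP : i ∈ h.P := h.mem_P.mpr ⟨hi, hs⟩
  obtain ⟨x, A, D⟩ := h.exists_blk hi hs
  have hxp : x ∈ h.Xp := h.mem_Xp.mpr ⟨D.hx, D.sx1⟩
  have hRpos : 0 < (h.R x).card := Finset.card_pos.mpr ⟨i, D.i_mem_R⟩
  by_cases hno : ∀ g c, ¬ D.Bad g c
  · left
    have hP : h.P.card + 1 = 2 * (h.R x).card := D.P_of_noBad hno
    have hadj : ∀ a ∈ h.P, ∀ b ∈ h.P, a ≠ b → B a b = 1 := by
      intro a ha b hb hab
      rw [h.mem_P] at ha hb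
      obtain ⟨y, A', D'⟩ := h.exists_blk ha.1 ha.2
      by_cases hno' : ∀ g c, ¬ D'.Bad g c
      · rw [h.symm]
        exact D'.caseA hno' hb.1 hb.2 (Ne.symm hab)
      · exfalso
        push Not at hno'
        obtain ⟨g, c, hb'⟩ := hno'
        have h1 : h.P.card = 2 * (h.R y).card := D'.P_of_bad hb'
        have h2 := h.card_R D.hx D'.hx D.sx1 D'.sx1
        omega
    have hA := D.caseA_card hno
    have hodd := D.odd
    have c1 := h.cardA hadj hxp
    have c2 := h.cardA' hadj hxp hiP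
    set ρ := (h.R x).card with hρ
    obtain ⟨k, hk⟩ : ∃ k, ρ = k + 1 := ⟨ρ - 1, by omega⟩
    have hP2 : h.P.card = 2 * k + 1 := by omega
    refine ⟨ρ, by rw [show ρ = A.card from hA]; exact hodd, ?_, ?_⟩
    · rw [h.card_X, c1, hP2, hk]
      have e1 : 2 * (k + 1) = (2 * k + 1) + 1 := by ring
      have e3 : (2 * k + 1 + 1).choose (k + 1) = (2 * k + 1).choose k + (2 * k + 1).choose (k + 1) :=
        Nat.choose_succ_succ' _ _
      have e2 : (2 * k + 1).choose (k + 1) = (2 * k + 1).choose k := Nat.choose_symm_half k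
      rw [e1, e3, e2]
      ring
    · rw [h.filter_X hiP]
      rw [hP2, hk] at c2
      have e1 : 2 * k + 1 - 1 = 2 * k := by omega
      have e4 : (2 * k + 1).choose (k + 1) = (2 * k).choose k + (2 * k).choose (k + 1) :=
        Nat.choose_succ_succ' _ _
      rw [e1, e4] at c2
      rw [hk]
      have e2 : 2 * (k + 1) - 2 = 2 * k := by omega
      have e3 : k + 1 - 1 = k := by omega
      rw [e2, e3]
      omega
  · right
    push Not at hno
    obtain ⟨g, c, hbad⟩ := hno
    have hP : h.P.card = 2 * (h.R x).card := D.P_of_bad hbad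
    have hB : SLB B s Φ X :=
      { toSL := h
        ex := by
          intro a ha sa
          obtain ⟨y, A', D'⟩ := h.exists_blk ha sa
          by_cases hno' : ∀ g c, ¬ D'.Bad g c
          · exfalso
            have h1 : h.P.card + 1 = 2 * (h.R y).card := D'.P_of_noBad hno'
            have h2 := h.card_R D.hx D'.hx D.sx1 D'.sx1
            omega
          · push Not at hno'
            obtain ⟨g', c', hb'⟩ := hno'
            obtain ⟨j1, j2, j3, j4, j5⟩ := D'.bad_j hb'
            exact ⟨_, j1, j2, j4, by rw [h.symm]; exact j3⟩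
        un := by
          intro a ha sa b hb c hc sb sc _ _ hab hac
          obtain ⟨y, A', D'⟩ := h.exists_blk ha sa
          obtain ⟨g1, c1, hb1, e1⟩ := D'.orth_bad hb sb hab
          obtain ⟨g2, c2, hb2, e2⟩ := D'.orth_bad hc sc hac
          rw [e1, e2]
          exact D'.caseB_unique hb1 hb2
        ca := by
          intro y hy sy
          rw [hP, h.card_R D.hx hy D.sx1 sy] }
    have hcard := D.caseB_card hbad
    have hodd := D.odd
    have hg : g ∈ (h.R x).erase i := D.mem_Re.mpr hbad.1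
    have h2 : 2 ≤ (h.R x).card := by
      have h3 := Finset.card_pos.mpr ⟨g, hg⟩
      rw [Finset.card_erase_of_mem D.i_mem_R] at h3
      have : (h.R x).card = (D.R x).card := rfl
      omega
    have c1 := hB.cardB hxp ⟨i, D.i_mem_R⟩
    have c2 := hB.cardB' hxp D.i_mem_R h2
    have hcard' : (h.R x).card + 1 = 2 * A.card := hcard
    obtain ⟨k, hk⟩ := hodd
    refine ⟨(h.R x).card, by omega, by omega, ?_, ?_⟩
    · rw [h.card_X]
      have e : (h.R x).card = ((h.R x).card - 1) + 1 := by omega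
      have c1' : h.Xp.card = 2 ^ ((h.R x).card - 1) := c1
      rw [c1']
      conv_rhs => rw [e]
      rw [pow_succ]
      ring
    · rw [h.filter_X hiP]
      exact c2

end SL

end TR
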