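import Pool.Agent.Helper88.TR.RxOf
import Pool.Agent.Helper14.TR.TwoLengths
import Pool.Agent.Helper21.TR.SL6

/-!
The classification of the weight sets of sign type: the long roots and the number of weights.
-/

open Module

namespace TR

open Pool.Agent.Helper54.MT

variable {ι K M N : Type*} [Field K] [CharZero K] [AddCommGroup M] [Module K M]
  [AddCommGroup N] [Module K N] {P : RootPairing ι K M N} [Fintype ι] [P.IsCrystallographic]
  [P.IsReduced] [P.IsIrreducible] [DecidableEq M]

open Classical in
/-- A3: the classification for root pairings. -/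
theorem rx {X : Finset M} (hW : WeightSet P (X : Set M)) (hne : X.Nonempty)
    (s : Module.Dual K M) (hs : ∀ x ∈ X, s x = 1 ∨ s x = -1)
    (hspan : P.rootSpan K = ⊤) (hpar : Par P X) :
    ∃ θ, Long P θ ∧ ((X.filter (fun x => P.coroot' θ x = 1)).card = 1 ∨
    (∃ m, Odd m ∧ X.card = (2 * m).choose m ∧
      (X.filter (fun x => P.coroot' θ x = 1)).card = (2 * m - 2).choose (m - 1)) ∨
    (∃ n, (n % 4 = 1 ∨ n % 4 = 2) ∧ 5 ≤ n ∧ X.card = 2 ^ n ∧
      (X.filter (fun x => P.coroot' θ x = 1)).card = 2 ^ (n - 2))) :=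
  rx_of (fun h _ hi hs => SL.main h hi hs) (fun h => TL.main h) hW hne s hs hspan hpar

end TR
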