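import Pool.Agent.Helper88.MT.Simple
import Pool.Agent.Helper88.MT.Cases
import Pool.Agent.Helper16.TR.B1
import Pool.Agent.Helper95.TR.B23
import Pool.Agent.Helper40.TR.B45
import Pool.Agent.Helper34.TR.B67
import Pool.Agent.Helper38.TR.C
import Pool.Agent.Helper21.TR.Rx

/-!
The classification of the ranks of square zero elements in simple symplectic Lie algebras
generated by involutions.
-/

open Module LieModule LieAlgebra LieAlgebra.IsKilling
open MTP MTP.MF
open Pool.Agent.Helper54.MT (exists_cartan_end killing_of semisimple_of_sq)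

attribute [local instance 100] LieRing.ofAssociativeRing

namespace TR

variable {K : Type*} [Field K] [CharZero K] [IsAlgClosed K] {V : Type*} [AddCommGroup V]
  [Module K V] [FiniteDimensional K V] {ω : LinearMap.BilinForm K V}

/-- The rank of a long root vector. -/
theorem exists_long_rank [Nontrivial V] {L : LieSubalgebra K (Module.End K V)}
    {S : Set (Module.End K V)}
    (hC : Ctx ω L.toSubmodule S) (halt : ω.IsAlt) (hsimple : IsSimple K L) :
    ∃ e ∈ L, e ≠ 0 ∧ e * e = 0 ∧ (∀ y ∈ L, ∃ c : K, e * y * e = c • e) ∧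
      (rk e = 1 ∨
      (∃ m, Odd m ∧ finrank K V = (2 * m).choose m ∧ rk e = (2 * m - 2).choose (m - 1)) ∨
      (∃ n, (n % 4 = 1 ∨ n % 4 = 2) ∧ 5 ≤ n ∧ finrank K V = 2 ^ n ∧ rk e = 2 ^ (n - 2))) := by
  classical
  have hnd := hC.nd
  have hk : IsKilling K L := killing_of hnd hC.irr
  obtain ⟨s, hs⟩ := exists_inv hC halt
  obtain ⟨hsL, hss⟩ := hC.inv s hs
  obtain ⟨H, hH, hsH⟩ := exists_cartan_end (L := L) ⟨s, hsL⟩ (semisimple_of_sq hss)
  have hirrR : (rootSystem H).IsIrreducible := inferInstance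
  have hne : Nonempty H.root := by
    by_contra hcon
    rw [not_nonempty_iff] at hcon
    have hN : Nontrivial H := RootPairing.IsIrreducible.nontrivial' (rootSystem H)
    have h1 : (⊤ : Submodule K H) = ⊥ := by
      have h2 : (rootSystem H).corootSpan K = ⊤ := RootPairing.IsRootSystem.span_coroot_eq_top
      rw [← h2, RootPairing.corootSpan, Set.range_eq_empty, Submodule.span_empty]
    exact bot_ne_top h1.symm
  have hirr : ∀ W : Submodule K V, (∀ x : L, ∀ u ∈ W, ⁅x, u⁆ ∈ W) → W = ⊥ ∨ W = ⊤ :=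
    fun W hW => hC.irr.irr W fun z hz w hw => hW ⟨z, hz⟩ w hw
  have hsk : ∀ (x : L) (u v : V), ω ⁅x, u⁆ v = - ω u ⁅x, v⁆ := by
    intro x u v
    exact hC.irr.sk x x.2 u v
  have hfaith : ∀ x : L, (∀ u : V, ⁅x, u⁆ = 0) → x = 0 := by
    intro x hx
    apply Subtype.ext
    ext u
    exact hx u
  obtain ⟨n, ⟨B⟩⟩ := exists_WB (V := V) (H := H) hirr
  have hI : Nonempty (Fin n) := B.v.index_nonempty
  set s' : H := ⟨⟨s, hsL⟩, hsH⟩ with hs'
  have hsB : ∀ i, B.w i s' = 1 ∨ B.w i s' = -1 := by
    intro i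
    have h1 : s (B.v i) = B.w i s' • B.v i := B.lie_v i s'
    have h2 : s (s (B.v i)) = B.v i := LinearMap.congr_fun hss (B.v i)
    rw [h1, map_smul, h1, smul_smul] at h2
    have h3 : (B.w i s' * B.w i s' - 1) • B.v i = 0 := by rw [sub_smul, h2, one_smul, sub_self]
    have h4 := (smul_eq_zero.mp h3).resolve_right (B.v.ne_zero i)
    have h5 : (B.w i s' - 1) * (B.w i s' + 1) = 0 := by linear_combination h4
    rcases mul_eq_zero.mp h5 with h6 | h6
    · left; linear_combination h6
    · right; linear_combination h6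
  have hsq : ∀ (α : H.root) (x : L), x ∈ rootSpace H α.1 →
      toEnd K L V x * toEnd K L V x = 0 := fun α x hx => sq_zero B hfaith hsB hI α hx
  have hWS := weightSet B hirr hnd hsk hsq
  have hinj := mult_one B hirr hnd hsk hsq
  set X : Finset (Dual K H) := Finset.univ.image B.w with hX
  have hXr : (X : Set (Dual K H)) = Set.range B.w := by
    rw [hX, Finset.coe_image, Finset.coe_univ, Set.image_univ]
  have hpar : Par (rootSystem H) X := par B hirr hnd halt hsk (small B hsq) (by
    intro x hx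
    rw [hX, Finset.mem_image] at hx
    obtain ⟨i, -, hi⟩ := hx
    exact ⟨i, hi⟩)
  have hXc : X.card = finrank K V := by
    rw [hX, Finset.card_image_of_injective _ hinj, Finset.card_univ, Fintype.card_fin,
      finrank_eq_card_basis B.v, Fintype.card_fin]
  obtain ⟨θ, hθ, hcases⟩ := rx (P := rootSystem H) (X := X) (by rw [hXr]; exact hWS)
    ⟨B.w hI.some, Finset.mem_image_of_mem _ (Finset.mem_univ _)⟩ (Module.Dual.eval K H s') (by
      intro x hx
      rw [hX, Finset.mem_image] at hx
      obtain ⟨i, -, rfl⟩ := hx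
      exact hsB i) RootPairing.IsRootSystem.span_root_eq_top hpar
  obtain ⟨e, f, ht, he, hf⟩ := exists_triple θ
  have he0 : e ≠ 0 := ht.e_ne_zero
  have hrk : rk (toEnd K L V e) = (X.filter (fun x => (rootSystem H).coroot' θ x = 1)).card := by
    rw [rank_root B hsq θ he he0, hX, Finset.filter_image, Finset.card_image_of_injective _ hinj]
    rfl
  have hE : toEnd K L V e = (e : Module.End K V) := rfl
  refine ⟨(e : Module.End K V), e.2, fun h => he0 (Subtype.ext h), hsq θ e he, ?_, ?_⟩
  · intro y hy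
    exact extremal hθ he (hsq θ e he) ⟨y, hy⟩
  · rw [← hE, hrk, ← hXc]
    exact hcases

/-- The central binomial coefficients. -/
lemma choose_lt {m : ℕ} (hm : 1 ≤ m) :
    (2 * m).choose m < 4 * (2 * m - 2).choose (m - 1) := by
  obtain ⟨k, rfl⟩ : ∃ k, m = k + 1 := ⟨m - 1, by omega⟩
  have h1 := Nat.succ_mul_centralBinom_succ k
  rw [Nat.centralBinom, Nat.centralBinom] at h1
  have e1 : 2 * (k + 1) - 2 = 2 * k := by omega
  have e2 : k + 1 - 1 = k := by omega
  rw [e1, e2]
  have hpos : 0 < (2 * k).choose k := Nat.choose_pos (by omega)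
  by_contra hcon
  push Not at hcon
  have h2 : (k + 1) * (4 * (2 * k).choose k) ≤ (k + 1) * (2 * (k + 1)).choose (k + 1) :=
    Nat.mul_le_mul_left _ hcon
  rw [h1] at h2
  nlinarith

/-- **The simple case.** -/
theorem simple_class {L : LieSubalgebra K (Module.End K V)} {S : Set (Module.End K V)}
    (hC : Ctx ω L.toSubmodule S) (halt : ω.IsAlt) (hsimple : IsSimple K L)
    {N : Module.End K V} (hN : N ∈ L) (hNN : N * N = 0) (hN0 : N ≠ 0) :
    (∀ z, IsSk ω z → z ∈ L) ∨
    (∃ m, Odd m ∧ 3 ≤ m ∧ finrank K V = (2 * m).choose m ∧ rk N = (2 * m - 2).choose (m - 1)) ∨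
    (∃ n, (n % 4 = 1 ∨ n % 4 = 2) ∧ 5 ≤ n ∧ finrank K V = 2 ^ n ∧
      (rk N = 2 ^ (n - 2) ∨ rk N = 2 ^ (n - 1))) := by
  have hV : Nontrivial V := by
    by_contra hcon
    rw [not_nontrivial_iff_subsingleton] at hcon
    exact hN0 (Subsingleton.elim _ _)
  obtain ⟨e, he, he0, hee, hext, hcases⟩ := exists_long_rank hC halt hsimple
  obtain ⟨j, hj⟩ := rank_dvd hC hsimple he he0 hee hext hN hNN
  have hle := rk_le_half hNN
  have hNpos : 0 < rk N := rk_pos.mpr hN0
  have hone : rk e = 1 → (∀ z, IsSk ω z → z ∈ L) := by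
    intro h1 z hz
    exact hC.eq_sp_of_odd halt he hee (by rw [h1]; exact odd_one) hz
  rcases hcases with h1 | ⟨m, hm, hD, hr⟩ | ⟨n, hn, hn5, hD, hr⟩
  · exact Or.inl (hone h1)
  · by_cases hm3 : 3 ≤ m
    · right; left
      refine ⟨m, hm, hm3, hD, ?_⟩
      have h2 := choose_lt (m := m) (by omega)
      rw [← hD, ← hr] at h2
      have hj1 : j = 1 := by
        rcases Nat.lt_or_ge j 2 with h3 | h3
        · interval_cases j
          · rw [mul_zero] at hj; omega
          · rfl
        · exfalso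
          have h4 : rk e * 2 ≤ rk e * j := Nat.mul_le_mul_left _ h3
          omega
      rw [hj, hj1, mul_one, hr]
    · left
      apply hone
      have hm1 : m = 1 := by
        obtain ⟨k, hk⟩ := hm
        omega
      rw [hr, hm1]
      rfl
  · right; right
    refine ⟨n, hn, hn5, hD, ?_⟩
    obtain ⟨k, rfl⟩ : ∃ k, n = k + 2 := ⟨n - 2, by omega⟩
    have e1 : k + 2 - 2 = k := by omega
    have e2 : k + 2 - 1 = k + 1 := by omega
    rw [e1] at hr
    rw [e1, e2]
    have hpos : 0 < 2 ^ k := pow_pos (by norm_num) k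
    rw [hD, hj, hr, pow_add] at hle
    rw [hj, hr] at hNpos
    have hj2 : j ≤ 2 := by
      by_contra h3
      have h4 : 2 ^ k * 3 ≤ 2 ^ k * j := Nat.mul_le_mul_left _ (by omega)
      omega
    have hj0 : j ≠ 0 := by
      rintro rfl
      simp at hNpos
    have : j = 1 ∨ j = 2 := by omega
    rcases this with rfl | rfl
    · left; rw [hj, hr, mul_one]
    · right; rw [hj, hr, pow_succ]

end TR
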