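import Pool.Agent.Helper21.TR.Bad2
import Pool.Agent.Helper98.MT.Slope
import Pool.Agent.Helper77.MT.Frob

/-!
From an element of the group, no two different eigenvalues of which have a root of unity as
quotient, to a diagonalizable element of the Lie algebra with the same eigenspaces.
-/

open Module

namespace TR

open MTP MTP.MF Pool.Agent.Helper54.MT

/-- A character of the multiplicative group which separates the elements of a finite set. -/
lemma exists_sep {K : Type*} [Field K] (Λ : Finset K) (h0 : ∀ a ∈ Λ, a ≠ 0)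
    (h1 : ∀ a ∈ Λ, ∀ b ∈ Λ, ∀ n : ℕ, 0 < n → a ^ n = b ^ n → a = b) :
    ∃ v : K → ℚ, (∀ x y, x ≠ 0 → y ≠ 0 → v (x * y) = v x + v y) ∧
      ∀ a ∈ Λ, ∀ b ∈ Λ, v a = v b → a = b := by
  classical
  let R : Submodule ℚ (K → ℚ) :=
    { carrier := {χ | H77MT.IsChar χ}
      add_mem' := fun h h' => h.add h'
      zero_mem' := H77MT.IsChar.zero
      smul_mem' := fun c _ h => h.smul c }
  let Q : Type _ := {p : Λ × Λ // (p.1 : K) ≠ p.2}
  have hfin : Finite Q := inferInstance
  obtain ⟨w, hw, hw'⟩ := Module.Dual.exists_forall_mem_ne_zero_of_forall_exists R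
    (fun p : Q => ({ toFun := fun f => f (p.1.1 : K) - f (p.1.2 : K)
                     map_add' := by intro f g; simp only [Pi.add_apply]; ring
                     map_smul' := by
                      intro c f
                      simp only [Pi.smul_apply, smul_eq_mul, RingHom.id_apply]; ring } :
                     Module.Dual ℚ (K → ℚ))) (by
      rintro ⟨⟨⟨a, ha⟩, ⟨b, hb⟩⟩, hab⟩
      have ha0 := h0 a ha
      have hb0 := h0 b hb
      obtain ⟨χ, hχ, hne⟩ := H77MT.exists_isChar (x := a / b) (div_ne_zero ha0 hb0) (by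
        intro n hn h
        rw [div_pow, div_eq_one_iff_eq (pow_ne_zero n hb0)] at h
        exact hab (h1 a ha b hb n hn h))
      refine ⟨χ, hχ, ?_⟩
      change χ a - χ b ≠ 0
      rwa [hχ.div ha0 hb0] at hne)
  refine ⟨w, hw, fun a ha b hb hab => ?_⟩
  by_contra hne
  have h2 : w a - w b ≠ 0 := hw' ⟨(⟨a, ha⟩, ⟨b, hb⟩), hne⟩
  exact h2 (by rw [hab, sub_self])

section one
variable {K : Type*} [Field K] {V : Type*} [AddCommGroup V] [Module K V] [FiniteDimensional K V]

/-- The slope operator, with an eigenbasis consisting of generalized eigenvectors of `γ`. -/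
theorem exists_slope_gen [IsAlgClosed K] [CharZero K] {ω : LinearMap.BilinForm K V}
    {γ γ' : Module.End K V} (h' : γ' * γ = 1) {c : K}
    (hc : ∀ u w, ω (γ u) (γ w) = c * ω u w) {v : K → ℚ}
    (hv : ∀ x y, x ≠ 0 → y ≠ 0 → v (x * y) = v x + v y)
    {L : Submodule K (Module.End K V)} (hL : ∀ x ∈ L, γ * x * γ' ∈ L) :
    ∃ (h : Module.End K V) (b : Basis (Fin (finrank K V)) K V) (lam : Fin (finrank K V) → K),
      IsSk ω h ∧ (∀ x ∈ L, h * x - x * h ∈ L) ∧
      (∀ i, b i ∈ γ.maxGenEigenspace (lam i)) ∧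
      (∀ α, ∀ v ∈ γ.maxGenEigenspace α, ∀ i, b.repr v i ≠ 0 → lam i = α) ∧
      (∀ i, lam i ≠ 0) ∧
      ∀ i, h (b i) = ((v (lam i) - v c / 2 : ℚ) : K) • b i := by
  classical
  obtain ⟨b, lam, hb, hrep, hroots⟩ := exists_genbasis γ
  have hinj : Function.Injective γ := by
    intro x y hxy
    have h1 := congrArg γ' hxy
    have h2 : ∀ x, γ' (γ x) = x := fun x => LinearMap.congr_fun h' x
    rwa [h2, h2] at h1
  have hlam : ∀ i, lam i ≠ 0 := by
    intro i h0
    have h1 := hb i
    rw [h0, Module.End.mem_maxGenEigenspace] at h1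
    obtain ⟨k, hk⟩ := h1
    rw [zero_smul, sub_zero] at hk
    have h2 : Function.Injective (γ ^ k : Module.End K V) := by
      rw [Module.End.coe_pow]
      exact hinj.iterate k
    exact b.ne_zero i (h2 (by rw [hk, map_zero]))
  let χ : Fin (finrank K V) → ℚ := fun i => v (lam i) - v c / 2
  let h := dg b χ
  have hχ : ∀ i, h (b i) = (χ i : K) • b i := dg_apply b χ
  have hent : ∀ μ, ∀ x ∈ Module.End.maxGenEigenspace (R := K) (M := Module.End K V)
      (LinearMap.mulLeft K γ ∘ₗ LinearMap.mulRight K γ') μ, ∀ i j, en b x i j ≠ 0 →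
      lam i = μ * lam j := by
    intro μ x hx i j hij
    rw [Module.End.mem_maxGenEigenspace] at hx
    obtain ⟨a, ha⟩ := hx
    have h1 := hb j
    rw [Module.End.mem_maxGenEigenspace] at h1
    obtain ⟨k, hk⟩ := h1
    have h2 := shift_gen h' a k x (b j) ha hk
    apply hrep (μ * lam j) (x (b j))
    · rw [Module.End.mem_maxGenEigenspace]
      exact ⟨_, h2⟩
    · rw [← en_eq]; exact hij
  refine ⟨h, b, lam, ?_, ?_, hb, hrep, hlam, hχ⟩
  · have hB : ω.compLeft h = -(ω.compRight h) := by
      apply LinearMap.BilinForm.ext_basis b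
      intro i j
      rw [LinearMap.BilinForm.compLeft_apply, LinearMap.BilinForm.neg_apply,
        LinearMap.BilinForm.compRight_apply, hχ, hχ, map_smul, map_smul, LinearMap.smul_apply,
        smul_eq_mul, smul_eq_mul]
      by_cases h0 : ω (b i) (b j) = 0
      · rw [h0]; ring
      · have h1 : lam i * lam j = c := by
          by_contra hne
          exact h0 (orth_gen hc hne (hb i) (hb j))
        have h2 : v c = v (lam i) + v (lam j) := by rw [← h1]; exact hv _ _ (hlam i) (hlam j)
        have h3 : χ i = - χ j := by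
          simp only [χ]; rw [h2]; ring
        rw [h3]; push_cast; ring
    intro u w
    have := congrArg (fun B : LinearMap.BilinForm K V => B u w) hB
    simpa [LinearMap.BilinForm.compLeft_apply, LinearMap.BilinForm.compRight_apply] using this
  · intro x hx
    set Ad : Module.End K (Module.End K V) := LinearMap.mulLeft K γ ∘ₗ LinearMap.mulRight K γ'
      with hAd
    have hst : ∀ x ∈ L, Ad x ∈ L := by
      intro x hx
      have := hL x hx
      rwa [mul_assoc] at this
    have htop : ⨆ μ, Ad.genEigenspace μ ⊤ = ⊤ := Module.End.iSup_maxGenEigenspace_eq_top Ad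
    have hdec := Submodule.eq_iSup_inf_genEigenspace (p := L) (f := Ad) ⊤ hst htop
    rw [hdec] at hx
    induction hx using Submodule.iSup_induction' with
    | mem μ y hy =>
      obtain ⟨hyL, hyμ⟩ := hy
      have h1 : h * y - y * h = ((v μ : ℚ) : K) • y := by
        apply hom_comm b hχ
        intro i j hij
        have h2 := hent μ y hyμ i j hij
        have h3 : μ ≠ 0 := by
          rintro rfl
          rw [zero_mul] at h2
          exact hlam i h2
        simp only [χ]
        rw [h2, hv _ _ h3 (hlam j)]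
        ring
      rw [h1]
      exact L.smul_mem _ hyL
    | zero => simp
    | add y z _ _ hy hz =>
      have : h * (y + z) - (y + z) * h = (h * y - y * h) + (h * z - z * h) := by noncomm_ring
      rw [this]
      exact L.add_mem hy hz

/-- The multiplicity of `a` as a generalized eigenvalue. -/
noncomputable def mg (N γ : Module.End K V) (a : K) : ℕ :=
  finrank K ↥(LinearMap.ker N ⊓ γ.maxGenEigenspace a) -
  finrank K ↥(LinearMap.range N ⊓ γ.maxGenEigenspace a)

/-- The divisibility conditions, for an element of the group. -/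
def DivG (N γ : Module.End K V) (c : K) (e : ℕ) : Prop :=
  e ∣ rk N ∧ ∀ a : K, (a * a ≠ c → e ∣ mg N γ a) ∧ (a * a = c → 2 * e ∣ mg N γ a)

/-- **The logarithm of the semisimple part of `γ`.** -/
theorem exists_log_bij [IsAlgClosed K] [CharZero K] {ω : LinearMap.BilinForm K V}
    (hω : ω.Nondegenerate)
    {γ γ' : Module.End K V} (h' : γ' * γ = 1) {c : K}
    (hc : ∀ u w, ω (γ u) (γ w) = c * ω u w)
    (hroot : ∀ a b : K, γ.eigenspace a ≠ ⊥ → γ.eigenspace b ≠ ⊥ → ∀ n : ℕ, 0 < n →
      a ^ n = b ^ n → a = b)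
    {L : Submodule K (Module.End K V)} (hL : ∀ x ∈ L, γ * x * γ' ∈ L)
    {N : Module.End K V} (hN0 : N ≠ 0) {a0 : K}
    (hN : LinearMap.range N ≤ γ.maxGenEigenspace a0) :
    ∃ h : Module.End K V, IsSk ω h ∧ (∀ x ∈ L, h * x - x * h ∈ L) ∧
      ⨆ q : ℚ, h.eigenspace (q : K) = ⊤ ∧ (∃ σ : K, h * N = σ • N) ∧
      (∀ e, DivG N γ c e ↔ DivL N h e) ∧
      ∃ f : K → K, Set.BijOn f {a | mg N γ a ≠ 0} {q | ml N h q ≠ 0} := by
  classical
  obtain ⟨Λ, hΛ⟩ := exists_finset γ
  have hinj : Function.Injective γ := by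
    intro x y hxy
    have h1 := congrArg γ' hxy
    have h2 : ∀ x, γ' (γ x) = x := fun x => LinearMap.congr_fun h' x
    rwa [h2, h2] at h1
  have hne0 : ∀ a, γ.eigenspace a ≠ ⊥ → a ≠ 0 := by
    rintro _ ha rfl
    apply ha
    rw [eq_bot_iff]
    intro w hw
    rw [Module.End.mem_eigenspace_iff, zero_smul] at hw
    exact (Submodule.mem_bot K).mpr (hinj (by rw [hw, map_zero]))
  obtain ⟨v, hv, hsep⟩ := exists_sep Λ (fun a ha => hne0 a ((hΛ a).mpr ha))
    (fun a ha b hb => hroot a b ((hΛ a).mpr ha) ((hΛ b).mpr hb))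
  obtain ⟨h, b, lam, hsk, hnorm, hb, hrep, hlam, hh⟩ := exists_slope_gen h' hc hv hL
  have hgen : ∀ a, γ.maxGenEigenspace a ≠ ⊥ → a ∈ Λ := by
    intro a ha
    rw [← hΛ]
    have h1 : γ.HasUnifEigenvalue a ⊤ := ha
    have h2 : γ.HasUnifEigenvalue a 1 := h1.lt zero_lt_one
    exact h2
  have hlamΛ : ∀ i, lam i ∈ Λ := by
    intro i
    apply hgen
    intro h0
    have := hb i
    rw [h0, Submodule.mem_bot] at this
    exact b.ne_zero i this
  have hexp : ∀ w : V, w = ∑ i, b.repr w i • b i := fun w => (b.sum_repr w).symm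
  -- the eigenspaces agree
  have heig : ∀ a ∈ Λ, h.eigenspace ((v a - v c / 2 : ℚ) : K) = γ.maxGenEigenspace a := by
    intro a ha
    apply le_antisymm
    · intro w hw
      rw [Module.End.mem_eigenspace_iff] at hw
      rw [hexp w]
      apply Submodule.sum_mem
      intro i _
      by_cases hi : b.repr w i = 0
      · rw [hi, zero_smul]; exact Submodule.zero_mem _
      · apply Submodule.smul_mem
        have h1 : b.repr (h w) i = ((v (lam i) - v c / 2 : ℚ) : K) * b.repr w i := by
          conv_lhs => rw [hexp w]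
          rw [map_sum, map_sum, Finsupp.finsetSum_apply, Finset.sum_eq_single i]
          · rw [map_smul, hh, map_smul, map_smul, Finsupp.smul_apply, Finsupp.smul_apply,
              b.repr_self, Finsupp.single_eq_same, smul_eq_mul, smul_eq_mul, mul_one, mul_comm]
          · intro j _ hj
            rw [map_smul, hh, map_smul, map_smul, Finsupp.smul_apply, Finsupp.smul_apply,
              b.repr_self, Finsupp.single_eq_of_ne (Ne.symm hj), smul_zero, smul_zero]
          · intro hcon; exact absurd (Finset.mem_univ i) hcon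
        rw [hw, map_smul, Finsupp.smul_apply, smul_eq_mul] at h1
        have h2 := mul_right_cancel₀ hi h1
        have h3 : v a = v (lam i) := by
          have h4 : (v a - v c / 2 : ℚ) = v (lam i) - v c / 2 := by exact_mod_cast h2
          linarith
        rw [hsep a ha (lam i) (hlamΛ i) h3]
        exact hb i
    · intro w hw
      rw [Module.End.mem_eigenspace_iff]
      conv_lhs => rw [hexp w]
      conv_rhs => rw [hexp w]
      rw [map_sum, Finset.smul_sum]
      apply Finset.sum_congr rfl
      intro i _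
      by_cases hi : b.repr w i = 0
      · rw [hi]; simp
      · rw [map_smul, hh, hrep a w hw i hi, smul_comm]
  have hall : ∀ q : K, h.eigenspace q ≠ ⊥ → ∃ a ∈ Λ, ((v a - v c / 2 : ℚ) : K) = q := by
    intro q hq
    obtain ⟨w, hw, hw0⟩ := Submodule.exists_mem_ne_zero_of_ne_bot hq
    rw [Module.End.mem_eigenspace_iff] at hw
    obtain ⟨i, hi⟩ : ∃ i, b.repr w i ≠ 0 := by
      by_contra hcon
      push Not at hcon
      apply hw0
      rw [hexp w]
      apply Finset.sum_eq_zero
      intro i _
      rw [hcon i, zero_smul]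
    have h1 : b.repr (h w) i = ((v (lam i) - v c / 2 : ℚ) : K) * b.repr w i := by
      conv_lhs => rw [hexp w]
      rw [map_sum, map_sum, Finsupp.finsetSum_apply, Finset.sum_eq_single i]
      · rw [map_smul, hh, map_smul, map_smul, Finsupp.smul_apply, Finsupp.smul_apply,
          b.repr_self, Finsupp.single_eq_same, smul_eq_mul, smul_eq_mul, mul_one, mul_comm]
      · intro j _ hj
        rw [map_smul, hh, map_smul, map_smul, Finsupp.smul_apply, Finsupp.smul_apply,
          b.repr_self, Finsupp.single_eq_of_ne (Ne.symm hj), smul_zero, smul_zero]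
      · intro hcon; exact absurd (Finset.mem_univ i) hcon
    rw [hw, map_smul, Finsupp.smul_apply, smul_eq_mul] at h1
    exact ⟨lam i, hlamΛ i, (mul_right_cancel₀ hi h1).symm⟩
  have hdual : ∀ a ∈ Λ, ∃ a' ∈ Λ, a * a' = c := by
    intro a ha
    obtain ⟨w, hw, hw0⟩ := Submodule.exists_mem_ne_zero_of_ne_bot ((hΛ a).mpr ha)
    have hwg : w ∈ γ.maxGenEigenspace a := Module.End.eigenspace_le_maxGenEigenspace hw
    obtain ⟨i, hi⟩ : ∃ i, ω w (b i) ≠ 0 := by
      by_contra hcon
      push Not at hcon
      apply hw0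
      apply hω.1
      intro y
      rw [hexp y, map_sum]
      apply Finset.sum_eq_zero
      intro i _
      rw [map_smul, hcon i, smul_zero]
    refine ⟨lam i, hlamΛ i, ?_⟩
    by_contra hne
    exact hi (orth_gen hc hne hwg (hb i))
  have hzero : ∀ a ∈ Λ, ((v a - v c / 2 : ℚ) : K) = 0 ↔ a * a = c := by
    intro a ha
    obtain ⟨a', ha', haa⟩ := hdual a ha
    have h1 : v c = v a + v a' := by
      rw [← haa]
      exact hv _ _ (hne0 a ((hΛ a).mpr ha)) (hne0 a' ((hΛ a').mpr ha'))
    have h2 : ((v a - v c / 2 : ℚ) : K) = 0 ↔ v a = v a' := by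
      rw [Rat.cast_eq_zero, h1]
      constructor
      · intro h; linarith
      · intro h; rw [h]; ring
    rw [h2]
    constructor
    · intro h
      have h3 := hsep a ha a' ha' h
      rw [← haa, ← h3]
    · intro h
      have h3 : a * a = a * a' := by rw [h, haa]
      rw [mul_left_cancel₀ (hne0 a ((hΛ a).mpr ha)) h3]
  have hml : ∀ a ∈ Λ, ml N h ((v a - v c / 2 : ℚ) : K) = mg N γ a := by
    intro a ha
    unfold ml mg
    rw [heig a ha]
  refine ⟨h, hsk, hnorm, ?_, ?_, ?_, ?_⟩
  · rw [eq_top_iff, ← b.span_eq, Submodule.span_le]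
    rintro _ ⟨i, rfl⟩
    apply Submodule.mem_iSup_of_mem (v (lam i) - v c / 2)
    rw [Module.End.mem_eigenspace_iff, hh]
  · have ha0 : a0 ∈ Λ := by
      apply hgen
      intro h0
      rw [h0, le_bot_iff, LinearMap.range_eq_bot] at hN
      exact hN0 hN
    refine ⟨((v a0 - v c / 2 : ℚ) : K), ?_⟩
    ext w
    have h1 : N w ∈ h.eigenspace ((v a0 - v c / 2 : ℚ) : K) := by
      rw [heig a0 ha0]
      exact hN ⟨w, rfl⟩
    exact Module.End.mem_eigenspace_iff.mp h1
  · intro e
    constructor
    · rintro ⟨h1, h2⟩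
      refine ⟨h1, fun q => ?_⟩
      by_cases hq : h.eigenspace q = ⊥
      · have : ml N h q = 0 := by
          unfold ml
          rw [hq, inf_bot_eq, finrank_bot]
          simp
        rw [this]
        exact ⟨fun _ => dvd_zero _, fun _ => dvd_zero _⟩
      · obtain ⟨a, ha, rfl⟩ := hall q hq
        rw [hml a ha, ne_eq, hzero a ha]
        exact h2 a
    · rintro ⟨h1, h2⟩
      refine ⟨h1, fun a => ?_⟩
      by_cases ha : γ.maxGenEigenspace a = ⊥
      · have : mg N γ a = 0 := by
          unfold mg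
          rw [ha, inf_bot_eq, finrank_bot]
          simp
        rw [this]
        exact ⟨fun _ => dvd_zero _, fun _ => dvd_zero _⟩
      · have haΛ := hgen a ha
        have := h2 ((v a - v c / 2 : ℚ) : K)
        rw [hml a haΛ, ne_eq, hzero a haΛ] at this
        exact this
  · have hmg : ∀ a, mg N γ a ≠ 0 → a ∈ Λ := by
      intro a ha
      apply hgen
      intro h0
      apply ha
      unfold mg
      rw [h0, inf_bot_eq, finrank_bot]
      simp
    refine ⟨fun a => ((v a - v c / 2 : ℚ) : K), ?_, ?_, ?_⟩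
    · intro a ha
      change ml N h ((v a - v c / 2 : ℚ) : K) ≠ 0
      rw [hml a (hmg a ha)]
      exact ha
    · intro a ha b' hb' hab
      apply hsep a (hmg a ha) b' (hmg b' hb')
      have hab' : ((v a - v c / 2 : ℚ) : K) = ((v b' - v c / 2 : ℚ) : K) := hab
      have h4 : (v a - v c / 2 : ℚ) = v b' - v c / 2 := Rat.cast_injective hab'
      linarith
    · intro q hq
      obtain ⟨a, ha, rfl⟩ := hall q (by
        intro h0
        apply hq
        unfold ml
        rw [h0, inf_bot_eq, finrank_bot]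
        simp)
      refine ⟨a, ?_, rfl⟩
      change mg N γ a ≠ 0
      rw [← hml a ha]
      exact hq

/-- The logarithm of the semisimple part of `γ`, and the divisibility conditions. -/
theorem exists_log [IsAlgClosed K] [CharZero K] {ω : LinearMap.BilinForm K V}
    (hω : ω.Nondegenerate)
    {γ γ' : Module.End K V} (h' : γ' * γ = 1) {c : K}
    (hc : ∀ u w, ω (γ u) (γ w) = c * ω u w)
    (hroot : ∀ a b : K, γ.eigenspace a ≠ ⊥ → γ.eigenspace b ≠ ⊥ → ∀ n : ℕ, 0 < n →
      a ^ n = b ^ n → a = b)
    {L : Submodule K (Module.End K V)} (hL : ∀ x ∈ L, γ * x * γ' ∈ L)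
    {N : Module.End K V} (hN0 : N ≠ 0) {a0 : K}
    (hN : LinearMap.range N ≤ γ.maxGenEigenspace a0) :
    ∃ h : Module.End K V, IsSk ω h ∧ (∀ x ∈ L, h * x - x * h ∈ L) ∧
      ⨆ q : ℚ, h.eigenspace (q : K) = ⊤ ∧ (∃ σ : K, h * N = σ • N) ∧
      ∀ e, DivG N γ c e ↔ DivL N h e := by
  obtain ⟨h, h1, h2, h3, h4, h5, -⟩ := exists_log_bij hω h' hc hroot hL hN0 hN
  exact ⟨h, h1, h2, h3, h4, h5⟩

end one

end TR
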