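import Pool.Agent.Helper21.TR.BadDefs

/-!
The data of a place of bad reduction, in matrix form: a quadratic unipotent element together with
an element of the group (a Frobenius) which has one eigenvalue on its image, and the number of
the eigenvalues on the kernel modulo the image.
-/

open Module

namespace MTPairs

variable {K : Type*} [Field K] {m : Type*} [Fintype m] [DecidableEq m]

/-- `u` is `1 + N` on `W`, `N² = 0`, of rank `r > 0`; no quotient of two different eigenvalues of
`g` on `W` is a root of unity; `g` has only one eigenvalue on the image of `N`, and exactly `k`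
different eigenvalues on the kernel of `N` modulo the image of `N`. -/
def IsBadEig (u g : Matrix.GeneralLinearGroup m K) (W : Submodule K (m → K)) (r k : ℕ) : Prop :=
  0 < r ∧ IsQuadraticOn u W r ∧
  (∀ a b : K, ∀ v ∈ W, ∀ w ∈ W, v ≠ 0 → w ≠ 0 → (g : Matrix m m K).mulVec v = a • v →
    (g : Matrix m m K).mulVec w = b • w → ∀ n : ℕ, 0 < n → a ^ n = b ^ n → a = b) ∧
  (∃ a : K, ∀ v ∈ W, ((u : Matrix m m K) - 1).mulVec v ∈
    Module.End.maxGenEigenspace (g : Matrix m m K).mulVecLin a) ∧
  {a : K | mlt (u : Matrix m m K) g W a ≠ 0}.ncard = k

end MTPairs
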