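import Pool.Agent.Helper82.TR.Q9b
import Pool.Agent.Helper80.TR.SharpSpPlus
import Pool.Agent.Helper16.TR.Q9c

/-!
Every exceptional triple (rank, greatest common divisor of the multiplicities, dimension) is
realised by a pair which is not full.
-/

open Module MTPairs

namespace TR

/-- **The classification of the degeneration types, only if part.** -/
theorem exists_counter_bad (K : Type*) [Field K] [CharZero K] [IsAlgClosed K] {r d D : ℕ}
    (hr : 0 < r) (h2 : 2 * r ≤ D) (hd2 : 2 ∣ d) (hdr : d ∣ r) (hdD : 2 * d ∣ D)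
    (heq : 2 * r = D → d = r) (hex : 4 ≤ d ∨ 4 ∣ r ∨ (r = 6 ∧ D = 20)) :
    ∃ (m : Type) (_ : Fintype m) (_ : DecidableEq m) (J : Matrix m m K)
      (G : Subgroup (Matrix.GeneralLinearGroup m K)), Fintype.card m = D ∧
      IsMTPair J G ∧ IsSplit J G (fun _ : Unit => (⊤ : Submodule K (m → K))) ∧
      (∃ u ∈ G, ∃ g ∈ G, IsBad J u g ⊤ r d) ∧
      ¬ IsFull J G (fun _ : Unit => (⊤ : Submodule K (m → K))) := by
  have hd0 : 0 < d := Nat.pos_of_dvd_of_pos hdr hr
  by_cases h4 : 4 ≤ d
  · obtain ⟨c, rfl⟩ := hd2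
    obtain ⟨s, rfl⟩ := hdr
    obtain ⟨a, rfl⟩ := hdD
    have hs0 : 0 < s := Nat.pos_of_mul_pos_left hr
    have hc2 : 2 ≤ c := by omega
    have hsa : s ≤ a := by
      have h5 : (2 * (2 * c)) * s ≤ (2 * (2 * c)) * a := by
        calc (2 * (2 * c)) * s = 2 * (2 * c * s) := by ring
          _ ≤ _ := h2
      exact Nat.le_of_mul_le_mul_left h5 (by omega)
    obtain ⟨m, i1, i2, J, G, hm, h10, h11, ⟨u, hu, g, hg, h12⟩, h13⟩ :=
      sharp_plus_sp K (a := a) (c := c) (s := s) hc2 hs0 hsa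
    refine ⟨m, i1, i2, J, G, ?_, h10, h11, ⟨u, hu, g, hg, ?_⟩, h13⟩
    · rw [hm]; ring
    · split_ifs at h12 with hsa'
      · have h6 : 2 * c = 2 * c * s := heq (by rw [hsa']; ring)
        rw [← h6] at h12 ⊢
        exact h12
      · exact h12
  · have hd : d = 2 := by
      obtain ⟨c, rfl⟩ := hd2
      omega
    subst hd
    rcases hex with h | h | ⟨h5, h6⟩
    · exact absurd h h4
    · obtain ⟨s, rfl⟩ := h
      obtain ⟨b, rfl⟩ := hdD
      have hsb : 2 * s < b := by
        rcases Nat.lt_or_ge (2 * s) b with h | h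
        · exact h
        · exfalso
          have h7 := heq (by omega)
          omega
      obtain ⟨m, i1, i2, J, G, hm, h10, h11, h12, h13⟩ :=
        sharp_plus_so K (b := b) (s := s) (by omega) (by omega) hsb
      exact ⟨m, i1, i2, J, G, by rw [hm], h10, h11, h12, h13⟩
    · subst h5 h6
      exact sharp_plus_wedge K

end TR
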