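import Pool.Agent.Helper4.TR.We

/-!
Unipotent elements and the final example (the part of helper4's file `Wf.lean` which is
independent of strong pairs).
-/

open Module MTPairs

namespace TR.Wdg

open TR.W3

section unip
variable {K : Type*} [Field K] {ι : Type*} [LinearOrder ι] [Fintype ι] {k : ℕ}

/-- The root unipotents. -/
noncomputable def un (K : Type*) [Field K] {ι : Type*} [LinearOrder ι] [Fintype ι] (k : ℕ)
    {i j : ι} (h : i ≠ j) : Matrix.GeneralLinearGroup (Ix ι k) K where
  val := 1 + M K k i j
  inv := 1 - M K k i j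
  val_inv := by
    have : (1 + M K k i j) * (1 - M K k i j) = 1 - M K k i j * M K k i j := by noncomm_ring
    rw [this, M_sq h, sub_zero]
  inv_val := by
    have : (1 - M K k i j) * (1 + M K k i j) = 1 - M K k i j * M K k i j := by noncomm_ring
    rw [this, M_sq h, sub_zero]

lemma un_mem [CharZero K] {i j : ι} (h : i ≠ j) : un K k h ∈ GenG (Lam K ι k) := by
  have hP1 : M K k i i ∈ Lam K ι k := Or.inl ⟨i, rfl⟩
  have hP2 : M K k i i + M K k i j ∈ Lam K ι k := Or.inr ⟨i, j, h, rfl⟩
  obtain ⟨g1, hg1, hg1'⟩ := (GenG_cochar (Lam_idem _ hP2) hP2).2 2 two_ne_zero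
  obtain ⟨g2, hg2, hg2'⟩ := (GenG_cochar (Lam_idem _ hP1) hP1).2 2⁻¹ (inv_ne_zero two_ne_zero)
  have e : un K k h = g1 * g2 := by
    apply Units.ext
    rw [Units.val_mul, hg1', hg2']
    change 1 + M K k i j = _
    have h1 := M_diag_mul (K := K) (k := k) i i
    have h2 := M_mul_diag (K := K) (k := k) h
    generalize M K k i i = p at *
    generalize M K k i j = x at *
    simp only [add_mul, mul_add, sub_mul, mul_sub, smul_mul_assoc, mul_smul_comm, one_mul,
      mul_one, h1, h2, smul_add, smul_zero]
    match_scalars <;> norm_num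
  rw [e]
  exact Subgroup.mul_mem _ hg1 hg2

lemma M_mul_same {i j : ι} : M K k i j * M K k j j = M K k i j := by
  unfold M
  rw [toM_mul _ (E_deg _ _), E_E, if_pos rfl, An_sq, mul_zero, sub_zero]

lemma M_same_mul {i j : ι} (h : i ≠ j) : M K k j j * M K k i j = 0 := by
  unfold M
  rw [toM_mul _ (E_deg _ _), E_E, if_neg (Ne.symm h), An_sq, mul_zero, sub_zero, rho_zero, map_zero]

lemma M_cross {i j : ι} : M K k i j * M K k j i - M K k j i * M K k i j =
    M K k i i - M K k j j := by
  rw [M_comm, if_pos rfl, if_pos rfl]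

/-- The Weyl element. -/
noncomputable def we (K : Type*) [Field K] {ι : Type*} [LinearOrder ι] [Fintype ι] (k : ℕ)
    {i j : ι} (h : i ≠ j) : Matrix.GeneralLinearGroup (Ix ι k) K :=
  un K k h * (un K k h.symm)⁻¹ * un K k h

lemma we_conj {i j : ι} (h : i ≠ j) : (we K k h : Matrix (Ix ι k) (Ix ι k) K) * M K k j j =
    M K k i i * (we K k h : Matrix (Ix ι k) (Ix ι k) K) := by
  change (1 + M K k i j) * (1 - M K k j i) * (1 + M K k i j) * M K k j j =
    M K k i i * ((1 + M K k i j) * (1 - M K k j i) * (1 + M K k i j))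
  have h1 : M K k i j * M K k j j = M K k i j := M_mul_same
  have h2 : M K k j i * M K k j j = 0 := M_mul_diag h.symm
  have h3 : M K k i i * M K k i j = M K k i j := M_diag_mul i j
  have h4 : M K k i i * M K k j i = 0 := M_same_mul h.symm
  have h5 := M_cross (K := K) (k := k) (i := i) (j := j)
  have h6 : M K k i j * M K k i j = 0 := M_sq h
  have h7 : M K k j j * M K k i j = 0 := M_same_mul h
  have h8 : M K k i j * M K k i i = 0 := M_mul_diag h
  have h9 : M K k i j * M K k j i * M K k i j = M K k i j := by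
    have : M K k i j * M K k j i * M K k i j - M K k j i * (M K k i j * M K k i j) =
        (M K k i i - M K k j j) * M K k i j := by
      rw [← h5]; noncomm_ring
    rw [h6, mul_zero, sub_zero, sub_mul, h3, h7, sub_zero] at this
    exact this
  generalize M K k i j = x at *
  generalize M K k j i = y at *
  generalize M K k i i = p at *
  generalize M K k j j = q at *
  have e1 : (1 + x) * (1 - y) * (1 + x) * q = q + x - y * x := by
    calc (1 + x) * (1 - y) * (1 + x) * q = q + x * q - y * q - y * (x * q) + x * q +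
          x * (x * q) - x * (y * q) - x * y * (x * q) := by noncomm_ring
      _ = q + x - y * x := by
        rw [h1, h2, h6, mul_zero, h9]; abel
  have e2 : p * ((1 + x) * (1 - y) * (1 + x)) = p + x - x * y := by
    calc p * ((1 + x) * (1 - y) * (1 + x)) = p + p * x - p * y - p * y * x + p * x +
          p * x * x - p * x * y - p * x * y * x := by noncomm_ring
      _ = p + x - x * y := by
        rw [h3, h4, h6, zero_mul, h9]; abel
  rw [e1, e2]
  have : q + x - y * x = (x * y - y * x) + q + x - x * y := by abel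
  rw [this, h5]; abel

lemma we_mem [CharZero K] {i j : ι} (h : i ≠ j) : we K k h ∈ GenG (Lam K ι k) :=
  Subgroup.mul_mem _ (Subgroup.mul_mem _ (un_mem h) (Subgroup.inv_mem _ (un_mem h.symm)))
    (un_mem h)

/-- All the idempotents are conjugate. -/
lemma conj_all [CharZero K] (i0 : ι) {P : Matrix (Ix ι k) (Ix ι k) K} (hP : P ∈ Lam K ι k) :
    ∃ g ∈ GenG (Lam K ι k), P = (g : Matrix (Ix ι k) (Ix ι k) K) * M K k i0 i0 *
      ((g⁻¹ : Matrix.GeneralLinearGroup (Ix ι k) K) : Matrix (Ix ι k) (Ix ι k) K) := by
  have key : ∀ i, ∃ g ∈ GenG (Lam K ι k), M K k i i =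
      (g : Matrix (Ix ι k) (Ix ι k) K) * M K k i0 i0 *
      ((g⁻¹ : Matrix.GeneralLinearGroup (Ix ι k) K) : Matrix (Ix ι k) (Ix ι k) K) := by
    intro i
    by_cases h : i = i0
    · subst h
      exact ⟨1, Subgroup.one_mem _, by simp⟩
    · refine ⟨we K k h, we_mem h, ?_⟩
      rw [we_conj, mul_assoc, Units.mul_inv, mul_one]
  rcases hP with ⟨i, rfl⟩ | ⟨i, j, hij, rfl⟩
  · exact key i
  · obtain ⟨g, hg, hgi⟩ := key i
    refine ⟨(un K k hij)⁻¹ * g, Subgroup.mul_mem _ (Subgroup.inv_mem _ (un_mem hij)) hg, ?_⟩
    have e : M K k i i + M K k i j = (1 - M K k i j) * M K k i i * (1 + M K k i j) := by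
      have h1 := M_diag_mul (K := K) (k := k) i j
      have h2 := M_mul_diag (K := K) (k := k) hij
      calc M K k i i + M K k i j = M K k i i + M K k i i * M K k i j -
            M K k i j * M K k i i - M K k i j * M K k i i * M K k i j := by
            rw [h1, h2]; simp
        _ = _ := by noncomm_ring
    rw [e, mul_inv_rev, inv_inv, Units.val_mul, Units.val_mul]
    change (1 - M K k i j) * M K k i i * (1 + M K k i j) = (1 - M K k i j) * (g : Matrix _ _ K) *
      M K k i0 i0 * (((g⁻¹ : Matrix.GeneralLinearGroup (Ix ι k) K) : Matrix _ _ K) *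
      (1 + M K k i j))
    nth_rewrite 1 [hgi]
    simp only [mul_assoc]

/-- The subsets which contain `i` and not `j`. -/
abbrev Pij (k : ℕ) (i j : ι) : Type _ := {S : Ix ι k // i ∈ S.1 ∧ j ∉ S.1}

lemma card_Pij {i j : ι} (h : i ≠ j) (hk : 1 ≤ k) :
    Fintype.card (Pij k i j) = (Fintype.card ι - 2).choose (k - 1) := by
  have e : Pij k i j ≃ ↥(Finset.powersetCard (k - 1) (((Finset.univ : Finset ι).erase i).erase j)) :=
    { toFun := fun S => ⟨S.1.1.erase i, by
        rw [Finset.mem_powersetCard]
        refine ⟨?_, ?_⟩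
        · intro x hx
          have hx2 := Finset.mem_erase.mp hx
          rw [Finset.mem_erase, Finset.mem_erase]
          exact ⟨fun h => S.2.2 (h ▸ hx2.2), hx2.1, Finset.mem_univ _⟩
        · rw [Finset.card_erase_of_mem S.2.1, S.1.2]⟩
      invFun := fun R => ⟨⟨insert i R.1, by
          have h1 := (Finset.mem_powersetCard.mp R.2)
          rw [Finset.card_insert_of_notMem, h1.2]
          · omega
          · intro hi
            have := h1.1 hi
            simp at this⟩, by
          have h1 := (Finset.mem_powersetCard.mp R.2)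
          refine ⟨Finset.mem_insert_self _ _, ?_⟩
          intro hj
          rcases Finset.mem_insert.mp hj with hj | hj
          · exact h hj.symm
          · have := h1.1 hj
            simp at this⟩
      left_inv := by
        intro S
        apply Subtype.ext; apply Subtype.ext
        exact Finset.insert_erase S.2.1
      right_inv := by
        intro R
        apply Subtype.ext
        apply Finset.erase_insert
        intro hi
        have := (Finset.mem_powersetCard.mp R.2).1 hi
        simp at this }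
  rw [Fintype.card_congr e, Fintype.card_coe, Finset.card_powersetCard,
    Finset.card_erase_of_mem, Finset.card_erase_of_mem (Finset.mem_univ _), Finset.card_univ]
  · rfl
  · rw [Finset.mem_erase]; exact ⟨h.symm, Finset.mem_univ _⟩

lemma rank_M {i j : ι} (h : i ≠ j) (hk : 1 ≤ k) :
    finrank K ((⊤ : Submodule K (Ix ι k → K)).map (M K k i j).mulVecLin) =
      (Fintype.card ι - 2).choose (k - 1) := by
  let f : (Pij k i j → K) →ₗ[K] (Ix ι k → K) :=
    { toFun := fun w S => if hS : i ∈ S.1 ∧ j ∉ S.1 then w ⟨S, hS⟩ else 0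
      map_add' := by
        intro w w'; ext S; simp only [Pi.add_apply]; split_ifs <;> simp
      map_smul' := by
        intro c w; ext S; simp only [Pi.smul_apply, smul_eq_mul, RingHom.id_apply]
        split_ifs <;> simp }
  have hf : Function.Injective f := by
    intro w w' hw
    ext S
    have := congrFun hw S.1
    change (if hS : i ∈ S.1.1 ∧ j ∉ S.1.1 then w ⟨S.1, hS⟩ else 0) =
      (if hS : i ∈ S.1.1 ∧ j ∉ S.1.1 then w' ⟨S.1, hS⟩ else 0) at this
    rwa [dif_pos S.2, dif_pos S.2] at this
  have hdiag : ∀ (a : ι) (v : Ix ι k → K) (S : Ix ι k),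
      (M K k a a).mulVec v S = if a ∈ S.1 then v S else 0 := by
    intro a v S
    rw [M_same, Matrix.mulVec_diagonal]
    split_ifs <;> simp
  have he : (⊤ : Submodule K (Ix ι k → K)).map (M K k i j).mulVecLin = LinearMap.range f := by
    apply le_antisymm
    · rintro _ ⟨v, -, rfl⟩
      refine ⟨fun S => (M K k i j).mulVec v S.1, ?_⟩
      ext S
      change (if hS : i ∈ S.1 ∧ j ∉ S.1 then (M K k i j).mulVec v S else 0) =
        (M K k i j).mulVec v S
      split_ifs with hS
      · rfl
      · by_cases hi : i ∈ S.1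
        · have hj : j ∈ S.1 := by
            by_contra hj; exact hS ⟨hi, hj⟩
          have h1 : (M K k j j).mulVec ((M K k i j).mulVec v) S = (M K k i j).mulVec v S := by
            rw [hdiag, if_pos hj]
          rw [← h1, Matrix.mulVec_mulVec, M_same_mul h, Matrix.zero_mulVec]
          rfl
        · have h1 : (M K k i i).mulVec ((M K k i j).mulVec v) S = 0 := by
            rw [hdiag, if_neg hi]
          rw [Matrix.mulVec_mulVec, M_diag_mul] at h1
          exact h1.symm
    · rintro _ ⟨w, rfl⟩
      have h1 : (M K k i i).mulVec (f w) = f w := by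
        ext S
        rw [hdiag]
        split_ifs with hi
        · rfl
        · change 0 = (if hS : i ∈ S.1 ∧ j ∉ S.1 then w ⟨S, hS⟩ else 0)
          rw [dif_neg (fun hc => hi hc.1)]
      have h2 : (M K k j j).mulVec (f w) = 0 := by
        ext S
        rw [hdiag]
        split_ifs with hj
        · change (if hS : i ∈ S.1 ∧ j ∉ S.1 then w ⟨S, hS⟩ else 0) = 0
          rw [dif_neg (fun hc => hc.2 hj)]
        · rfl
      have h3 : (M K k i j).mulVec (f w) = 0 := by
        rw [← M_mul_same (i := i) (j := j), ← Matrix.mulVec_mulVec, h2, Matrix.mulVec_zero]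
      refine ⟨(M K k j i).mulVec (f w), trivial, ?_⟩
      rw [Matrix.mulVecLin_apply, Matrix.mulVec_mulVec]
      have h4 := congrArg (fun X => X.mulVec (f w)) (M_cross (K := K) (k := k) (i := i) (j := j))
      simp only [Matrix.sub_mulVec] at h4
      rw [h1, h2, sub_zero, ← Matrix.mulVec_mulVec (f w) (M K k j i) (M K k i j), h3,
        Matrix.mulVec_zero, sub_zero] at h4
      exact h4
  rw [he, LinearMap.finrank_range_of_inj hf, Module.finrank_fintype_fun_eq_card, card_Pij h hk]

end unip

section final
variable {K : Type*} [Field K] {m : ℕ}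

lemma exists_not_nor (hm : Odd m) (h3 : 3 ≤ m) :
    ∃ g : Matrix.GeneralLinearGroup (Ix (Fin (2 * m)) m) K,
      (g : Matrix _ _ K).transpose * Jw K m * (g : Matrix _ _ K) = (1 : K) • Jw K m ∧
        g ∉ Nor (gl K (Fin (2 * m)) m) := by
  obtain ⟨S, -, hS⟩ : ∃ S : Finset (Fin (2 * m)), S ⊆ Finset.univ ∧ S.card = m :=
    Finset.exists_subset_card_eq (by rw [Finset.card_univ, Fintype.card_fin]; omega)
  set S0 : Ix (Fin (2 * m)) m := ⟨S, hS⟩ with hS0
  obtain ⟨j0, hj0⟩ : S.Nonempty := by rw [← Finset.card_pos]; omega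
  obtain ⟨i0, hi0⟩ : (Sᶜ).Nonempty := by
    rw [← Finset.card_pos, Finset.card_compl, Fintype.card_fin]; omega
  have hi0' : i0 ∉ S := by simpa using hi0
  have hij : i0 ≠ j0 := fun h => hi0' (h ▸ hj0)
  have hne : cp S0 ≠ S0 := by
    intro h
    have : i0 ∈ S0.1 := by rw [← h]; exact hi0
    exact hi0' this
  set N : Matrix (Ix (Fin (2 * m)) m) (Ix (Fin (2 * m)) m) K := Matrix.single S0 (cp S0) 1
    with hN
  have hsq : N * N = 0 := Matrix.single_mul_single_of_ne _ _ _ _ hne _
  let g : Matrix.GeneralLinearGroup (Ix (Fin (2 * m)) m) K :=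
    ⟨1 + N, 1 - N,
      by
        have e : (1 + N) * (1 - N) = 1 - N * N := by noncomm_ring
        rw [e, hsq, sub_zero],
      by
        have e : (1 - N) * (1 + N) = 1 - N * N := by noncomm_ring
        rw [e, hsq, sub_zero]⟩
  refine ⟨g, ?_, ?_⟩
  · change (1 + N).transpose * Jw K m * (1 + N) = _
    have e1 : N.transpose * Jw K m = Matrix.single (cp S0) (cp S0) (ep K S) := by
      rw [hN, Matrix.transpose_single]
      ext A B
      rw [mul_Jw, Matrix.single_apply, Matrix.single_apply]
      by_cases hB : cp S0 = B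
      · subst hB
        rw [cp_cp]
        by_cases hA : cp S0 = A
        · rw [if_pos ⟨hA, rfl⟩, if_pos ⟨hA, rfl⟩, one_mul]
        · rw [if_neg (fun h => hA h.1), if_neg (fun h => hA h.1), zero_mul]
      · have hB' : S0 ≠ cp B := fun h => hB (by rw [h, cp_cp])
        rw [if_neg (fun h => hB' h.2), if_neg (fun h => hB h.2), zero_mul]
    have e2 : Jw K m * N = Matrix.single (cp S0) (cp S0) (ep K Sᶜ) := by
      rw [hN]
      ext A B
      rw [Jw_mul, Matrix.single_apply, Matrix.single_apply]
      by_cases hA : cp S0 = A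
      · subst hA
        rw [cp_cp]
        by_cases hB : cp S0 = B
        · rw [if_pos ⟨rfl, hB⟩, if_pos ⟨rfl, hB⟩, mul_one]; rfl
        · rw [if_neg (fun h => hB h.2), if_neg (fun h => hB h.2), mul_zero]
      · have hA' : S0 ≠ cp A := fun h => hA (by rw [h, cp_cp])
        rw [if_neg (fun h => hA' h.1), if_neg (fun h => hA h.1), mul_zero]
    have e3 : N.transpose * Jw K m * N = 0 := by
      rw [e1, hN]
      exact Matrix.single_mul_single_of_ne _ _ _ _ hne _
    have e4 : ep K S + ep K Sᶜ = 0 := by
      have h1 := ep_compl (K := K) hm S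
      have h2 := ep_sq (K := K) S
      linear_combination (ep K S) * h1 - (ep K Sᶜ) * h2
    have e5 : (1 + N).transpose * Jw K m * (1 + N) = Jw K m + (N.transpose * Jw K m + Jw K m * N) +
        N.transpose * Jw K m * N := by
      rw [Matrix.transpose_add, Matrix.transpose_one]
      noncomm_ring
    rw [e5, e3, e1, e2, ← Matrix.single_add, e4, Matrix.single_zero]
    simp
  · intro hg
    have hc : (insert i0 (S.erase j0)).card = m := by
      rw [Finset.card_insert_of_notMem (fun h => hi0' (Finset.mem_of_mem_erase h)),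
        Finset.card_erase_add_one hj0]
      exact hS
    set S1 : Ix (Fin (2 * m)) m := ⟨insert i0 (S.erase j0), hc⟩ with hS1
    have hS10 : S0 ≠ S1 := by
      intro h
      have : i0 ∈ S0.1 := by rw [h]; exact Finset.mem_insert_self _ _
      exact hi0' this
    have hent : ∀ i j, (cp S0).1 ≠ insert j (S1.1.erase i) := by
      intro i j h
      have hcard : 0 < ((S.erase j0).erase i).card := by
        have h1 := Finset.pred_card_le_card_erase (s := S.erase j0) (a := i)
        have h2 := Finset.card_erase_of_mem hj0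
        omega
      obtain ⟨x, hx⟩ := Finset.card_pos.mp hcard
      have hx1 := Finset.mem_erase.mp hx
      have hx2 := Finset.mem_erase.mp hx1.2
      have : x ∈ (cp S0).1 := by
        rw [h]
        apply Finset.mem_insert_of_mem
        rw [Finset.mem_erase]
        exact ⟨hx1.1, Finset.mem_insert_of_mem hx1.2⟩
      change x ∈ (S)ᶜ at this
      rw [Finset.mem_compl] at this
      exact this hx2.2
    have h1 := (hg _ (M_mem (K := K) (k := m) i0 j0)).1
    have h2 := gl_entry hent h1
    have h3 : (M K m i0 j0) S1 (cp S0) = 0 := gl_entry hent (M_mem i0 j0)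
    have h4 : (M K m i0 j0) S1 S0 ≠ 0 := by
      rw [M_apply, if_pos]
      · exact mul_ne_zero (sg_ne _ _) (sg_ne _ _)
      · have hi : i0 ∉ S.erase j0 := fun h => hi0' (Finset.mem_of_mem_erase h)
        refine ⟨Finset.mem_insert_self _ _, ?_, ?_⟩
        · change j0 ∉ (insert i0 (S.erase j0)).erase i0
          rw [Finset.erase_insert hi]
          exact Finset.notMem_erase _ _
        · change S = insert j0 ((insert i0 (S.erase j0)).erase i0)
          rw [Finset.erase_insert hi, Finset.insert_erase hj0]
    change ((1 + N) * M K m i0 j0 * (1 - N)) S1 (cp S0) = 0 at h2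
    have e : (1 + N) * M K m i0 j0 * (1 - N) = M K m i0 j0 + N * M K m i0 j0 -
        M K m i0 j0 * N - N * (M K m i0 j0 * N) := by noncomm_ring
    rw [e, Matrix.sub_apply, Matrix.sub_apply, Matrix.add_apply, h3, hN,
      Matrix.single_mul_apply_of_ne _ _ _ _ _ hS10.symm,
      Matrix.single_mul_apply_of_ne _ _ _ _ _ hS10.symm, Matrix.mul_single_apply_same,
      mul_one] at h2
    apply h4
    linear_combination -h2

/-- The exterior power `∧^m` of the standard representation of `SL_2m`, for odd `m`. -/
theorem wedge_example (K : Type*) [Field K] [CharZero K] {m : ℕ} (hm : Odd m) (h3 : 3 ≤ m) :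
    ∃ (ι : Type) (_ : Fintype ι) (_ : DecidableEq ι) (J : Matrix ι ι K)
      (G : Subgroup (Matrix.GeneralLinearGroup ι K)),
      Fintype.card ι = (2 * m).choose m ∧ IsMTPair J G ∧
      IsSplit J G (fun _ : Unit => (⊤ : Submodule K (ι → K))) ∧
      (∃ u ∈ G, IsQuadraticOn u ⊤ ((2 * m - 2).choose (m - 1))) ∧
      ¬ IsFull J G (fun _ : Unit => (⊤ : Submodule K (ι → K))) := by
  have hpair : IsMTPair (Jw K m) (GenG (Lam K (Fin (2 * m)) m)) :=
    isMTPair_gen (Jw_transpose hm) (Jw_det hm) Lam_idem Lam_lag
  set i0 : Fin (2 * m) := ⟨0, by omega⟩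
  set i1 : Fin (2 * m) := ⟨1, by omega⟩
  have h01 : i0 ≠ i1 := by
    intro h; exact absurd (congrArg Fin.val h) (by simp [i0, i1])
  refine ⟨Ix (Fin (2 * m)) m, inferInstance, inferInstance, Jw K m,
    GenG (Lam K (Fin (2 * m)) m), ?_, hpair, ?_, ?_, ?_⟩
  · rw [Fintype.card_finset_len, Fintype.card_fin]
  · refine ⟨?_, ?_, fun _ _ _ _ _ => trivial, ?_, ?_⟩
    · rw [DirectSum.isInternal_submodule_iff_iSupIndep_and_iSup_eq_top]
      refine ⟨?_, by simp⟩
      intro i
      simp
    · intro i j hij
      exact absurd (Subsingleton.elim i j) hij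
    · intro _ U _ hU
      apply irr
      intro π hπ v hv
      obtain ⟨g, hg, hgt⟩ := (GenG_cochar (Lam_idem π hπ) hπ).2 2 two_ne_zero
      have h1 := hU g hg v hv
      have h2 : (g : Matrix _ _ K).mulVec v = π.mulVec v + v := by
        rw [hgt]
        have : (2 : K) • π + (1 - π) = π + 1 := by rw [two_smul]; abel
        rw [this, Matrix.add_mulVec, Matrix.one_mulVec]
      rw [h2] at h1
      have := U.sub_mem h1 hv
      rwa [add_sub_cancel_right] at this
    · intro i j hij
      exact absurd (Subsingleton.elim i j) hij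
  · refine ⟨un K m h01, un_mem h01, ?_, ?_⟩
    · intro v _
      have e : (un K m h01 : Matrix _ _ K) - 1 = M K m i0 i1 := by
        change 1 + M K m i0 i1 - 1 = _
        abel
      rw [e, Matrix.mulVec_mulVec, M_sq h01, Matrix.zero_mulVec]
    · have e : (un K m h01 : Matrix _ _ K) - 1 = M K m i0 i1 := by
        change 1 + M K m i0 i1 - 1 = _
        abel
      rw [e, rank_M h01 (by omega), Fintype.card_fin]
  · intro hfull
    obtain ⟨g, hg, hgd⟩ := exists_not_nor (K := K) hm h3
    apply hgd
    have h1 := hfull g ⟨1, hg⟩ (fun _ _ _ => trivial)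
    exact GenG_le (Nor_closed _) Lam_nor h1

end final

end TR.Wdg

namespace TR

/-- The exterior cube of the standard representation of `SL_6`: a transvection has rank `6`. -/
theorem sharp_cube (K : Type*) [Field K] [CharZero K] :
    ∃ (m : Type) (_ : Fintype m) (_ : DecidableEq m) (J : Matrix m m K)
      (G : Subgroup (Matrix.GeneralLinearGroup m K)), Fintype.card m = 20 ∧
      IsMTPair J G ∧ IsSplit J G (fun _ : Unit => (⊤ : Submodule K (m → K))) ∧
      (∃ u ∈ G, IsQuadraticOn u ⊤ 6) ∧
      ¬ IsFull J G (fun _ : Unit => (⊤ : Submodule K (m → K))) :=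
  Wdg.wedge_example K (m := 3) (by decide) le_rfl

end TR
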