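import Pool.Agent.Helper82.TR.E1
import Pool.Agent.Helper80.TR.SharpSp
import Pool.Agent.Helper21.TR.Wedge
import Pool.Agent.Helper21.TR.Exc

/-!
Every exceptional pair (rank, dimension) is realised by a pair which is not full.
-/

open Module MTPairs

namespace TR

/-- The group `SL_2 ⊗ SO_2b`. -/
theorem so_counter (K : Type*) [Field K] [CharZero K] {b s : ℕ} (hb : 2 ≤ b)
    (hs : 2 * s ≤ b) :
    ∃ (m : Type) (_ : Fintype m) (_ : DecidableEq m) (J : Matrix m m K)
      (G : Subgroup (Matrix.GeneralLinearGroup m K)), Fintype.card m = 4 * b ∧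
      IsMTPair J G ∧ IsSplit J G (fun _ : Unit => (⊤ : Submodule K (m → K))) ∧
      (∃ u ∈ G, IsQuadraticOn u ⊤ (4 * s)) ∧
      ¬ IsFull J G (fun _ : Unit => (⊤ : Submodule K (m → K))) := by
  refine ⟨Fin 2 × (Fin 2 × Fin b), inferInstance, inferInstance, Jm K b, GenG (Gens K b), ?_,
    isMTPair_gen Jm_transpose Jm_det Gens_idem Gens_lag, ?_, exists_quad_so K hb hs, ?_⟩
  · simp only [Fintype.card_prod, Fintype.card_fin]
    ring
  · refine ⟨?_, ?_, fun _ _ _ _ _ => trivial, ?_, ?_⟩
    · rw [DirectSum.isInternal_submodule_iff_iSupIndep_and_iSup_eq_top]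
      refine ⟨?_, by simp⟩
      intro i
      simp
    · intro i j hij
      exact absurd (Subsingleton.elim i j) hij
    · intro _ U _ hU
      apply Gens_irr hb
      intro π hπ v hv
      obtain ⟨g, hg, hgt⟩ := (GenG_cochar (Gens_idem π hπ) hπ).2 2 two_ne_zero
      have h1 := hU g hg v hv
      have h2 : (g : Matrix _ _ K).mulVec v = π.mulVec v + v := by
        rw [hgt]
        have : (2 : K) • π + (1 - π) = π + 1 := by rw [two_smul]; abel
        rw [this, Matrix.add_mulVec, Matrix.one_mulVec]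
      rw [h2] at h1
      have := U.sub_mem h1 hv
      rwa [add_sub_cancel_right] at this
    · intro i j hij
      exact absurd (Subsingleton.elim i j) hij
  · intro hfull
    obtain ⟨g, hg, hgd⟩ := exists_not_dec (K := K) (b := b) (by omega)
    apply hgd
    have h1 := hfull g ⟨1, hg⟩ (fun _ _ _ => trivial)
    exact GenG_le (Dec_closed (by omega)) Gens_dec h1

/-- **The classification of the toric ranks, only if part.** -/
theorem exists_counter (K : Type*) [Field K] [CharZero K] {r D : ℕ} (h : Exc r D) :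
    ∃ (m : Type) (_ : Fintype m) (_ : DecidableEq m) (J : Matrix m m K)
      (G : Subgroup (Matrix.GeneralLinearGroup m K)), Fintype.card m = D ∧
      IsMTPair J G ∧ IsSplit J G (fun _ : Unit => (⊤ : Submodule K (m → K))) ∧
      (∃ u ∈ G, IsQuadraticOn u ⊤ r) ∧
      ¬ IsFull J G (fun _ : Unit => (⊤ : Submodule K (m → K))) := by
  obtain ⟨⟨b, rfl⟩, h8, h2, ⟨t, rfl⟩, h5⟩ := h
  rcases h5 with ⟨s, hs⟩ | h5 | ⟨h6, h7⟩
  · rw [hs]
    exact so_counter K (b := b) (s := s) (by omega) (by omega)
  · rw [Nat.mul_div_cancel_left _ two_pos, Nat.mul_div_cancel_left _ (by norm_num)] at h5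
    obtain ⟨s, hs⟩ := Nat.gcd_dvd_left t b
    obtain ⟨a, ha⟩ := Nat.gcd_dvd_right t b
    set c := Nat.gcd t b with hc
    have hb0 : 0 < b := by omega
    have hc0 : 0 < c := Nat.gcd_pos_of_pos_right _ hb0
    have hc1 : c ≠ 1 := h5
    have ha0 : 0 < a := by
      rcases Nat.eq_zero_or_pos a with h | h
      · rw [h, mul_zero] at ha; omega
      · exact h
    have hsa : s ≤ a := by
      have h9 : c * s ≤ c * a := by rw [← hs, ← ha]; omega
      exact Nat.le_of_mul_le_mul_left h9 hc0
    obtain ⟨m, i1, i2, J, G, hm, h10, h11, h12, h13⟩ := sharp_sp_so K (a := a) (c := c) (s := s)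
      ha0 (by omega) hsa
    refine ⟨m, i1, i2, J, G, ?_, h10, h11, ?_, h13⟩
    · rw [hm, ha]; ring
    · rw [hs, ← mul_assoc]; exact h12
  · rw [h6, h7]
    exact sharp_cube K

end TR
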