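import Pool.Agent.Helper21.TR.Bad3
import Pool.Agent.Helper21.TR.BadDefs

/-!
The classification of the degeneration types: the group form, if part.
-/

open Module MTPairs

namespace TR

open MTP MTP.MF Pool.Agent.Helper54.MT

section family
variable {K : Type*} [Field K] {ι : Type*} [Fintype ι] [DecidableEq ι] {W : ι → Type*}
  [∀ j, AddCommGroup (W j)] [∀ j, Module K (W j)] [∀ j, FiniteDimensional K (W j)]
  {σ : Type*} [Fintype σ]
  {ω : ∀ j, LinearMap.BilinForm K (W j)} {b : Basis σ K (∀ j, Module.End K (W j))}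
  {G : Set (∀ j, Module.End K (W j))}

/-- The projection of the Lie algebra to a factor, given the data of a bad place. -/
theorem proj_of_bad [IsAlgClosed K] [CharZero K] (D : GrpBase ω b G) (j : ι)
    {u g : ∀ j, Module.End K (W j)} (hu : u ∈ G) (hg : g ∈ G)
    (hN : (u j - 1) * (u j - 1) = 0) (hN0 : u j - 1 ≠ 0) {c : K}
    (hc : ∀ v w, ω j (g j v) (g j w) = c * ω j v w)
    (hroot : ∀ a b : K, (g j).eigenspace a ≠ ⊥ → (g j).eigenspace b ≠ ⊥ → ∀ n : ℕ, 0 < n →
      a ^ n = b ^ n → a = b)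
    {a0 : K} (hrange : LinearMap.range (u j - 1) ≤ (g j).maxGenEigenspace a0)
    {d : ℕ} (hd : DivG (u j - 1) (g j) c d)
    (hmax : ∀ e, DivG (u j - 1) (g j) c e → e ∣ d)
    (hexc : ¬ ExcB (rk (u j - 1)) d (finrank K (W j)))
    {z : Module.End K (W j)} (hz : IsSk (ω j) z) :
    ∃ x ∈ lieGen K (GrpBase.Inv ω G), x j = z := by
  have hntj : Nontrivial (W j) := D.nt j
  obtain ⟨h, hh, huh, hhu⟩ := D.inv u hu
  set N := u j - 1 with hNdef
  have huj : u j = 1 + N := by rw [hNdef]; abel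
  have hhj : h j = 1 - N := by
    have e1 : h j * u j = 1 := congrFun hhu j
    have e2 : u j * (1 - N) = 1 := by
      have e3 : (1 + N) * (1 - N) = 1 - N * N := by noncomm_ring
      rw [huj, e3, hN, sub_zero]
    calc h j = h j * (u j * (1 - N)) := by rw [e2, mul_one]
      _ = (h j * u j) * (1 - N) := by rw [mul_assoc]
      _ = _ := by rw [e1, one_mul]
  obtain ⟨c₁, hc₁⟩ := D.sim u hu
  obtain ⟨c', hc'⟩ := D.sim h hh
  have hcc : c₁ * c' = 1 := by
    obtain ⟨v, w, hvw⟩ := D.exists_ne_form j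
    have h1 : ∀ x, u j (h j x) = x := fun x => LinearMap.congr_fun (congrFun huh j) x
    have e1 := hc₁ j (h j v) (h j w)
    rw [h1, h1, hc'] at e1
    have e2 : (c₁ * c' - 1) * ω j v w = 0 := by linear_combination -e1
    have e3 := (mul_eq_zero.mp e2).resolve_right hvw
    linear_combination e3
  have hsk : IsSk (ω j) N := by
    apply quad_skew hN (c := c₁) (c' := c') _ _ hcc (D.nd j)
    · intro v w; rw [← huj]; exact hc₁ j v w
    · intro v w; rw [← hhj]; exact hc' j v w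
  have hctx := D.ctx j
  set Lj := lieGen K ((Pi.evalAlgHom K (fun j => Module.End K (W j)) j) '' (GrpBase.Inv ω G))
    with hLj
  have hmap : ∀ x, x ∈ Lj ↔ ∃ y ∈ lieGen K (GrpBase.Inv ω G), y j = x := by
    intro x
    rw [hLj, ← lieGen_map]
    rfl
  have hnormj : ∀ x ∈ Lj, N * x - x * N ∈ Lj := by
    intro x hx
    obtain ⟨y, hy, rfl⟩ := (hmap x).mp hx
    have h1 : (1 + N) * y j * (1 - N) ∈ Lj := by
      rw [hmap]
      refine ⟨u * y * h, D.lie_conj hu hh huh hhu hy, ?_⟩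
      rw [Pi.mul_apply, Pi.mul_apply, huj, hhj]
    have h2 : (1 - N) * y j * (1 + N) ∈ Lj := by
      rw [hmap]
      refine ⟨h * y * u, D.lie_conj hh hu hhu huh hy, ?_⟩
      rw [Pi.mul_apply, Pi.mul_apply, huj, hhj]
    have h3 := Lj.smul_mem (2 : K)⁻¹ (Lj.sub_mem h1 h2)
    have e : (1 + N) * y j * (1 - N) - (1 - N) * y j * (1 + N) =
        (2 : K) • (N * y j - y j * N) := by
      have : (1 + N) * y j * (1 - N) - (1 - N) * y j * (1 + N) =
        (N * y j - y j * N) + (N * y j - y j * N) := by noncomm_ring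
      rw [this, two_smul]
    rw [e, smul_smul, inv_mul_cancel₀ two_ne_zero, one_smul] at h3
    exact h3
  have hNL : N ∈ Lj := hctx.irr.mem_of_normalize hctx.nd hsk hnormj
  obtain ⟨g', hg', hgg', hg'g⟩ := D.inv g hg
  have hconj : ∀ x ∈ Lj, g j * x * g' j ∈ Lj := by
    intro x hx
    obtain ⟨y, hy, rfl⟩ := (hmap x).mp hx
    rw [hmap]
    exact ⟨_, D.lie_conj hg hg' hgg' hg'g hy, rfl⟩
  have hg'gj : g' j * g j = 1 := congrFun hg'g j
  obtain ⟨s, hssk, hsnorm, hsdiag, ⟨τ, hτ⟩, hiff⟩ :=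
    exists_log (D.nd j) hg'gj hc hroot hconj hN0 hrange
  have hsL : s ∈ Lj := hctx.irr.mem_of_normalize hctx.nd hssk hsnorm
  have hzL : z ∈ Lj := bad_sub hctx (D.alt j) hNL hN hN0 hsL hsdiag hτ ((hiff d).mp hd)
    (fun e he => hmax e ((hiff e).mpr he)) hexc hz
  exact (hmap z).mp hzL

end family

section matrix
variable {K : Type*} [Field K] {m : Type*} [Fintype m] [DecidableEq m]
  {ι : Type*} [Fintype ι] [DecidableEq ι] {W : ι → Submodule K (m → K)}
  {J : Matrix m m K} {G : Subgroup (Matrix.GeneralLinearGroup m K)}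

lemma mem_gen_iff (h : DirectSum.IsInternal W) (b : ∀ j, Module.End K (W j)) (j : ι) (a : K)
    (v : W j) : (v : m → K) ∈ Module.End.maxGenEigenspace (mat h b).mulVecLin a ↔
      v ∈ (b j).maxGenEigenspace a := by
  have key : ∀ k : ℕ, (((mat h b).mulVecLin - a • (1 : Module.End K (m → K))) ^ k) (v : m → K) =
      ((((b j) - a • (1 : Module.End K (W j))) ^ k) v : W j) := by
    intro k
    induction k with
    | zero => rfl
    | succ k ih =>
      rw [pow_succ', pow_succ', Module.End.mul_apply, Module.End.mul_apply, ih,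
        LinearMap.sub_apply, LinearMap.sub_apply, Matrix.mulVecLin_apply, mat_mulVec]
      rfl
  rw [Module.End.mem_maxGenEigenspace, Module.End.mem_maxGenEigenspace]
  constructor
  · rintro ⟨k, hk⟩
    refine ⟨k, ?_⟩
    rw [key k] at hk
    exact Subtype.ext hk
  · rintro ⟨k, hk⟩
    refine ⟨k, ?_⟩
    rw [key k, hk]
    rfl

lemma mlt_eq (h : DirectSum.IsInternal W) (x b : ∀ j, Module.End K (W j)) (j : ι) (a : K) :
    mlt (mat h x) (mat h b) (W j) a = mg (x j - 1) (b j) a := by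
  have hsub : mat h x - 1 = mat h (x - 1) := by rw [mat_sub, mat_one]
  have e1 : W j ⊓ LinearMap.ker (mat h x - 1).mulVecLin ⊓
      Module.End.maxGenEigenspace (mat h b).mulVecLin a =
      (LinearMap.ker (x j - 1) ⊓ (b j).maxGenEigenspace a).map (W j).subtype := by
    ext v
    rw [Submodule.mem_inf, Submodule.mem_inf, Submodule.mem_map]
    constructor
    · rintro ⟨⟨h1, h2⟩, h3⟩
      refine ⟨⟨v, h1⟩, ⟨?_, (mem_gen_iff h b j a ⟨v, h1⟩).mp h3⟩, rfl⟩
      rw [LinearMap.mem_ker, Matrix.mulVecLin_apply, hsub] at h2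
      have h4 := mat_mulVec h (x - 1) j ⟨v, h1⟩
      rw [h2] at h4
      exact (Subtype.ext h4).symm
    · rintro ⟨w, ⟨h1, h2⟩, rfl⟩
      refine ⟨⟨w.2, ?_⟩, (mem_gen_iff h b j a w).mpr h2⟩
      rw [LinearMap.mem_ker, Matrix.mulVecLin_apply, hsub]
      have h4 := mat_mulVec h (x - 1) j w
      have h5 : (x - 1) j w = 0 := h1
      rw [h5] at h4
      exact h4
  have e2 : (W j).map (mat h x - 1).mulVecLin ⊓
      Module.End.maxGenEigenspace (mat h b).mulVecLin a =
      (LinearMap.range (x j - 1) ⊓ (b j).maxGenEigenspace a).map (W j).subtype := by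
    ext v
    rw [Submodule.mem_inf, Submodule.mem_map, Submodule.mem_map]
    constructor
    · rintro ⟨⟨w, h1, rfl⟩, h3⟩
      have h4 : (mat h x - 1).mulVecLin w = ((x - 1) j ⟨w, h1⟩ : W j) := by
        rw [Matrix.mulVecLin_apply, hsub]
        exact mat_mulVec h (x - 1) j ⟨w, h1⟩
      rw [h4] at h3 ⊢
      exact ⟨(x - 1) j ⟨w, h1⟩, ⟨⟨⟨w, h1⟩, rfl⟩, (mem_gen_iff h b j a _).mp h3⟩, rfl⟩
    · rintro ⟨_, ⟨⟨w, rfl⟩, h2⟩, rfl⟩
      refine ⟨⟨w, w.2, ?_⟩, (mem_gen_iff h b j a _).mpr h2⟩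
      rw [Matrix.mulVecLin_apply, hsub]
      exact mat_mulVec h (x - 1) j w
  unfold mlt mg
  rw [e1, e2, Submodule.finrank_map_subtype_eq, Submodule.finrank_map_subtype_eq]

/-- **The classification of the degeneration types, if part.** -/
theorem isFull_of_bad [IsAlgClosed K] [CharZero K] (hG : IsMTPair J G)
    (hW : IsSplit J G W)
    (hq : ∀ j, ∃ u ∈ G, ∃ g ∈ G, ∃ r d : ℕ, IsBad J u g (W j) r d ∧
      ¬ ExcB r d (finrank K (W j))) :
    IsFull J G W := by
  classical
  have h := hW.internal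
  have hnt : ∀ j, W j ≠ ⊥ := by
    intro j h0
    obtain ⟨u, hu, g, hg, r, d, ⟨h1, h2, -⟩, -⟩ := hq j
    have h3 := h2.2
    rw [h0, Submodule.map_bot, finrank_bot] at h3
    omega
  have hnt' : ∀ j, Nontrivial (W j) := fun j => (Submodule.nontrivial_iff_ne_bot).mpr (hnt j)
  refine isFull_of_proj hG hW hnt ?_ (fun L h1 h2 h3 h4 =>
    goursat hnt' (form J W) (form_nd hG.skew hG.det hW.internal hW.orth)
      (form_alt hG.skew) L h1 h2 h3 h4)
  intro j z hz
  obtain ⟨n, ⟨b⟩⟩ := exists_basis (W := W)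
  have D := grpBase b hG hW hnt
  obtain ⟨u, hu, g, hg, r, d, ⟨hr0, ⟨h1, h2⟩, hroot, ⟨a0, ha0⟩, c, hc, hd, hmax⟩, hexc⟩ := hq j
  obtain ⟨x, hx⟩ := exists_mat h (hW.stable u hu)
  obtain ⟨y, hy⟩ := exists_mat h (hW.stable g hg)
  have hxG : x ∈ GS G h := ⟨u, hu, hx⟩
  have hyG : y ∈ GS G h := ⟨g, hg, hy⟩
  have hsub : (u : Matrix m m K) - 1 = mat h (x - 1) := by
    rw [mat_sub, mat_one, hx]
  have hrk : rk (x j - 1) = r := by
    have := finrank_range_restrict h (x - 1) j
    rw [← hsub, h2] at this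
    exact this
  have hdiv : ∀ e, Divs (u : Matrix m m K) g (W j) r c e ↔ DivG (x j - 1) (y j) c e := by
    intro e
    unfold Divs DivG
    rw [hrk, hx, hy]
    simp only [mlt_eq]
  refine proj_of_bad D j hxG hyG (c := c) (a0 := a0) (d := d) ?_ ?_ ?_ ?_ ?_ ?_ ?_ ?_ hz
  · ext1 v
    apply Subtype.ext
    have := h1 v v.2
    rw [hsub, mat_mulVec, mat_mulVec] at this
    exact this
  · intro h0
    rw [h0] at hrk
    unfold rk at hrk
    rw [LinearMap.range_zero, finrank_bot] at hrk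
    omega
  · exact fun v w => sim_form h hy hc j v w
  · intro a b' ha hb n hn hab
    obtain ⟨v, hv, hv0⟩ := Submodule.exists_mem_ne_zero_of_ne_bot ha
    obtain ⟨w, hw, hw0⟩ := Submodule.exists_mem_ne_zero_of_ne_bot hb
    have key : ∀ (q : K) (v : W j), v ∈ (y j).eigenspace q →
        (g : Matrix m m K).mulVec (v : m → K) = q • (v : m → K) := by
      intro q v hv
      rw [hy, mat_mulVec, Module.End.mem_eigenspace_iff.mp hv]
      rfl
    exact hroot a b' v v.2 w w.2 (fun h0 => hv0 (Subtype.ext h0)) (fun h0 => hw0 (Subtype.ext h0))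
      (key a v hv) (key b' w hw) n hn hab
  · rintro _ ⟨v, rfl⟩
    have h3 := ha0 v v.2
    have h4 := mat_mulVec h (x - 1) j v
    rw [hsub, h4, hy] at h3
    exact (mem_gen_iff h y j a0 _).mp h3
  · exact (hdiv d).mp hd
  · exact fun e he => hmax e ((hdiv e).mpr he)
  · rw [hrk]; exact hexc

end matrix

end TR
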