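import Pool.Agent.Helper21.TR.Bad3
import Pool.Agent.Helper21.TR.EigDefs
import Pool.Agent.Helper93.SR.Plug

/-!
Strong pairs with the data of a bad place: the number of eigenvalues of Frobenius on the abelian
part.
-/

set_option linter.unusedSectionVars false

open Module MTPairs

attribute [local instance 100] LieRing.ofAssociativeRing

namespace TR

open MTP MTP.MF Pool.Agent.Helper54.MT

/-- The exceptional triples: rank, number of eigenvalues, dimension. -/
def EigExc (r k D : ℕ) : Prop :=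
  (∃ m, Odd m ∧ 3 ≤ m ∧ D = (2 * m).choose m ∧ r = (2 * m - 2).choose (m - 1) ∧
    (k = 1 ∨ k = 2)) ∨
  (∃ n, (n % 4 = 1 ∨ n % 4 = 2) ∧ 5 ≤ n ∧ D = 2 ^ n ∧
    ((r = 2 ^ (n - 2) ∧ (k = 1 ∨ k = 2)) ∨ (r = 2 ^ (n - 1) ∧ k = 0)))

lemma choose_strict {m : ℕ} (hm : 3 ≤ m) :
    2 * (2 * m - 2).choose (m - 1) < (2 * m).choose m := by
  obtain ⟨n, rfl⟩ : ∃ n, m = n + 2 := ⟨m - 2, by omega⟩
  have e1 : (2 * (n + 2)).choose (n + 2) =
      (2 * n + 3).choose (n + 1) + (2 * n + 3).choose (n + 2) := by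
    rw [show 2 * (n + 2) = (2 * n + 3) + 1 by ring]
    exact Nat.choose_succ_succ _ _
  have e2 : (2 * n + 3).choose (n + 2) = (2 * n + 3).choose (n + 1) := by
    rw [← Nat.choose_symm_of_eq_add (show 2 * n + 3 = (n + 1) + (n + 2) by ring)]
  have e3 : (2 * n + 3).choose (n + 1) = (2 * n + 2).choose n + (2 * n + 2).choose (n + 1) :=
    Nat.choose_succ_succ _ _
  have e4 : 0 < (2 * n + 2).choose n := Nat.choose_pos (by omega)
  rw [e1, e2, e3, show 2 * (n + 2) - 2 = 2 * n + 2 by omega, show n + 2 - 1 = n + 1 by omega]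
  omega

section
variable {K : Type*} [Field K] {V : Type*} [AddCommGroup V] [Module K V]
  [FiniteDimensional K V] [CharZero K] {ω : LinearMap.BilinForm K V}
  {N h : Module.End K V} {σ : K}

/-- The multiplicities vanish exactly when the rank is half of the dimension. -/
lemma BC.eq_half_iff (H : BC ω N h σ) :
    {q | ml N h q ≠ 0} = ∅ ↔ 2 * rk N = finrank K V := by
  obtain ⟨P, hP, h4, h5⟩ := H.count
  rw [Set.eq_empty_iff_forall_notMem]
  constructor
  · intro h0
    have h1 : ∀ q : K, ml N h q = 0 := fun q => by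
      by_contra hq
      exact h0 q hq
    have h6 : ∑ q ∈ P, ml N h (q : K) = 0 := Finset.sum_eq_zero (fun q _ => h1 (q : K))
    rw [h4, h1 0, h6, add_zero, mul_zero, add_zero]
  · intro hr q hq
    have h6 : ml N h 0 = 0 ∧ ∑ q ∈ P, ml N h (q : K) = 0 := by omega
    apply hq
    by_cases hq0 : q = 0
    · rw [hq0]; exact h6.1
    by_cases h7 : ∀ p ∈ P, q ≠ (p : K) ∧ q ≠ -(p : K)
    · exact h5 q hq0 h7
    · push Not at h7
      obtain ⟨p, hp, h8⟩ := h7
      have h9 := Finset.sum_eq_zero_iff.mp h6.2 p hp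
      by_cases h10 : q = p
      · rw [h10]; exact h9
      · rw [h8 h10, H.ml_neg]; exact h9

omit [CharZero K] in
/-- At most two eigenvalues. -/
lemma card_le {a : K}
    (ha : ∀ v, N v = 0 → ∃ w, h (h v) - (a * a) • v = N w) :
    {q | ml N h q ≠ 0}.ncard ≤ 2 := by
  have key : {q | ml N h q ≠ 0} ⊆ {a, -a} := by
    intro b hb
    by_contra hne
    apply hb
    have hba : b * b ≠ a * a := by
      intro h1
      apply hne
      have h2 : (b - a) * (b + a) = 0 := by linear_combination h1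
      rcases mul_eq_zero.mp h2 with h3 | h3
      · exact Or.inl (sub_eq_zero.mp h3)
      · exact Or.inr (eq_neg_of_add_eq_zero_left h3)
    have : LinearMap.ker N ⊓ h.eigenspace b ≤ LinearMap.range N ⊓ h.eigenspace b := by
      rintro v ⟨hv1, hv2⟩
      refine ⟨?_, hv2⟩
      obtain ⟨w, hw⟩ := ha v hv1
      have hv3 := Module.End.mem_eigenspace_iff.mp hv2
      rw [hv3, map_smul, hv3, smul_smul, ← sub_smul] at hw
      refine ⟨(b * b - a * a)⁻¹ • w, ?_⟩
      rw [map_smul, ← hw, smul_smul, inv_mul_cancel₀ (sub_ne_zero.mpr hba), one_smul]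
    have := Submodule.finrank_mono this
    unfold ml
    omega
  calc {q | ml N h q ≠ 0}.ncard ≤ ({a, -a} : Set K).ncard :=
        Set.ncard_le_ncard key (Set.toFinite _)
    _ ≤ ({-a} : Set K).ncard + 1 := Set.ncard_insert_le _ _
    _ = 2 := by rw [Set.ncard_singleton]

end

section lie

variable {K : Type*} [Field K] [CharZero K] [IsAlgClosed K] {V : Type*} [AddCommGroup V]
  [Module K V] [FiniteDimensional K V] {ω : LinearMap.BilinForm K V}

/-- The simple case, with the number of eigenvalues. -/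
theorem simple_eig {L : LieSubalgebra K (Module.End K V)}
    {S : Set (Module.End K V)}
    (hC : Ctx ω L.toSubmodule S) (halt : ω.IsAlt) (hs : LieAlgebra.IsSimple K L)
    {N h : Module.End K V} (hN : N ∈ L)
    (hNN : N * N = 0) (hN0 : N ≠ 0) (hh : h ∈ L)
    (hdiag : ⨆ q : ℚ, h.eigenspace (q : K) = ⊤) {σ : K} (hσ : h * N = σ • N) :
    (∀ z, IsSk ω z → z ∈ L) ∨ EigExc (rk N) {q | ml N h q ≠ 0}.ncard (finrank K V) := by
  have H : BC ω N h σ := ⟨hC.nd, hC.irr.sk N hN, hC.irr.sk h hh, hNN, hN0, hdiag, hσ⟩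
  rcases simple_plus hC halt hs hN hNN hN0 hh hdiag hσ with h1 | ⟨a, ha⟩
  · exact Or.inl h1
  have hle := card_le ha
  have hfin : {q | ml N h q ≠ 0}.Finite := by
    by_contra hinf
    obtain ⟨Λ, hΛ⟩ := exists_finset h
    apply hinf
    apply Λ.finite_toSet.subset
    intro q hq
    rw [Finset.mem_coe, ← hΛ]
    intro h0
    apply hq
    unfold ml
    rw [h0, inf_bot_eq, finrank_bot]
    simp
  have h0iff : {q | ml N h q ≠ 0}.ncard = 0 ↔ 2 * rk N = finrank K V := by
    rw [Set.ncard_eq_zero hfin]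
    exact H.eq_half_iff
  rcases simple_class hC halt hs hN hNN hN0 with h1 | ⟨m, h1, h2, h3, h4⟩ | ⟨n, h1, h2, h3, h4⟩
  · exact Or.inl h1
  · right; left
    refine ⟨m, h1, h2, h3, h4, ?_⟩
    have h5 : 2 * rk N < finrank K V := by rw [h3, h4]; exact choose_strict h2
    omega
  · right; right
    refine ⟨n, h1, h2, h3, ?_⟩
    have e : 2 ^ n = 2 * (2 * 2 ^ (n - 2)) := by
      rw [← pow_succ', ← pow_succ']
      congr 1
      omega
    have e' : 2 ^ n = 2 * 2 ^ (n - 1) := by
      rw [← pow_succ']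
      congr 1
      omega
    have hpos : 0 < 2 ^ (n - 2) := by positivity
    rcases h4 with h4 | h4
    · left
      refine ⟨h4, ?_⟩
      have h5 : 2 * rk N < finrank K V := by
        rw [h3, h4, e]
        omega
      omega
    · right
      refine ⟨h4, ?_⟩
      rw [h0iff, h3, h4, e']

end lie

section res
variable {K : Type*} [Field K] {m : Type*} [Fintype m] [DecidableEq m]
  {U : Submodule K (m → K)} {A B : Matrix m m K} {x b : Module.End K U}

lemma res_gen_iff (hb : Res U B b) (a : K) (v : U) :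
    (v : m → K) ∈ Module.End.maxGenEigenspace B.mulVecLin a ↔ v ∈ b.maxGenEigenspace a := by
  have key : ∀ k : ℕ, ((B.mulVecLin - a • (1 : Module.End K (m → K))) ^ k) (v : m → K) =
      (((b - a • (1 : Module.End K U)) ^ k) v : U) := by
    intro k
    induction k with
    | zero => rfl
    | succ k ih =>
      rw [pow_succ', pow_succ', Module.End.mul_apply, Module.End.mul_apply, ih,
        LinearMap.sub_apply, LinearMap.sub_apply, Matrix.mulVecLin_apply, ← hb]
      rfl
  rw [Module.End.mem_maxGenEigenspace, Module.End.mem_maxGenEigenspace]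
  constructor
  · rintro ⟨k, hk⟩
    refine ⟨k, ?_⟩
    rw [key k] at hk
    exact Subtype.ext hk
  · rintro ⟨k, hk⟩
    refine ⟨k, ?_⟩
    rw [key k, hk]
    rfl

lemma res_mlt (hx : Res U A x) (hb : Res U B b) (a : K) :
    mlt A B U a = mg (x - 1) b a := by
  have hsub : Res U (A - 1) (x - 1) := hx.sub Res.one
  have e1 : U ⊓ LinearMap.ker (A - 1).mulVecLin ⊓
      Module.End.maxGenEigenspace B.mulVecLin a =
      (LinearMap.ker (x - 1) ⊓ b.maxGenEigenspace a).map U.subtype := by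
    ext v
    rw [Submodule.mem_inf, Submodule.mem_inf, Submodule.mem_map]
    constructor
    · rintro ⟨⟨h1, h2⟩, h3⟩
      refine ⟨⟨v, h1⟩, ⟨?_, (res_gen_iff hb a ⟨v, h1⟩).mp h3⟩, rfl⟩
      rw [LinearMap.mem_ker, Matrix.mulVecLin_apply] at h2
      exact Subtype.ext ((hsub ⟨v, h1⟩).trans h2)
    · rintro ⟨w, ⟨h1, h2⟩, rfl⟩
      refine ⟨⟨w.2, ?_⟩, (res_gen_iff hb a w).mpr h2⟩
      rw [LinearMap.mem_ker, Matrix.mulVecLin_apply]
      have h4 := hsub w
      have h5 : (x - 1) w = 0 := h1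
      rw [h5] at h4
      exact h4.symm
  have e2 : U.map (A - 1).mulVecLin ⊓
      Module.End.maxGenEigenspace B.mulVecLin a =
      (LinearMap.range (x - 1) ⊓ b.maxGenEigenspace a).map U.subtype := by
    ext v
    rw [Submodule.mem_inf, Submodule.mem_map, Submodule.mem_map]
    constructor
    · rintro ⟨⟨w, h1, rfl⟩, h3⟩
      have h4 : (A - 1).mulVecLin w = ((x - 1) ⟨w, h1⟩ : U) := by
        rw [Matrix.mulVecLin_apply]
        exact (hsub ⟨w, h1⟩).symm
      rw [h4] at h3 ⊢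
      exact ⟨(x - 1) ⟨w, h1⟩, ⟨⟨⟨w, h1⟩, rfl⟩, (res_gen_iff hb a _).mp h3⟩, rfl⟩
    · rintro ⟨_, ⟨⟨w, rfl⟩, h2⟩, rfl⟩
      refine ⟨⟨w, w.2, ?_⟩, (res_gen_iff hb a _).mpr h2⟩
      rw [Matrix.mulVecLin_apply]
      exact (hsub w).symm
  unfold mlt mg
  rw [e1, e2, Submodule.finrank_map_subtype_eq, Submodule.finrank_map_subtype_eq]

end res

section grp
variable {K : Type*} [Field K] {m : Type*} [Fintype m] [DecidableEq m]
variable {Γ : Subgroup (Equiv.Perm (m → K))} {J : Matrix m m K}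
  {G : Subgroup (Matrix.GeneralLinearGroup m K)} {π : Matrix m m K}
  {ι : Type*} [Fintype ι] [DecidableEq ι] {W : ι → Submodule K (m → K)}

/-- **The group theorem for strong pairs with a bad place.** -/
theorem isFull_of_eig [IsAlgClosed K] [CharZero K] (D : IsStrongMTPair Γ J G π)
    (hW : IsSplit J G W) (hR : IsStable Γ W)
    (hq : ∀ j, ∃ r k, DenseQuad Γ G (W j) r ∧ (∃ u ∈ G, ∃ g ∈ G, IsBadEig u g (W j) r k) ∧
      ¬ EigExc r k (finrank K (W j))) :
    IsFull J G W := by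
  apply isFull_of_core D hW hR
  · intro j hj
    obtain ⟨r, k, h2, ⟨u, hu, g, hg, h1, h3, -⟩, -⟩ := hq j
    obtain ⟨a, ha, hNN, h0, hrk⟩ := quad_res hW hu h3 h1
    apply h0
    have : Subsingleton (W j) := by
      rw [hj]; infer_instance
    exact LinearMap.ext fun v => Subsingleton.elim _ _
  · intro j p0 S z hz
    obtain ⟨r, k, hd, ⟨u, hu, g, hg, hr0, hqr, hroot, ⟨a0, ha0⟩, hk⟩, hexc⟩ := hq j
    have hsmp := S.ctx.irr.smp_of_dense S.nd (fun τ hτ => S.isTw hτ) S.tsmp S.tmul S.tone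
      S.tinv (dense_res D hW hR j S hr0 hd)
    obtain ⟨x, hx⟩ := exists_res (hW.stable u hu j)
    obtain ⟨y, hy⟩ := exists_res (hW.stable g hg j)
    obtain ⟨hNN, h0, hrk⟩ := quad_of_res hx hqr hr0
    have hxG : x ∈ GR (W j) G := ⟨u, hu, hx⟩
    have hyG : y ∈ GR (W j) G := ⟨g, hg, hy⟩
    have hxL := S.quad_mem hxG hNN
    obtain ⟨w, hw, hxw⟩ := S.ctx.irr.exists_not_comm hxL hNN h0
    have hsimp := toLie_simple S.ctx.irr.br hsmp hxL hw hxw
    obtain ⟨y', hy', hyy', hy'y⟩ := S.inv y hyG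
    obtain ⟨c, hc⟩ := S.sim y hyG
    have hroot' : ∀ a b : K, y.eigenspace a ≠ ⊥ → y.eigenspace b ≠ ⊥ → ∀ n : ℕ, 0 < n →
        a ^ n = b ^ n → a = b := by
      intro a b' ha hb n hn hab
      obtain ⟨v, hv, hv0⟩ := Submodule.exists_mem_ne_zero_of_ne_bot ha
      obtain ⟨w', hw', hw0'⟩ := Submodule.exists_mem_ne_zero_of_ne_bot hb
      have key : ∀ (q : K) (v : W j), v ∈ y.eigenspace q →
          (g : Matrix m m K).mulVec (v : m → K) = q • (v : m → K) := by
        intro q v hv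
        rw [← hy v, Module.End.mem_eigenspace_iff.mp hv]
        rfl
      exact hroot a b' v v.2 w' w'.2 (fun h0 => hv0 (Subtype.ext h0))
        (fun h0 => hw0' (Subtype.ext h0)) (key a v hv) (key b' w' hw') n hn hab
    have hrange : LinearMap.range (x - 1) ≤ y.maxGenEigenspace a0 := by
      rintro _ ⟨v, rfl⟩
      have h3 := ha0 v v.2
      rw [← (hx.sub Res.one) v] at h3
      exact (res_gen_iff hy a0 _).mp h3
    have hconj : ∀ z ∈ MTP.SL (form J W j) (GR (W j) G) (MTP.TR (W j) Γ) p0,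
        y * z * y' ∈ MTP.SL (form J W j) (GR (W j) G) (MTP.TR (W j) Γ) p0 :=
      fun z hz => S.lie_conj hyG hy' hyy' hy'y hz
    obtain ⟨s, hssk, hsnorm, hsdiag, ⟨τ, hτ⟩, -, f, hf⟩ :=
      exists_log_bij S.nd hy'y hc hroot' hconj h0 hrange
    have hsL := S.ctx.irr.mem_of_normalize S.ctx.nd hssk hsnorm
    have hcard : {q | ml (x - 1) s q ≠ 0}.ncard = k := by
      rw [← hk, ← hf.image_eq, hf.injOn.ncard_image]
      congr 1
      ext a
      rw [Set.mem_ofPred_eq, Set.mem_ofPred_eq, res_mlt hx hy]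
    rcases simple_eig (L := toLie _ S.ctx.irr.br) S.ctx S.alt hsimp hxL hNN h0 hsL hsdiag hτ
      with h | h
    · exact h z hz
    · rw [hrk, hcard] at h
      exact absurd h hexc

end grp

end TR
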