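import Pool.Agent.Helper4.TR.Ws
import Pool.Agent.Helper16.TR.Q9c
import Pool.Agent.Helper21.TR.EigDiag

/-!
A place of bad reduction for the middle exterior power of the standard representation of
`SL_2n`, `n` odd, with two eigenvalues on the abelian part.
-/

open Module MTPairs

namespace TR

open TR.W3

/-- The middle exterior power, two eigenvalues. -/
theorem strong_wedge_eig (K : Type*) [Field K] [CharZero K] {n : ℕ} (hn : Odd n) (hn3 : 3 ≤ n) :
    ∃ (m : Type) (_ : Fintype m) (_ : DecidableEq m)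
      (J : Matrix m m K) (G : Subgroup (Matrix.GeneralLinearGroup m K)) (π : Matrix m m K),
      Fintype.card m = (2 * n).choose n ∧ IsStrongMTPair ⊥ J G π ∧
      IsSplit J G (fun _ : Unit => (⊤ : Submodule K (m → K))) ∧
      (∃ u ∈ G, ∃ g ∈ G, IsBadEig u g ⊤ ((2 * n - 2).choose (n - 1)) 2) ∧
      ¬ IsFull J G (fun _ : Unit => (⊤ : Submodule K (m → K))) := by
  classical
  have hpair : IsMTPair (Jw K n) (GenG (Lam K (Fin (2 * n)) n)) :=
    isMTPair_gen (Jw_transpose hn) (Jw_det hn) Lam_idem Lam_lag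
  set i0 : Fin (2 * n) := ⟨0, by omega⟩ with hi0
  set i1 : Fin (2 * n) := ⟨1, by omega⟩ with hi1
  have h01 : i0 ≠ i1 := by
    intro h; exact absurd (congrArg Fin.val h) (by simp [i0, i1])
  refine ⟨Ix (Fin (2 * n)) n, inferInstance, inferInstance, Jw K n,
    GenG (Lam K (Fin (2 * n)) n), M K n i0 i0, ?_, ?_, ?_, ?_, ?_⟩
  · rw [Fintype.card_finset_len, Fintype.card_fin]
  · refine ⟨hpair.skew, hpair.det, hpair.sim, hpair.closed, ?_, ?_, ?_, ?_⟩
    · intro θ hθ
      rw [Subgroup.mem_bot] at hθ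
      subst hθ
      exact ⟨RingEquiv.refl K, fun v w => rfl, fun c v => rfl⟩
    · intro θ hθ g hg
      rw [Subgroup.mem_bot] at hθ
      subst hθ
      exact ⟨g, hg, fun v => rfl⟩
    · exact GenG_cochar (M_diag_mul _ _) (Or.inl ⟨i0, rfl⟩)
    · intro H hH hall
      apply GenG_le hH
      intro P hP
      obtain ⟨g, hg, rfl⟩ := conj_all i0 hP
      apply hall
      have hg1 : ((g⁻¹ : Matrix.GeneralLinearGroup (Ix (Fin (2 * n)) n) K) :
          Matrix (Ix (Fin (2 * n)) n) (Ix (Fin (2 * n)) n) K) *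
          (g : Matrix (Ix (Fin (2 * n)) n) (Ix (Fin (2 * n)) n) K) = 1 := by
        rw [← Units.val_mul, inv_mul_cancel, Units.val_one]
      refine ⟨1, Subgroup.one_mem _, g, hg, fun v => ?_⟩
      rw [Equiv.Perm.one_apply, Equiv.Perm.one_apply, Matrix.mulVec_mulVec,
        Matrix.mulVec_mulVec, mul_assoc, hg1, mul_one]
  · refine ⟨?_, ?_, fun _ _ _ _ _ => trivial, ?_, ?_⟩
    · rw [DirectSum.isInternal_submodule_iff_iSupIndep_and_iSup_eq_top]
      refine ⟨?_, by simp⟩
      intro i
      simp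
    · intro i j hij
      exact absurd (Subsingleton.elim i j) hij
    · intro _ U _ hU
      apply irr
      intro π hπ v hv
      obtain ⟨g, hg, hgt⟩ := (GenG_cochar (Lam_idem π hπ) hπ).2 2 two_ne_zero
      have h1 := hU g hg v hv
      have h2 : (g : Matrix _ _ K).mulVec v = π.mulVec v + v := by
        rw [hgt]
        have : (2 : K) • π + (1 - π) = π + 1 := by rw [two_smul]; abel
        rw [this, Matrix.add_mulVec, Matrix.one_mulVec]
      rw [h2] at h1
      have := U.sub_mem h1 hv
      rwa [add_sub_cancel_right] at this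
    · intro i j hij
      exact absurd (Subsingleton.elim i j) hij
  · have hP0 : M K n i0 i0 ∈ Lam K (Fin (2 * n)) n := Or.inl ⟨i0, rfl⟩
    have hP1 : M K n i1 i1 ∈ Lam K (Fin (2 * n)) n := Or.inl ⟨i1, rfl⟩
    obtain ⟨g0, hg0, hg0'⟩ := (GenG_cochar (Lam_idem _ hP0) hP0).2 2 two_ne_zero
    obtain ⟨g1, hg1, hg1'⟩ := (GenG_cochar (Lam_idem _ hP1) hP1).2 2 two_ne_zero
    have hdiag : ∀ a : Fin (2 * n), (2 : K) • M K n a a + (1 - M K n a a) =
        Matrix.diagonal (fun S : Ix (Fin (2 * n)) n => if a ∈ S.1 then (2 : K) else 1) := by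
      intro a
      rw [M_same, ← Matrix.diagonal_one, ← Matrix.diagonal_smul, Matrix.diagonal_sub,
        Matrix.diagonal_add]
      congr 1
      funext S
      by_cases h : a ∈ S.1
      · simp [h]
      · simp [h]
    let e : Ix (Fin (2 * n)) n → ℤ := fun S =>
      (if i0 ∈ S.1 then 1 else 0) + (if i1 ∈ S.1 then 1 else 0)
    have hg : ((g0 * g1 : Matrix.GeneralLinearGroup (Ix (Fin (2 * n)) n) K) : Matrix _ _ K) =
        Matrix.diagonal (fun S => (2 : K) ^ e S) := by
      rw [Units.val_mul, hg0', hg1', hdiag, hdiag, Matrix.diagonal_mul_diagonal]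
      congr 1
      funext S
      simp only [e]
      by_cases h0 : i0 ∈ S.1 <;> by_cases h1 : i1 ∈ S.1 <;>
        simp [h0, h1]
      norm_num [zpow_ofNat]
    refine ⟨un K n h01, un_mem h01, g0 * g1, Subgroup.mul_mem _ hg0 hg1, ?_⟩
    have eu : (un K n h01 : Matrix (Ix (Fin (2 * n)) n) (Ix (Fin (2 * n)) n) K) - 1 =
        M K n i0 i1 := by
      change 1 + M K n i0 i1 - 1 = _
      abel
    refine isBadEig_of_diag e hg
      (Finset.univ.filter fun S : Ix (Fin (2 * n)) n => ¬ (i1 ∈ S.1 ∧ i0 ∉ S.1))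
      (Finset.univ.filter fun S : Ix (Fin (2 * n)) n => i0 ∈ S.1 ∧ i1 ∉ S.1)
      ?_ ?_ ?_ (e0 := 1) ?_ (Nat.choose_pos (by omega)) ?_ ?_
    · rw [eu]; exact Wdg.ker_M h01
    · rw [eu]; exact Wdg.map_M h01
    · intro S hS
      rw [Finset.mem_filter] at hS ⊢
      exact ⟨hS.1, fun h => hS.2.2 h.1⟩
    · intro S hS
      rw [Finset.mem_filter] at hS
      simp only [e]
      rw [if_pos hS.2.1, if_neg hS.2.2]
      rfl
    · have h1 := card_Pij (k := n) h01 (by omega)
      rw [Fintype.card_fin] at h1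
      rw [← h1, Fintype.card_of_subtype]
      intro S
      rw [Finset.mem_filter]
      exact ⟨fun h => h.2, fun h => ⟨Finset.mem_univ _, h⟩⟩
    · have hex : ∀ T : Finset (Fin (2 * n)), T.card ≤ n → ∀ T' : Finset (Fin (2 * n)),
          Disjoint T T' → T.card + (T'.card + n - T.card) ≤ 2 * n →
          ∃ S : Ix (Fin (2 * n)) n, T ⊆ S.1 ∧ Disjoint S.1 T' := by
        intro T hT T' hTT' hcard
        have h2 : T ⊆ T'ᶜ := by
          intro x hx
          rw [Finset.mem_compl]
          exact Finset.disjoint_left.mp hTT' hx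
        have h3 : n ≤ (T'ᶜ).card := by
          rw [Finset.card_compl, Fintype.card_fin]
          omega
        obtain ⟨S, hS1, hS2, hS3⟩ := Finset.exists_subsuperset_card_eq h2 hT h3
        refine ⟨⟨S, hS3⟩, hS1, ?_⟩
        rw [Finset.disjoint_left]
        intro x hx hx'
        exact (Finset.mem_compl.mp (hS2 hx)) hx'
      have himg : (((Finset.univ.filter fun S : Ix (Fin (2 * n)) n => ¬ (i1 ∈ S.1 ∧ i0 ∉ S.1)) \
          (Finset.univ.filter fun S : Ix (Fin (2 * n)) n => i0 ∈ S.1 ∧ i1 ∉ S.1)).image e) =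
          {0, 2} := by
        ext z
        rw [Finset.mem_image, Finset.mem_insert, Finset.mem_singleton]
        constructor
        · rintro ⟨S, hS, rfl⟩
          rw [Finset.mem_sdiff, Finset.mem_filter, Finset.mem_filter] at hS
          obtain ⟨⟨-, h1⟩, h2⟩ := hS
          simp only [e]
          by_cases a0 : i0 ∈ S.1 <;> by_cases a1 : i1 ∈ S.1
          · right; rw [if_pos a0, if_pos a1]; rfl
          · exact absurd ⟨Finset.mem_univ _, a0, a1⟩ h2
          · exact absurd ⟨a1, a0⟩ h1
          · left; rw [if_neg a0, if_neg a1]; rfl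
        · have c2 : ({i0, i1} : Finset (Fin (2 * n))).card = 2 := Finset.card_pair h01
          rintro (rfl | rfl)
          · obtain ⟨S, -, hS⟩ := hex ∅ (by simp) {i0, i1} (Finset.disjoint_empty_left _)
              (by rw [c2]; simp; omega)
            rw [Finset.disjoint_left] at hS
            have a0 : i0 ∉ S.1 := fun h => hS h (by simp)
            have a1 : i1 ∉ S.1 := fun h => hS h (by simp)
            refine ⟨S, ?_, ?_⟩
            · rw [Finset.mem_sdiff, Finset.mem_filter, Finset.mem_filter]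
              exact ⟨⟨Finset.mem_univ _, fun h => a1 h.1⟩, fun h => a0 h.2.1⟩
            · simp only [e]
              rw [if_neg a0, if_neg a1]
              rfl
          · obtain ⟨S, hS, -⟩ := hex {i0, i1} (by rw [c2]; omega) ∅
              (Finset.disjoint_empty_right _) (by rw [c2]; simp; omega)
            have a0 : i0 ∈ S.1 := hS (by simp)
            have a1 : i1 ∈ S.1 := hS (by simp)
            refine ⟨S, ?_, ?_⟩
            · rw [Finset.mem_sdiff, Finset.mem_filter, Finset.mem_filter]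
              exact ⟨⟨Finset.mem_univ _, fun h => h.2 a0⟩, fun h => h.2.2 a1⟩
            · simp only [e]
              rw [if_pos a0, if_pos a1]
              rfl
      rw [himg]
      rfl
  · intro hfull
    obtain ⟨g, hg, hgd⟩ := exists_not_nor (K := K) hn hn3
    apply hgd
    have h1 := hfull g ⟨1, hg⟩ (fun _ _ _ => trivial)
    exact GenG_le (Nor_closed _) Lam_nor h1

end TR
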