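import Pool.Agent.Helper21.TR.Rat1
import Pool.Agent.Helper21.TR.EigDiag
import Pool.Agent.Helper21.TR.WedgeEig
import Pool.Agent.Helper21.TR.SpinEig

/-!
Strong pairs with the data of a bad place: the exact criterion.
-/

open Module MTPairs

namespace TR

section one
variable {K : Type*} [Field K] {m : Type*} [Fintype m] [DecidableEq m]

/-- The case `g = 1`. -/
lemma isBadEig_one {u : Matrix.GeneralLinearGroup m K} {r : ℕ} (hr : 0 < r)
    (hq : IsQuadraticOn u ⊤ r) :
    IsBadEig u 1 ⊤ r (if 2 * r = Fintype.card m then 0 else 1) := by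
  classical
  have hg : ((1 : Matrix.GeneralLinearGroup m K) : Matrix m m K) =
      Matrix.diagonal (fun _ => (1 : K)) := by
    rw [Units.val_one, Matrix.diagonal_one]
  have hmax : ∀ a : K, Module.End.maxGenEigenspace
      ((1 : Matrix.GeneralLinearGroup m K) : Matrix m m K).mulVecLin a =
      if a = 1 then ⊤ else ⊥ := by
    intro a
    rw [hg, maxGen_diagonal]
    split_ifs with ha
    · rw [eq_top_iff]
      intro v _ p hp
      exact absurd (Finset.mem_filter.mpr ⟨Finset.mem_univ p, ha.symm⟩) hp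
    · rw [eq_bot_iff]
      intro v hv
      rw [Submodule.mem_bot]
      funext p
      exact hv p (fun hp => ha (Finset.mem_filter.mp hp).2.symm)
  set N := (u : Matrix m m K) - 1 with hN
  have hrange : finrank K ↥((⊤ : Submodule K (m → K)).map N.mulVecLin) = r := hq.2
  have hdim := LinearMap.finrank_range_add_finrank_ker N.mulVecLin
  rw [← Submodule.map_top, hrange, Module.finrank_fintype_fun_eq_card] at hdim
  have hle : r ≤ finrank K ↥(LinearMap.ker N.mulVecLin) := by
    rw [← hrange]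
    apply Submodule.finrank_mono
    rintro _ ⟨v, hv, rfl⟩
    rw [LinearMap.mem_ker, Matrix.mulVecLin_apply, Matrix.mulVecLin_apply]
    exact hq.1 v hv
  have hm1 : mlt (u : Matrix m m K) (1 : Matrix.GeneralLinearGroup m K) ⊤ 1 =
      Fintype.card m - 2 * r := by
    rw [mlt, hmax, if_pos rfl, top_inf_eq, inf_top_eq, inf_top_eq, ← hN, hrange]
    omega
  have hm0 : ∀ a : K, a ≠ 1 →
      mlt (u : Matrix m m K) (1 : Matrix.GeneralLinearGroup m K) ⊤ a = 0 := by
    intro a ha
    rw [mlt, hmax, if_neg ha, inf_bot_eq, inf_bot_eq, finrank_bot]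
  refine ⟨hr, hq, ?_, ⟨1, ?_⟩, ?_⟩
  · intro a b v _ w _ hv hw h1 h2 n _ _
    rw [Units.val_one, Matrix.one_mulVec] at h1 h2
    have h3 : ∀ (c : K) (v : m → K), v ≠ 0 → v = c • v → c = 1 := by
      intro c v hv h
      have h4 : (1 - c) • v = 0 := by rw [sub_smul, one_smul, ← h, sub_self]
      exact (sub_eq_zero.mp ((smul_eq_zero.mp h4).resolve_right hv)).symm
    rw [h3 a v hv h1, h3 b w hw h2]
  · intro v _
    rw [hmax, if_pos rfl]
    trivial
  · have hset : {a : K | mlt (u : Matrix m m K) (1 : Matrix.GeneralLinearGroup m K) ⊤ a ≠ 0} =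
        if 2 * r = Fintype.card m then ∅ else {1} := by
      split_ifs with h
      · rw [Set.eq_empty_iff_forall_notMem]
        intro a ha
        by_cases h1 : a = 1
        · apply ha
          rw [h1, hm1, h, Nat.sub_self]
        · exact ha (hm0 a h1)
      · ext a
        rw [Set.mem_ofPred_eq, Set.mem_singleton_iff]
        constructor
        · intro ha
          by_contra h1
          exact ha (hm0 a h1)
        · rintro rfl
          rw [hm1]
          omega
    rw [hset]
    split_ifs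
    · exact Set.ncard_empty K
    · exact Set.ncard_singleton 1

end one

/-- An example with trivial symmetries. -/
def HasEig (K : Type*) [Field K] (r k D : ℕ) : Prop :=
  ∃ (m : Type) (_ : Fintype m) (_ : DecidableEq m)
      (J : Matrix m m K) (G : Subgroup (Matrix.GeneralLinearGroup m K)) (π : Matrix m m K),
      Fintype.card m = D ∧ IsStrongMTPair ⊥ J G π ∧
      IsSplit J G (fun _ : Unit => (⊤ : Submodule K (m → K))) ∧
      (∃ u ∈ G, ∃ g ∈ G, IsBadEig u g ⊤ r k) ∧
      ¬ IsFull J G (fun _ : Unit => (⊤ : Submodule K (m → K)))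

lemma hasEig_one {K : Type*} [Field K] {r D : ℕ} (hr : 0 < r) (h : MTP.HasEx K r D) :
    HasEig K r (if 2 * r = D then 0 else 1) D := by
  obtain ⟨m, i1, i2, J, G, π, hm, h1, h2, ⟨u, hu, h3⟩, h4⟩ := h
  refine ⟨m, i1, i2, J, G, π, hm, h1, h2, ⟨u, hu, 1, G.one_mem, ?_⟩, h4⟩
  rw [← hm]
  exact isBadEig_one hr h3

/-- Every exceptional triple is realised. -/
theorem hasEig_of_exc (K : Type*) [Field K] [CharZero K] {r k D : ℕ} (h : EigExc r k D) :
    HasEig K r k D := by
  rcases h with ⟨n, hn, hn3, rfl, rfl, hk⟩ | ⟨n, hn, hn5, rfl, ⟨rfl, hk⟩ | ⟨rfl, rfl⟩⟩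
  · have hlt := choose_strict hn3
    rcases hk with rfl | rfl
    · have h1 := hasEig_one (Nat.choose_pos (by omega)) (MTP.hasEx_wedge K hn hn3)
      rwa [if_neg (by omega)] at h1
    · exact strong_wedge_eig K hn hn3
  · have hlt : 2 * 2 ^ (n - 2) < 2 ^ n := by
      have e : 2 ^ n = 2 * (2 * 2 ^ (n - 2)) := by
        rw [← pow_succ', ← pow_succ']
        congr 1
        omega
      have hpos : 0 < 2 ^ (n - 2) := by positivity
      omega
    rcases hk with rfl | rfl
    · have h1 := hasEig_one (by positivity) (MTP.hasEx_spin K hn hn5).1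
      rwa [if_neg (by omega)] at h1
    · exact strong_spin_eig K hn hn5
  · have e : 2 * 2 ^ (n - 1) = 2 ^ n := by
      rw [← pow_succ']
      congr 1
      omega
    have h1 := hasEig_one (by positivity) (MTP.hasEx_spin K hn hn5).2
    rwa [if_pos e] at h1

/-- **The exact criterion.** -/
theorem rational_eig {K : Type*} [Field K] [IsAlgClosed K] [CharZero K]
    (R : Set (ℕ × ℕ × ℕ)) :
    (∀ (m ι : Type) [Fintype m] [DecidableEq m] [Fintype ι] [DecidableEq ι]
      (Γ : Subgroup (Equiv.Perm (m → K))) (J : Matrix m m K)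
      (G : Subgroup (Matrix.GeneralLinearGroup m K)) (π : Matrix m m K)
      (W : ι → Submodule K (m → K)), IsStrongMTPair Γ J G π → IsSplit J G W → IsStable Γ W →
      (∀ j, ∃ r k : ℕ, DenseQuad Γ G (W j) r ∧ (∃ u ∈ G, ∃ g ∈ G, IsBadEig u g (W j) r k) ∧
        (r, k, finrank K (W j)) ∈ R) → IsFull J G W) ↔
    ∀ r k D : ℕ, (r, k, D) ∈ R → ¬ EigExc r k D := by
  constructor
  · rintro h r k D hr hexc
    obtain ⟨m, i1, i2, J, G, π, hm, g1, g2, ⟨u, hu, g, hg, hb⟩, g4⟩ := hasEig_of_exc K hexc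
    apply g4
    apply h m Unit ⊥ J G π _ g1 g2
    · intro θ hθ _ v _
      trivial
    · intro _
      refine ⟨r, k, MTP.dense_bot ⟨u, hu, hb.2.1⟩, ⟨u, hu, g, hg, hb⟩, ?_⟩
      rw [finrank_top, Module.finrank_fintype_fun_eq_card, hm]
      exact hr
  · intro hR m ι _ _ _ _ Γ J G π W D hW hΓ hq
    apply isFull_of_eig D hW hΓ
    intro j
    obtain ⟨r, k, hd, hb, hr⟩ := hq j
    exact ⟨r, k, hd, hb, hR r k _ hr⟩

end TR
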