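import Pool.Agent.Helper21.TR.Defs

/-!
Simply laced systems: basic facts on the roots of value two.
-/

set_option linter.unusedSectionVars false

namespace TR

open Relation

variable {K : Type*} [Field K] [CharZero K] {M : Type*} [AddCommGroup M] [Module K M]
  {B : LinearMap.BilinForm K M} {s : M →ₗ[K] K} {Φ X : Finset M}

namespace SL

variable (h : SL B s Φ X)
include h

/-- The values of the coweight on the roots. -/
lemma s_root {a : M} (ha : a ∈ Φ) : s a = 0 ∨ s a = 2 ∨ s a = -2 := by
  obtain ⟨x, hx, hxa⟩ := h.faith a ha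
  have h1 := h.sx x hx
  have h2 := h.sx _ (h.xsub x hx a ha hxa)
  rw [map_sub] at h2
  rcases h1 with h1 | h1 <;> rcases h2 with h2 | h2 <;> rw [h1] at h2
  · left; linear_combination -h2
  · right; left; linear_combination -h2
  · right; right; linear_combination -h2
  · left; linear_combination -h2

lemma add_mem {a b : M} (ha : a ∈ Φ) (hb : b ∈ Φ) (hab : B a b = -1) : a + b ∈ Φ := by
  have := h.sub a ha (-b) (h.neg b hb) (by rw [map_neg, hab, neg_neg])
  rwa [sub_neg_eq_add] at this

lemma xadd {x a : M} (hx : x ∈ X) (ha : a ∈ Φ) (hxa : B x a = -1) : x + a ∈ X := by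
  have := h.xsub x hx (-a) (h.neg a ha) (by rw [map_neg, hxa, neg_neg])
  rwa [sub_neg_eq_add] at this

/-- Two different roots of value two are orthogonal or adjacent. -/
lemma pp {a b : M} (ha : a ∈ Φ) (hb : b ∈ Φ) (sa : s a = 2) (sb : s b = 2) (hab : a ≠ b) :
    B a b = 0 ∨ B a b = 1 := by
  have hne : a ≠ -b := by
    intro h1
    rw [h1, map_neg, sb] at sa
    norm_num at sa
  rcases h.pair a ha b hb hab hne with h1 | h1 | h1
  · exfalso
    have h2 := h.s_root (h.add_mem ha hb h1)
    rw [map_add, sa, sb] at h2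
    norm_num at h2
  · exact Or.inl h1
  · exact Or.inr h1

lemma sx_of_one {x a : M} (hx : x ∈ X) (ha : a ∈ Φ) (sa : s a = 2) (hxa : B x a = 1) :
    s x = 1 := by
  have h2 := h.sx _ (h.xsub x hx a ha hxa)
  rcases h.sx x hx with h1 | h1
  · exact h1
  · exfalso
    rw [map_sub, h1, sa] at h2
    norm_num at h2

lemma sx_of_neg_one {x a : M} (hx : x ∈ X) (ha : a ∈ Φ) (sa : s a = 2) (hxa : B x a = -1) :
    s x = -1 := by
  have h2 := h.sx _ (h.xadd hx ha hxa)
  rcases h.sx x hx with h1 | h1
  · exfalso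
    rw [map_add, h1, sa] at h2
    norm_num at h2
  · exact h1

/-- A positive weight takes the values `0` and `1` on the roots of value two. -/
lemma xp {x a : M} (hx : x ∈ X) (s1 : s x = 1) (ha : a ∈ Φ) (sa : s a = 2) :
    B x a = 0 ∨ B x a = 1 := by
  rcases h.small x hx a ha with h1 | h1 | h1
  · exfalso
    have := h.sx_of_neg_one hx ha sa h1
    rw [s1] at this
    norm_num at this
  · exact Or.inl h1
  · exact Or.inr h1

/-- Roots of value two on which a weight is one are adjacent. -/
lemma clique {x a b : M} (hx : x ∈ X) (ha : a ∈ Φ) (hb : b ∈ Φ) (sa : s a = 2) (sb : s b = 2)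
    (xa : B x a = 1) (xb : B x b = 1) (hab : a ≠ b) : B a b = 1 := by
  rcases h.pp ha hb sa sb hab with h1 | h1
  · exfalso
    have h2 := h.xsub x hx a ha xa
    have h3 : B (x - a) b = 1 := by
      rw [map_sub, LinearMap.sub_apply, xb, h1, sub_zero]
    have h4 := h.sx_of_one h2 hb sb h3
    have h5 := h.sx_of_one hx ha sa xa
    rw [map_sub, h5, sa] at h4
    norm_num at h4
  · exact h1

/-- If a weight is one on `a` then it vanishes on all roots of value two orthogonal to `a`. -/
lemma x_orth {x a b : M} (hx : x ∈ X) (ha : a ∈ Φ) (hb : b ∈ Φ) (sa : s a = 2) (sb : s b = 2)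
    (xa : B x a = 1) (hab : B a b = 0) : B x b = 0 := by
  rcases h.xp hx (h.sx_of_one hx ha sa xa) hb sb with h1 | h1
  · exact h1
  · exfalso
    have hne : a ≠ b := by
      rintro rfl
      rw [h.two a ha] at hab
      norm_num at hab
    rw [h.clique hx ha hb sa sb xa h1 hne] at hab
    norm_num at hab

/-- The pairing of roots of different values. -/
lemma pair_zero_two {g a : M} (hg : g ∈ Φ) (sg : s g = 0) (ha : a ∈ Φ) (sa : s a = 2) :
    B a g = -1 ∨ B a g = 0 ∨ B a g = 1 := by
  apply h.pair a ha g hg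
  · rintro rfl
    rw [sg] at sa
    norm_num at sa
  · rintro rfl
    rw [map_neg, sg] at sa
    norm_num at sa

/-- The reflection of a root of value two in a root of value zero. -/
lemma refl_mem {g a : M} (hg : g ∈ Φ) (sg : s g = 0) (ha : a ∈ Φ) (sa : s a = 2) :
    a - B a g • g ∈ Φ := by
  rcases h.pair_zero_two hg sg ha sa with h1 | h1 | h1
  · rw [h1, neg_one_smul, sub_neg_eq_add]
    exact h.add_mem ha hg h1
  · rw [h1, zero_smul, sub_zero]
    exact ha
  · rw [h1, one_smul]
    exact h.sub a ha g hg h1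

lemma refl_refl {g a : M} (hg : g ∈ Φ) :
    (a - B a g • g) - B (a - B a g • g) g • g = a := by
  rw [map_sub, LinearMap.sub_apply, map_smul, LinearMap.smul_apply, h.two g hg, smul_eq_mul]
  module

open Classical in
/-- The roots of value two on which the weight is one. -/
noncomputable def R (_ : SL B s Φ X) (x : M) : Finset M :=
  Φ.filter (fun a => s a = 2 ∧ B x a = 1)

lemma mem_R {x a : M} : a ∈ h.R x ↔ a ∈ Φ ∧ s a = 2 ∧ B x a = 1 := by
  classical
  rw [R, Finset.mem_filter]

/-- One step does not change the number of roots. -/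
lemma card_step {x y : M} (hst : Step (fun x a => B x a) s Φ x y) :
    (h.R x).card = (h.R y).card := by
  classical
  obtain ⟨g, hg, sg, xg, rfl⟩ := hst
  simp only at xg
  have key : ∀ a ∈ Φ, s a = 2 → B (x - g) (a - B a g • g) = B x a := by
    intro a _ _
    simp only [map_sub, LinearMap.sub_apply, map_smul, xg, h.two g hg, smul_eq_mul, h.symm g a]
    ring
  have hs : ∀ a, s (a - B a g • g) = s a := by
    intro a
    rw [map_sub, map_smul, sg, smul_zero, sub_zero]
  refine Finset.card_nbij' (fun a => a - B a g • g) (fun a => a - B a g • g) ?_ ?_ ?_ ?_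
  · intro a ha
    rw [Finset.mem_coe, h.mem_R] at *
    obtain ⟨h1, h2, h3⟩ := ha
    exact ⟨h.refl_mem hg sg h1 h2, by rw [hs, h2], by rw [key a h1 h2, h3]⟩
  · intro a ha
    rw [Finset.mem_coe, h.mem_R] at *
    obtain ⟨h1, h2, h3⟩ := ha
    refine ⟨h.refl_mem hg sg h1 h2, by rw [hs, h2], ?_⟩
    have h4 := key _ (h.refl_mem hg sg h1 h2) (by rw [hs, h2])
    rw [h.refl_refl hg] at h4
    rw [← h4, h3]
  · intro a _
    exact h.refl_refl hg
  · intro a _
    exact h.refl_refl hg

/-- Induction along chains of positive weights. -/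
lemma chain_ind {x : M} (hx : x ∈ X) (sx : s x = 1) (C : M → Prop) (h0 : C x)
    (hstep : ∀ y z, y ∈ X → s y = 1 → z ∈ X → s z = 1 →
      Step (fun x a => B x a) s Φ y z → C y → C z)
    {y : M} (hy : y ∈ X) (sy : s y = 1) : C y := by
  have h1 := h.chain x hx y hy sx sy
  have h2 : y ∈ X ∧ s y = 1 ∧ C y := by
    clear hy sy
    induction h1 with
    | refl => exact ⟨hx, sx, h0⟩
    | @tail b c _ hst ih =>
      obtain ⟨i1, i2, i3⟩ := ih
      obtain ⟨g, hg, sg, xg, rfl⟩ := hst
      have j1 := h.xsub _ i1 g hg xg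
      have j2 : s (b - g) = 1 := by rw [map_sub, i2, sg, sub_zero]
      exact ⟨j1, j2, hstep _ _ i1 i2 j1 j2 ⟨g, hg, sg, xg, rfl⟩ i3⟩
  exact h2.2.2

lemma card_R {x y : M} (hx : x ∈ X) (hy : y ∈ X) (sx : s x = 1) (sy : s y = 1) :
    (h.R x).card = (h.R y).card := by
  refine h.chain_ind hx sx (fun y => (h.R x).card = (h.R y).card) rfl ?_ hy sy
  intro y z _ _ _ _ hst ih
  rw [ih, h.card_step hst]

/-- A weight is determined by its set of roots. -/
lemma R_inj {x y : M} (hx : x ∈ X) (hy : y ∈ X) (sx : s x = 1) (sy : s y = 1)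
    (hR : ∀ a ∈ Φ, s a = 2 → (B x a = 1 ↔ B y a = 1)) : x = y := by
  have h2 : ∀ a ∈ Φ, s a = 2 → B x a = B y a := by
    intro a ha sa
    rcases h.xp hx sx ha sa with h1 | h1
    · rcases h.xp hy sy ha sa with h3 | h3
      · rw [h1, h3]
      · exfalso
        rw [(hR a ha sa).mpr h3] at h1
        exact one_ne_zero h1
    · rw [h1, (hR a ha sa).mp h1]
  apply h.sep x hx y hy
  intro a ha
  rcases h.s_root ha with sa | sa | sa
  · obtain ⟨k, hk, sk, hak⟩ := h.hit a ha sa
    rcases h.pair_zero_two ha sa hk sk with h1 | h1 | h1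
    · have h3 := h2 _ (h.add_mem hk ha h1) (by rw [map_add, sk, sa, add_zero])
      rw [map_add, map_add, h2 k hk sk] at h3
      exact add_left_cancel h3
    · exact absurd (by rw [h.symm]; exact h1) hak
    · have h3 := h2 _ (h.sub k hk a ha h1) (by rw [map_sub, sk, sa, sub_zero])
      rw [map_sub, map_sub, h2 k hk sk] at h3
      exact sub_right_injective h3
  · exact h2 a ha sa
  · have h3 := h2 _ (h.neg a ha) (by rw [map_neg, sa, neg_neg])
    rw [map_neg, map_neg] at h3
    exact neg_injective h3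

/-- The fourth vertex of a square. -/
lemma square {i j g : M} (hi : i ∈ Φ) (hj : j ∈ Φ) (hg : g ∈ Φ) (si : s i = 2) (sj : s j = 2)
    (sg : s g = 2) (hij : B i j = 0) (gi : B g i = 1) (gj : B g j = 1) :
    i + j - g ∈ Φ ∧ s (i + j - g) = 2 ∧ B (i + j - g) i = 1 ∧ B (i + j - g) j = 1 ∧
      B (i + j - g) g = 0 := by
  refine ⟨?_, ?_, ?_, ?_, ?_⟩
  · have h1 : i - g ∈ Φ := h.sub i hi g hg (by rw [h.symm]; exact gi)
    have h2 := h.add_mem h1 hj (by rw [map_sub, LinearMap.sub_apply, hij, gj, zero_sub])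
    have e : i - g + j = i + j - g := by abel
    rwa [e] at h2
  · rw [map_sub, map_add, si, sj, sg]; ring
  · rw [map_sub, map_add, LinearMap.sub_apply, LinearMap.add_apply, h.two i hi, h.symm j i, hij,
      gi]; ring
  · rw [map_sub, map_add, LinearMap.sub_apply, LinearMap.add_apply, h.two j hj, hij, gj]; ring
  · rw [map_sub, map_add, LinearMap.sub_apply, LinearMap.add_apply, h.two g hg, h.symm i g,
      h.symm j g, gi, gj]; ring

/-- Distance at most two. -/
def Near (B : LinearMap.BilinForm K M) (s : M →ₗ[K] K) (Φ : Finset M) (a b : M) : Prop :=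
  a = b ∨ B a b = 1 ∨ ∃ c ∈ Φ, s c = 2 ∧ B c a = 1 ∧ B c b = 1

/-- The distance stays at most two. -/
lemma near_step {a b d : M} (ha : a ∈ Φ) (hb : b ∈ Φ) (hd : d ∈ Φ) (sa : s a = 2) (sb : s b = 2)
    (sd : s d = 2) (hab : Near B s Φ a b) (hbd : b = d ∨ B b d = 1) : Near B s Φ a d := by
  rcases hbd with rfl | hbd
  · exact hab
  rcases hab with rfl | hab | ⟨c, hc, sc, ca, cb⟩
  · exact Or.inr (Or.inl hbd)
  · exact Or.inr (Or.inr ⟨b, hb, sb, by rw [h.symm]; exact hab, hbd⟩)
  · by_cases had : a = d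
    · exact Or.inl had
    rcases h.pp ha hd sa sd had with had0 | had1
    swap
    · exact Or.inr (Or.inl had1)
    by_cases hab' : a = b
    · rw [hab'] at had0
      rw [had0] at hbd
      exact absurd hbd.symm one_ne_zero
    rcases h.pp ha hb sa sb hab' with hab0 | hab1
    swap
    · exact Or.inr (Or.inr ⟨b, hb, sb, by rw [h.symm]; exact hab1, hbd⟩)
    by_cases hcd : c = d
    · rw [hcd] at ca
      rw [h.symm, had0] at ca
      exact absurd ca.symm one_ne_zero
    rcases h.pp hc hd sc sd hcd with hcd0 | hcd1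
    swap
    · exact Or.inr (Or.inr ⟨c, hc, sc, ca, hcd1⟩)
    obtain ⟨q1, q2, q3, q4, q5⟩ := h.square ha hb hc sa sb sc hab0 ca cb
    refine Or.inr (Or.inr ⟨a + b - c, q1, q2, q3, ?_⟩)
    rw [map_sub, map_add, LinearMap.sub_apply, LinearMap.add_apply, had0, hbd, hcd0]; ring

/-- Any two roots of value two have distance at most two. -/
lemma near {i k : M} (hi : i ∈ Φ) (hk : k ∈ Φ) (si : s i = 2) (sk : s k = 2) :
    Near B s Φ i k := by
  obtain ⟨x, hx, xi⟩ := h.faith i hi
  obtain ⟨y, hy, yk⟩ := h.faith k hk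
  have sx := h.sx_of_one hx hi si xi
  have sy := h.sx_of_one hy hk sk yk
  have key : ∀ k ∈ Φ, s k = 2 → B y k = 1 → Near B s Φ i k := by
    refine h.chain_ind hx sx (fun y => ∀ k ∈ Φ, s k = 2 → B y k = 1 → Near B s Φ i k) ?_ ?_ hy sy
    · intro k hk sk xk
      by_cases hik : i = k
      · exact Or.inl hik
      · exact Or.inr (Or.inl (h.clique hx hi hk si sk xi xk hik))
    · rintro y z hy sy hz sz ⟨g, hg, sg, yg, rfl⟩ ih k hk sk zk
      simp only at yg
      have hm := h.refl_mem hg sg hk sk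
      have hsm : s (k - B k g • g) = 2 := by rw [map_sub, map_smul, sg, smul_zero, sub_zero, sk]
      have h1 : B y (k - B k g • g) = 1 := by
        rw [map_sub, LinearMap.sub_apply] at zk
        rw [map_sub, map_smul, yg, smul_eq_mul, mul_one, h.symm k g]
        exact zk
      have h2 := ih _ hm hsm h1
      refine h.near_step hi hm hk si hsm sk h2 ?_
      rcases h.pair_zero_two hg sg hk sk with h3 | h3 | h3
      · right
        rw [h3, neg_one_smul, sub_neg_eq_add, map_add, LinearMap.add_apply, h.two k hk, h.symm g k,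
          h3]; ring
      · left
        rw [h3, zero_smul, sub_zero]
      · right
        rw [h3, one_smul, map_sub, LinearMap.sub_apply, h.two k hk, h.symm g k, h3]; ring
  exact key k hk sk yk

/-- Orthogonal roots of value two have a common neighbour. -/
lemma common {i k : M} (hi : i ∈ Φ) (hk : k ∈ Φ) (si : s i = 2) (sk : s k = 2) (hik : B i k = 0) :
    ∃ g ∈ Φ, s g = 2 ∧ B g i = 1 ∧ B g k = 1 := by
  rcases h.near hi hk si sk with h1 | h1 | ⟨c, hc, sc, ca, cb⟩
  · exfalso
    rw [h1, h.two k hk] at hik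
    norm_num at hik
  · rw [hik] at h1
    exact absurd h1.symm one_ne_zero
  · exact ⟨c, hc, sc, ca, cb⟩

end SL

end TR
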