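import Pool.Agent.Helper21.TR.SL1

/-!
Simply laced systems: the blocks attached to an orthogonal set of roots with sum twice a weight.
-/

set_option linter.unusedSectionVars false

namespace TR

variable {K : Type*} [Field K] [CharZero K] {M : Type*} [AddCommGroup M] [Module K M]
  {B : LinearMap.BilinForm K M} {s : M →ₗ[K] K} {Φ X : Finset M}

/-- A sum of zeros and ones. -/
lemma sum_zero_one {ι : Type*} (A : Finset ι) (f : ι → K) (hf : ∀ a ∈ A, f a = 0 ∨ f a = 1) :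
    ∑ a ∈ A, f a = 0 → ∀ a ∈ A, f a = 0 := by
  classical
  intro hsum
  have h1 : ∑ a ∈ A, f a = ((∑ a ∈ A, (if f a = 0 then 0 else 1) : ℕ) : K) := by
    push_cast
    refine Finset.sum_congr rfl fun a ha => ?_
    rcases hf a ha with h | h
    · rw [if_pos h, h]
    · rw [if_neg (by rw [h]; exact one_ne_zero), h]
  rw [hsum] at h1
  have h2 : (∑ a ∈ A, (if f a = 0 then 0 else 1) : ℕ) = 0 := by exact_mod_cast h1.symm
  intro a ha
  have h3 := (Finset.sum_eq_zero_iff.mp h2) a ha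
  by_contra h4
  rw [if_neg h4] at h3
  omega

/-- A sum of zeros and ones which is one has exactly one nonzero term. -/
lemma sum_one {ι : Type*} (A : Finset ι) (f : ι → K) (hf : ∀ a ∈ A, f a = 0 ∨ f a = 1)
    (hsum : ∑ a ∈ A, f a = 1) : ∃ a ∈ A, f a = 1 ∧ ∀ b ∈ A, b ≠ a → f b = 0 := by
  classical
  obtain ⟨a, ha, ha0⟩ := Finset.exists_ne_zero_of_sum_ne_zero (s := A) (f := f)
    (by rw [hsum]; exact one_ne_zero)
  have ha1 := (hf a ha).resolve_left ha0
  refine ⟨a, ha, ha1, ?_⟩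
  intro b hb hba
  rw [← Finset.add_sum_erase A f ha, ha1] at hsum
  have h1 : ∑ x ∈ A.erase a, f x = 0 := by linear_combination hsum
  exact sum_zero_one (A.erase a) f (fun c hc => hf c (Finset.mem_of_mem_erase hc)) h1 b
    (Finset.mem_erase.mpr ⟨hba, hb⟩)

namespace SL

/-- The data of a root `i` of value two, a weight `x` which is one on `i`, and an orthogonal set
`A` of roots containing `i` with sum `2 x`. -/
structure Blk (B : LinearMap.BilinForm K M) (s : M →ₗ[K] K) (Φ X : Finset M) (i x : M)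
    (A : Finset M) : Prop extends SL B s Φ X where
  hi : i ∈ Φ
  si : s i = 2
  hx : x ∈ X
  xi : B x i = 1
  hA : A ⊆ Φ
  iA : i ∈ A
  ones : ∀ b ∈ A, B x b = 1
  orthA : ∀ b ∈ A, ∀ c ∈ A, b ≠ c → B b c = 0
  sumA : ∑ b ∈ A, b = x + x
  odd : Odd A.card

variable {i x : M} {A : Finset M}

namespace Blk

variable (D : Blk B s Φ X i x A)
include D

lemma sx1 : s x = 1 := D.sx_of_one D.hx D.hi D.si D.xi

lemma s_zero [DecidableEq M] {b : M} (hb : b ∈ A) (hbi : b ≠ i) : s b = 0 := by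
  have h1 : ∑ b ∈ A.erase i, s b / 2 = 0 := by
    have h2 : ∑ b ∈ A, s b = 2 := by
      rw [← map_sum, D.sumA, map_add, D.sx1]; norm_num
    rw [← Finset.add_sum_erase A _ D.iA, D.si] at h2
    have h3 : ∑ b ∈ A.erase i, s b = 0 := by linear_combination h2
    rw [← Finset.sum_div, h3, zero_div]
  have h2 := sum_zero_one (A.erase i) (fun b => s b / 2) ?_ h1 b
    (Finset.mem_erase.mpr ⟨hbi, hb⟩)
  · linear_combination 2 * h2
  · intro c hc
    have hcA := Finset.mem_of_mem_erase hc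
    rcases D.s_root (D.hA hcA) with h3 | h3 | h3
    · left; rw [h3, zero_div]
    · right; rw [h3]; norm_num
    · exfalso
      have h4 := D.sx_of_neg_one D.hx (D.neg c (D.hA hcA)) (by rw [map_neg, h3, neg_neg])
        (by rw [map_neg, D.ones c hcA])
      rw [D.sx1] at h4
      norm_num at h4

lemma bi {b : M} (hb : b ∈ A) (hbi : b ≠ i) : B b i = 0 := D.orthA b hb i D.iA hbi

lemma yX : i - x ∈ X := by
  have h1 := D.xsub (-x) (D.xneg x D.hx) (-i) (D.neg i D.hi) (by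
    rw [map_neg, map_neg, LinearMap.neg_apply, D.xi, neg_neg])
  have e : -x - -i = i - x := by abel
  rwa [e] at h1

lemma yi : B (i - x) i = 1 := by
  rw [map_sub, LinearMap.sub_apply, D.two i D.hi, D.xi]; norm_num

lemma sy1 : s (i - x) = 1 := D.sx_of_one D.yX D.hi D.si D.yi

/-- Neighbours of `i` on which `x` is one. -/
def InR (_ : Blk B s Φ X i x A) (a : M) : Prop := a ∈ Φ ∧ s a = 2 ∧ B a i = 1 ∧ B x a = 1

/-- Neighbours of `i` on which `x` vanishes. -/
def InC (_ : Blk B s Φ X i x A) (a : M) : Prop := a ∈ Φ ∧ s a = 2 ∧ B a i = 1 ∧ B x a = 0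

lemma inR_or {a : M} (ha : a ∈ Φ) (sa : s a = 2) (ai : B a i = 1) : D.InR a ∨ D.InC a := by
  rcases D.xp D.hx D.sx1 ha sa with h1 | h1
  · exact Or.inr ⟨ha, sa, ai, h1⟩
  · exact Or.inl ⟨ha, sa, ai, h1⟩

lemma y_R {a : M} (ha : D.InR a) : B (i - x) a = 0 := by
  rw [map_sub, LinearMap.sub_apply, D.symm i a, ha.2.2.1, ha.2.2.2, sub_self]

lemma y_C {a : M} (ha : D.InC a) : B (i - x) a = 1 := by
  rw [map_sub, LinearMap.sub_apply, D.symm i a, ha.2.2.1, ha.2.2.2, sub_zero]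

/-- `R` is a clique. -/
lemma RR {a b : M} (ha : D.InR a) (hb : D.InR b) (hab : a ≠ b) : B a b = 1 :=
  D.clique D.hx ha.1 hb.1 ha.2.1 hb.2.1 ha.2.2.2 hb.2.2.2 hab

/-- `C` is a clique. -/
lemma CC {a b : M} (ha : D.InC a) (hb : D.InC b) (hab : a ≠ b) : B a b = 1 :=
  D.clique D.yX ha.1 hb.1 ha.2.1 hb.2.1 (D.y_C ha) (D.y_C hb) hab

lemma R_ne_C {a b : M} (ha : D.InR a) (hb : D.InC b) : a ≠ b := by
  rintro rfl
  have := ha.2.2.2
  rw [hb.2.2.2] at this
  exact zero_ne_one this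

lemma x_sub_b [DecidableEq M] {b : M} (hb : b ∈ A) (hbi : b ≠ i) :
    x - b ∈ X ∧ s (x - b) = 1 := by
  refine ⟨D.xsub x D.hx b (D.hA hb) (D.ones b hb), ?_⟩
  rw [map_sub, D.sx1, D.s_zero hb hbi, sub_zero]

lemma b_R [DecidableEq M] {a b : M} (ha : D.InR a) (hb : b ∈ A) (hbi : b ≠ i) :
    B b a = 0 ∨ B b a = 1 := by
  obtain ⟨h1, h2⟩ := D.x_sub_b hb hbi
  rcases D.xp h1 h2 ha.1 ha.2.1 with h3 | h3 <;>
    rw [map_sub, LinearMap.sub_apply, ha.2.2.2] at h3
  · right; linear_combination -h3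
  · left; linear_combination -h3

lemma b_C [DecidableEq M] {a b : M} (ha : D.InC a) (hb : b ∈ A) (hbi : b ≠ i) :
    B b a = 0 ∨ B b a = -1 := by
  obtain ⟨h1, h2⟩ := D.x_sub_b hb hbi
  rcases D.xp h1 h2 ha.1 ha.2.1 with h3 | h3 <;>
    rw [map_sub, LinearMap.sub_apply, ha.2.2.2] at h3
  · left; linear_combination -h3
  · right; linear_combination -h3

lemma sum_b [DecidableEq M] (a : M) : ∑ b ∈ A.erase i, B b a = B x a - B (i - x) a := by
  have h1 : ∑ b ∈ A, B b a = B x a + B x a := by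
    rw [← LinearMap.sum_apply, ← map_sum, D.sumA, map_add, LinearMap.add_apply]
  rw [← Finset.add_sum_erase A _ D.iA] at h1
  rw [map_sub, LinearMap.sub_apply]
  linear_combination h1

/-- Every element of `R` belongs to exactly one block. -/
lemma block_R [DecidableEq M] {a : M} (ha : D.InR a) :
    ∃ b ∈ A, b ≠ i ∧ B b a = 1 ∧ ∀ c ∈ A, c ≠ i → c ≠ b → B c a = 0 := by
  obtain ⟨b, hb, h1, h2⟩ := sum_one (A.erase i) (fun b => B b a)
    (fun b hb => D.b_R ha (Finset.mem_of_mem_erase hb) (Finset.ne_of_mem_erase hb))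
    (by rw [D.sum_b, ha.2.2.2, D.y_R ha, sub_zero])
  exact ⟨b, Finset.mem_of_mem_erase hb, Finset.ne_of_mem_erase hb, h1,
    fun c hc hci hcb => h2 c (Finset.mem_erase.mpr ⟨hci, hc⟩) hcb⟩

/-- Every element of `C` belongs to exactly one block. -/
lemma block_C [DecidableEq M] {a : M} (ha : D.InC a) :
    ∃ b ∈ A, b ≠ i ∧ B b a = -1 ∧ ∀ c ∈ A, c ≠ i → c ≠ b → B c a = 0 := by
  obtain ⟨b, hb, h1, h2⟩ := sum_one (A.erase i) (fun b => - B b a)
    (fun b hb => by
      rcases D.b_C ha (Finset.mem_of_mem_erase hb) (Finset.ne_of_mem_erase hb) with h | h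
      · left; rw [h, neg_zero]
      · right; rw [h, neg_neg])
    (by rw [Finset.sum_neg_distrib, D.sum_b, ha.2.2.2, D.y_C ha]; ring)
  refine ⟨b, Finset.mem_of_mem_erase hb, Finset.ne_of_mem_erase hb, ?_, ?_⟩
  · linear_combination -h1
  · intro c hc hci hcb
    have := h2 c (Finset.mem_erase.mpr ⟨hci, hc⟩) hcb
    linear_combination -this

/-- Uniqueness of the block in `R`. -/
lemma block_unique [DecidableEq M] {a b c : M} (ha : D.InR a) (hb : b ∈ A) (hbi : b ≠ i)
    (hc : c ∈ A) (hci : c ≠ i) (h1 : B b a = 1) (h2 : B c a = 1) : b = c := by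
  obtain ⟨d, hd, hdi, h3, h4⟩ := D.block_R ha
  by_contra hbc
  rcases eq_or_ne b d with rfl | hbd
  · rw [h4 c hc hci (Ne.symm hbc)] at h2
    exact zero_ne_one h2
  · rw [h4 b hb hbi hbd] at h1
    exact zero_ne_one h1

lemma sub_mem_C [DecidableEq M] {a b : M} (ha : D.InR a) (hb : b ∈ A) (hbi : b ≠ i)
    (hba : B b a = 1) : D.InC (a - b) := by
  refine ⟨D.sub a ha.1 b (D.hA hb) (by rw [D.symm]; exact hba), ?_, ?_, ?_⟩
  · rw [map_sub, ha.2.1, D.s_zero hb hbi, sub_zero]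
  · rw [map_sub, LinearMap.sub_apply, ha.2.2.1, D.bi hb hbi, sub_zero]
  · rw [map_sub, ha.2.2.2, D.ones b hb, sub_self]

lemma add_mem_R [DecidableEq M] {a b : M} (ha : D.InC a) (hb : b ∈ A) (hbi : b ≠ i)
    (hba : B b a = -1) : D.InR (a + b) := by
  refine ⟨D.add_mem ha.1 (D.hA hb) (by rw [D.symm]; exact hba), ?_, ?_, ?_⟩
  · rw [map_add, ha.2.1, D.s_zero hb hbi, add_zero]
  · rw [map_add, LinearMap.add_apply, ha.2.2.1, D.bi hb hbi, add_zero]
  · rw [map_add, ha.2.2.2, D.ones b hb, zero_add]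

lemma b_add [DecidableEq M] {a b : M} (hb : b ∈ A) (hba : B b a = -1) : B b (a + b) = 1 := by
  rw [map_add, hba, D.two b (D.hA hb)]; norm_num

/-- Adjacency between `C` and `R`. -/
lemma adj_CR [DecidableEq M] {c b g : M} (hc : D.InC c) (hb : b ∈ A) (hbi : b ≠ i)
    (hbc : B b c = -1) (hg : D.InR g) : B g c = if g = c + b then 1 else 1 - B b g := by
  have hR := D.add_mem_R hc hb hbi hbc
  have e : B g c = B g (c + b) - B b g := by rw [map_add, D.symm b g]; ring
  split_ifs with h1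
  · rw [e, h1, D.two _ hR.1, D.b_add hb hbc]; norm_num
  · rw [e, D.RR hg hR h1]

/-- Blocks are not empty. -/
lemma block_ne [DecidableEq M] {b : M} (hb : b ∈ A) (hbi : b ≠ i) :
    ∃ a, D.InR a ∧ B b a = 1 := by
  have key : ∀ k ∈ Φ, s k = 2 → B k i = 1 → B b k ≠ 0 → ∃ a, D.InR a ∧ B b a = 1 := by
    intro k hk sk ki hbk
    rcases D.inR_or hk sk ki with h1 | h1
    · exact ⟨k, h1, (D.b_R h1 hb hbi).resolve_left hbk⟩
    · have h2 := (D.b_C h1 hb hbi).resolve_left hbk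
      exact ⟨k + b, D.add_mem_R h1 hb hbi h2, D.b_add hb h2⟩
  obtain ⟨k, hk, sk, hbk⟩ := D.hit b (D.hA hb) (D.s_zero hb hbi)
  by_cases hki : k = i
  · rw [hki] at hbk
    exact absurd (D.bi hb hbi) hbk
  rcases D.pp hk D.hi sk D.si hki with h1 | h1
  · obtain ⟨g, hg, sg, gi, gk⟩ := D.common D.hi hk D.si sk (by rw [D.symm]; exact h1)
    by_cases hbg : B b g = 0
    · obtain ⟨q1, q2, q3, q4, q5⟩ := D.square D.hi hk hg D.si sk sg
        (by rw [D.symm]; exact h1) gi gk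
      refine key _ q1 q2 q3 ?_
      rw [map_sub, map_add, D.bi hb hbi, hbg, zero_add, sub_zero]
      exact hbk
    · exact key g hg sg gi hbg
  · exact key k hk sk h1 hbk

/-- A non adjacent pair. -/
def Bad (g c : M) : Prop := D.InR g ∧ D.InC c ∧ B g c = 0

/-- The block of a non adjacent pair. -/
lemma bad_block [DecidableEq M] {g c : M} (hgc : D.Bad g c) :
    ∃ b ∈ A, b ≠ i ∧ B b c = -1 ∧ B b g = 1 ∧ D.InR (c + b) ∧ B b (c + b) = 1 ∧ g ≠ c + b := by
  obtain ⟨hg, hc, h0⟩ := hgc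
  obtain ⟨b, hb, hbi, hbc, -⟩ := D.block_C hc
  have h1 := D.adj_CR hc hb hbi hbc hg
  refine ⟨b, hb, hbi, hbc, ?_, D.add_mem_R hc hb hbi hbc, D.b_add hb hbc, ?_⟩
  · split_ifs at h1 with h2
    · rw [h0] at h1; exact absurd h1 zero_ne_one
    · linear_combination h1 - h0
  · intro h2
    rw [if_pos h2, h0] at h1
    exact zero_ne_one h1

/-- The third root attached to a non adjacent pair. -/
lemma bad_j {g c : M} (hgc : D.Bad g c) :
    g + c - i ∈ Φ ∧ s (g + c - i) = 2 ∧ B (g + c - i) i = 0 ∧ g + c - i ≠ i ∧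
      B g (g + c - i) = 1 := by
  obtain ⟨hg, hc, h0⟩ := hgc
  obtain ⟨q1, q2, q3, q4, q5⟩ := D.square hg.1 hc.1 D.hi hg.2.1 hc.2.1 D.si h0
    (by rw [D.symm]; exact hg.2.2.1) (by rw [D.symm]; exact hc.2.2.1)
  refine ⟨q1, q2, q5, ?_, ?_⟩
  · intro h1
    rw [h1, D.two i D.hi] at q5
    norm_num at q5
  · rw [D.symm]; exact q3

/-- Adjacency of the third root with the elements of `R`. -/
lemma bad_adj [DecidableEq M] {g c b : M} (hgc : D.Bad g c) (hb : b ∈ A) (hbi : b ≠ i)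
    (hbc : B b c = -1) {a : M} (ha : D.InR a) :
    B a (g + c - i) = if a = g ∨ a = c + b then 1 else 1 - B b a := by
  obtain ⟨hg, hc, h0⟩ := hgc
  by_cases hag : a = g
  · rw [if_pos (Or.inl hag), hag]
    exact (D.bad_j ⟨hg, hc, h0⟩).2.2.2.2
  · have e : B a (g + c - i) = B a c := by
      rw [map_sub, map_add, D.RR ha hg hag, ha.2.2.1]; ring
    rw [e, D.adj_CR hc hb hbi hbc ha]
    by_cases h1 : a = c + b
    · rw [if_pos h1, if_pos (Or.inr h1)]
    · rw [if_neg h1, if_neg (by tauto)]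

/-- An orthogonal root `j` and an element `u` of `R` adjacent to `j` give a non adjacent pair. -/
lemma bad_of_j {j u : M} (hj : j ∈ Φ) (sj : s j = 2) (hij : B i j = 0) (hu : D.InR u)
    (huj : B u j = 1) : D.Bad u (i + j - u) := by
  obtain ⟨q1, q2, q3, q4, q5⟩ := D.square D.hi hj hu.1 D.si sj hu.2.1 hij hu.2.2.1 huj
  refine ⟨hu, ⟨q1, q2, q3, ?_⟩, by rw [D.symm]; exact q5⟩
  rw [map_sub, map_add, D.xi, D.x_orth D.hx D.hi hj D.si sj D.xi hij, hu.2.2.2]; ring

/-- Two elements of one block and an element of another block: the first block has just these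
elements. -/
lemma block_two [DecidableEq M] {g c b u b' : M} (hgc : D.Bad g c) (hb : b ∈ A) (hbi : b ≠ i)
    (hbc : B b c = -1) (hu : D.InR u) (hb' : b' ∈ A) (hb'i : b' ≠ i) (hne : b' ≠ b)
    (hb'u : B b' u = 1) :
    (∀ a, D.InR a → B b a = 1 → a = g ∨ a = c + b) ∧
    ∃ v, v ≠ u ∧ D.InR v ∧ B b' v = 1 ∧ ∀ a, D.InR a → B b' a = 1 → a = u ∨ a = v := by
  obtain ⟨hg, hc, h0⟩ := hgc
  have hbad : D.Bad g c := ⟨hg, hc, h0⟩
  obtain ⟨j1, j2, j3, j4, j5⟩ := D.bad_j hbad
  obtain ⟨b0, hb0, hb0i, hb0c, hb0g, hR0, hb00, hgb0⟩ := D.bad_block hbad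
  have hbb0 : b = b0 := by
    obtain ⟨d, hd, hdi, h3, h4⟩ := D.block_C hc
    have e : ∀ b, b ∈ A → b ≠ i → B b c = -1 → b = d := by
      intro b hb hbi hbc
      by_contra hbd
      rw [h4 b hb hbi hbd] at hbc
      norm_num at hbc
    rw [e b hb hbi hbc, e b0 hb0 hb0i hb0c]
  subst hbb0
  have hbu : B b u = 0 := by
    rcases D.b_R hu hb hbi with h | h
    · exact h
    · exact absurd (D.block_unique hu hb' hb'i hb hbi hb'u h) hne
  -- `u` is adjacent to `j`
  have huj : B u (g + c - i) = 1 := by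
    rw [D.bad_adj hbad hb hbi hbc hu, hbu]
    split_ifs <;> ring
  have hbad2 := D.bad_of_j j1 j2 (by rw [D.symm]; exact j3) hu huj
  set j := g + c - i with hj
  obtain ⟨b2, hb2, hb2i, hb2c, hb2u, hR2, hb22, hub2⟩ := D.bad_block hbad2
  have hb2b : b2 = b' := D.block_unique hu hb2 hb2i hb' hb'i hb2u hb'u
  rw [hb2b] at hb2c hR2 hb22 hub2
  have ej : u + (i + j - u) - i = j := by abel
  have adj2 : ∀ a, D.InR a → B a j = if a = u ∨ a = i + j - u + b' then 1 else 1 - B b' a := by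
    intro a ha
    have := D.bad_adj hbad2 hb' hb'i hb2c ha
    rwa [ej] at this
  have adj1 : ∀ a, D.InR a → B a j = if a = g ∨ a = c + b then 1 else 1 - B b a :=
    fun a ha => D.bad_adj hbad hb hbi hbc ha
  constructor
  · intro a ha hba
    by_contra hcon
    have h1 := adj1 a ha
    rw [if_neg hcon, hba, sub_self] at h1
    have h2 := adj2 a ha
    have h3 : B b' a = 0 := by
      rcases D.b_R ha hb' hb'i with h | h
      · exact h
      · exact absurd (D.block_unique ha hb' hb'i hb hbi h hba) hne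
    rw [h1, h3, sub_zero] at h2
    split_ifs at h2 <;> exact zero_ne_one h2
  · refine ⟨i + j - u + b', Ne.symm hub2, hR2, hb22, ?_⟩
    intro a ha hba
    by_contra hcon
    have h1 := adj2 a ha
    rw [if_neg hcon, hba, sub_self] at h1
    have h2 := adj1 a ha
    have h3 : B b a = 0 := by
      rcases D.b_R ha hb hbi with h | h
      · exact h
      · exact absurd (D.block_unique ha hb' hb'i hb hbi hba h) hne
    rw [h1, h3, sub_zero] at h2
    split_ifs at h2 <;> exact zero_ne_one h2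

end Blk

end SL

end TR
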