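import Pool.Agent.Helper21.TR.SL2

/-!
Simply laced systems: the dichotomy.
-/

set_option linter.unusedSectionVars false

namespace TR

variable {K : Type*} [Field K] [CharZero K] {M : Type*} [AddCommGroup M] [Module K M]
  {B : LinearMap.BilinForm K M} {s : M →ₗ[K] K} {Φ X : Finset M}

namespace SL

namespace Blk

variable {i x : M} {A : Finset M} (D : Blk B s Φ X i x A)
include D

lemma mem_Re [DecidableEq M] {a : M} : a ∈ (D.R x).erase i ↔ D.InR a := by
  rw [Finset.mem_erase, D.mem_R, InR]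
  constructor
  · rintro ⟨h1, h2, h3, h4⟩
    exact ⟨h2, h3, D.clique D.hx h2 D.hi h3 D.si h4 D.xi h1, h4⟩
  · rintro ⟨h1, h2, h3, h4⟩
    refine ⟨?_, h1, h2, h4⟩
    rintro rfl
    rw [D.two a h1] at h3
    norm_num at h3

lemma mem_Ce [DecidableEq M] {a : M} : a ∈ (D.R (i - x)).erase i ↔ D.InC a := by
  rw [Finset.mem_erase, D.mem_R, InC]
  constructor
  · rintro ⟨h1, h2, h3, h4⟩
    have h5 := D.clique D.yX h2 D.hi h3 D.si h4 D.yi h1
    refine ⟨h2, h3, h5, ?_⟩
    rw [map_sub, LinearMap.sub_apply, D.symm i a, h5] at h4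
    linear_combination -h4
  · rintro ⟨h1, h2, h3, h4⟩
    refine ⟨?_, h1, h2, D.y_C ⟨h1, h2, h3, h4⟩⟩
    rintro rfl
    rw [D.two a h1] at h3
    norm_num at h3

lemma i_mem_R : i ∈ D.R x := D.mem_R.mpr ⟨D.hi, D.si, D.xi⟩

lemma i_mem_R' : i ∈ D.R (i - x) := D.mem_R.mpr ⟨D.hi, D.si, D.yi⟩

/-- No non adjacent pairs: all roots of value two are adjacent to `i`. -/
lemma caseA (hno : ∀ g c, ¬ D.Bad g c) {j : M} (hj : j ∈ Φ) (sj : s j = 2) (hji : j ≠ i) :
    B j i = 1 := by
  rcases D.pp hj D.hi sj D.si hji with h1 | h1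
  · exfalso
    have h1' : B i j = 0 := by rw [D.symm]; exact h1
    obtain ⟨g, hg, sg, gi, gj⟩ := D.common D.hi hj D.si sj h1'
    obtain ⟨q1, q2, q3, q4, q5⟩ := D.square D.hi hj hg D.si sj sg h1' gi gj
    rcases D.inR_or hg sg gi with h2 | h2
    · exact hno _ _ (D.bad_of_j hj sj h1' h2 gj)
    · refine hno (i + j - g) g ⟨⟨q1, q2, q3, ?_⟩, h2, q5⟩
      rw [map_sub, map_add, D.xi, D.x_orth D.hx D.hi hj D.si sj D.xi h1', h2.2.2.2]; ring
  · exact h1

lemma caseA_card (hno : ∀ g c, ¬ D.Bad g c) : (D.R x).card = A.card := by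
  classical
  have h1 : ((D.R x).erase i).card = (A.erase i).card := by
    have hch : ∀ a ∈ (D.R x).erase i, ∃ b ∈ A.erase i, B b a = 1 := by
      intro a ha
      obtain ⟨b, hb, hbi, h1, -⟩ := D.block_R (D.mem_Re.mp ha)
      exact ⟨b, Finset.mem_erase.mpr ⟨hbi, hb⟩, h1⟩
    choose f hf1 hf2 using hch
    refine Finset.card_bij f hf1 ?_ ?_
    · intro a ha a' ha' hff
      by_contra hne
      have hb := Finset.mem_of_mem_erase (hf1 a ha)
      have hbi := Finset.ne_of_mem_erase (hf1 a ha)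
      have hR := D.mem_Re.mp ha
      have hR' := D.mem_Re.mp ha'
      refine hno a' (a - f a ha) ⟨hR', D.sub_mem_C hR hb hbi (hf2 a ha), ?_⟩
      rw [map_sub, D.RR hR' hR (Ne.symm hne), D.symm a', hff, hf2 a' ha', sub_self]
    · intro b hb
      have hbA := Finset.mem_of_mem_erase hb
      have hbi := Finset.ne_of_mem_erase hb
      obtain ⟨a, ha, hba⟩ := D.block_ne hbA hbi
      have hm := D.mem_Re.mpr ha
      refine ⟨a, hm, ?_⟩
      exact D.block_unique ha (Finset.mem_of_mem_erase (hf1 a hm))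
        (Finset.ne_of_mem_erase (hf1 a hm)) hbA hbi (hf2 a hm) hba
  rw [Finset.card_erase_of_mem D.i_mem_R, Finset.card_erase_of_mem D.iA] at h1
  have h2 := Finset.card_pos.mpr ⟨i, D.i_mem_R⟩
  have h3 := Finset.card_pos.mpr ⟨i, D.iA⟩
  omega

/-- With a non adjacent pair every block has two elements. -/
lemma caseB_block [DecidableEq M] {g c : M} (hbad : D.Bad g c) {b : M} (hb : b ∈ A)
    (hbi : b ≠ i) : ∃ u v, u ≠ v ∧ D.InR u ∧ D.InR v ∧ B b u = 1 ∧ B b v = 1 ∧
      ∀ a, D.InR a → B b a = 1 → a = u ∨ a = v := by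
  obtain ⟨b0, hb0, hb0i, hb0c, hb0g, hR0, hb00, hgb0⟩ := D.bad_block hbad
  by_cases hbb0 : b = b0
  · subst hbb0
    -- another block
    have hcard : 1 < (A.erase i).card := by
      have h1 : b ∈ A.erase i := Finset.mem_erase.mpr ⟨hbi, hb⟩
      have h2 := Finset.card_pos.mpr ⟨b, h1⟩
      have h3 := D.odd
      rw [Finset.card_erase_of_mem D.iA] at *
      obtain ⟨k, hk⟩ := h3
      omega
    obtain ⟨b', hb', hne⟩ := Finset.exists_mem_ne hcard b
    have hb'A := Finset.mem_of_mem_erase hb'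
    have hb'i := Finset.ne_of_mem_erase hb'
    obtain ⟨u, hu, hb'u⟩ := D.block_ne hb'A hb'i
    have h1 := (D.block_two hbad hb hbi hb0c hu hb'A hb'i hne hb'u).1
    exact ⟨g, c + b, hgb0, hbad.1, hR0, hb0g, hb00, h1⟩
  · obtain ⟨u, hu, hbu⟩ := D.block_ne hb hbi
    obtain ⟨v, h1, h2, h3, h4⟩ := (D.block_two hbad hb0 hb0i hb0c hu hb hbi hbb0 hbu).2
    exact ⟨u, v, Ne.symm h1, hu, h2, hbu, h3, h4⟩

lemma caseB_card {g c : M} (hbad : D.Bad g c) : (D.R x).card + 1 = 2 * A.card := by
  classical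
  have h1 : ((D.R x).erase i).card = 2 * (A.erase i).card := by
    have hch : ∀ a, ∃ b, a ∈ (D.R x).erase i → b ∈ A.erase i ∧ B b a = 1 := by
      intro a
      by_cases ha : a ∈ (D.R x).erase i
      · obtain ⟨b, hb, hbi, h1, -⟩ := D.block_R (D.mem_Re.mp ha)
        exact ⟨b, fun _ => ⟨Finset.mem_erase.mpr ⟨hbi, hb⟩, h1⟩⟩
      · exact ⟨0, fun h => absurd h ha⟩
    choose f hf using hch
    rw [Finset.card_eq_sum_card_fiberwise (f := f) (t := A.erase i)
      (fun a ha => (hf a ha).1)]
    rw [Finset.sum_const_nat (m := 2)]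
    · ring
    · intro b hb
      have hbA := Finset.mem_of_mem_erase hb
      have hbi := Finset.ne_of_mem_erase hb
      obtain ⟨u, v, huv, hu, hv, hbu, hbv, hall⟩ := D.caseB_block hbad hbA hbi
      have e : Finset.filter (fun a => f a = b) ((D.R x).erase i) = {u, v} := by
        ext a
        rw [Finset.mem_filter, Finset.mem_insert, Finset.mem_singleton]
        constructor
        · rintro ⟨ha, hfa⟩
          apply hall a (D.mem_Re.mp ha)
          rw [← hfa]; exact (hf a ha).2
        · have key : ∀ w, D.InR w → B b w = 1 → w ∈ (D.R x).erase i ∧ f w = b := by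
            intro w hw hbw
            have hm := D.mem_Re.mpr hw
            refine ⟨hm, ?_⟩
            exact D.block_unique hw (Finset.mem_of_mem_erase (hf w hm).1)
              (Finset.ne_of_mem_erase (hf w hm).1) hbA hbi (hf w hm).2 hbw
          rintro (rfl | rfl)
          · exact key a hu hbu
          · exact key a hv hbv
      rw [e, Finset.card_pair huv]
  rw [Finset.card_erase_of_mem D.i_mem_R, Finset.card_erase_of_mem D.iA] at h1
  have h2 := Finset.card_pos.mpr ⟨i, D.i_mem_R⟩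
  have h3 := Finset.card_pos.mpr ⟨i, D.iA⟩
  omega

/-- With a non adjacent pair, all non adjacent pairs come from the same root. -/
lemma caseB_unique {g c u w : M} (hbad : D.Bad g c) (hbad' : D.Bad u w) :
    g + c - i = u + w - i := by
  classical
  obtain ⟨j1, j2, j3, j4, j5⟩ := D.bad_j hbad'
  set j := u + w - i with hj
  -- `g` is adjacent to `j`
  have hgj : B g j = 1 := by
    obtain ⟨b, hb, hbi, hbw, hbu, hR, hbb, hne⟩ := D.bad_block hbad'
    rw [hj, D.bad_adj hbad' hb hbi hbw hbad.1]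
    split_ifs with h1
    · rfl
    · obtain ⟨u1, v1, huv, hu1, hv1, hbu1, hbv1, hall⟩ := D.caseB_block hbad' hb hbi
      rcases D.b_R hbad.1 hb hbi with h2 | h2
      · rw [h2, sub_zero]
      · exfalso
        push Not at h1
        have a1 := hall g hbad.1 h2
        have a2 := hall u hbad'.1 hbu
        have a3 := hall (w + b) hR hbb
        have a4 : u ≠ w + b := hne
        have a5 := h1.1
        have a6 := h1.2
        rcases a1 with a1 | a1 <;> rcases a2 with a2 | a2 <;> rcases a3 with a3 | a3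
        · exact a4 (a2.trans a3.symm)
        · exact a5 (a1.trans a2.symm)
        · exact a6 (a1.trans a3.symm)
        · exact a4 (a2.trans a3.symm)
        · exact a4 (a2.trans a3.symm)
        · exact a6 (a1.trans a3.symm)
        · exact a5 (a1.trans a2.symm)
        · exact a4 (a2.trans a3.symm)
  have hbad2 := D.bad_of_j j1 j2 (by rw [D.symm]; exact j3) hbad.1 hgj
  -- the non neighbour of `g` is unique
  have key : ∀ c c', D.Bad g c → D.Bad g c' → c = c' := by
    intro c c' h1 h2
    obtain ⟨b, hb, hbi, hbc, hbg, hR, hbb, hne⟩ := D.bad_block h1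
    obtain ⟨b', hb', hb'i, hbc', hbg', hR', hbb', hne'⟩ := D.bad_block h2
    have e : b' = b := D.block_unique h1.1 hb' hb'i hb hbi hbg' hbg
    subst e
    obtain ⟨u1, v1, huv, hu1, hv1, hbu1, hbv1, hall⟩ := D.caseB_block h1 hb hbi
    have a1 := hall g h1.1 hbg
    have a2 := hall _ hR hbb
    have a3 := hall _ hR' hbb'
    have e2 : c + b' = c' + b' := by
      rcases a1 with a1 | a1 <;> rcases a2 with a2 | a2 <;> rcases a3 with a3 | a3
      · exact absurd (a1.trans a2.symm) hne
      · exact absurd (a1.trans a2.symm) hne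
      · exact absurd (a1.trans a3.symm) hne'
      · exact a2.trans a3.symm
      · exact a2.trans a3.symm
      · exact absurd (a1.trans a3.symm) hne'
      · exact absurd (a1.trans a2.symm) hne
      · exact absurd (a1.trans a2.symm) hne
    exact add_right_cancel e2
  have h1 := key c _ hbad hbad2
  rw [h1]
  abel

/-- The number of roots of value two. -/
lemma card_P [DecidableEq M] [DecidableEq K] :
    (Φ.filter (fun a => s a = 2)).card + 1 =
      2 * (D.R x).card + (Φ.filter (fun a => s a = 2 ∧ a ≠ i ∧ B a i = 0)).card := by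
  have e : Φ.filter (fun a => s a = 2) = {i} ∪ ((D.R x).erase i ∪ (D.R (i - x)).erase i) ∪
      Φ.filter (fun a => s a = 2 ∧ a ≠ i ∧ B a i = 0) := by
    ext a
    rw [Finset.mem_union, Finset.mem_union, Finset.mem_union, D.mem_Re, D.mem_Ce,
      Finset.mem_singleton, Finset.mem_filter, Finset.mem_filter]
    constructor
    · rintro ⟨ha, sa⟩
      by_cases hai : a = i
      · exact Or.inl (Or.inl hai)
      rcases D.pp ha D.hi sa D.si hai with h1 | h1
      · exact Or.inr ⟨ha, sa, hai, h1⟩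
      · exact Or.inl (Or.inr (D.inR_or ha sa h1))
    · rintro ((h1 | h1 | h1) | h1)
      · rw [h1]; exact ⟨D.hi, D.si⟩
      · exact ⟨h1.1, h1.2.1⟩
      · exact ⟨h1.1, h1.2.1⟩
      · exact ⟨h1.1, h1.2.1⟩
  have d1 : Disjoint ((D.R x).erase i) ((D.R (i - x)).erase i) := by
    rw [Finset.disjoint_left]
    intro a h1 h2
    exact D.R_ne_C (D.mem_Re.mp h1) (D.mem_Ce.mp h2) rfl
  have d2 : Disjoint {i} ((D.R x).erase i ∪ (D.R (i - x)).erase i) := by
    rw [Finset.disjoint_singleton_left, Finset.mem_union]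
    rintro (h1 | h1)
    · exact Finset.ne_of_mem_erase h1 rfl
    · exact Finset.ne_of_mem_erase h1 rfl
  have d3 : Disjoint ({i} ∪ ((D.R x).erase i ∪ (D.R (i - x)).erase i))
      (Φ.filter (fun a => s a = 2 ∧ a ≠ i ∧ B a i = 0)) := by
    rw [Finset.disjoint_left]
    intro a h1 h2
    rw [Finset.mem_filter] at h2
    rw [Finset.mem_union, Finset.mem_union, D.mem_Re, D.mem_Ce, Finset.mem_singleton] at h1
    rcases h1 with h1 | h1 | h1
    · exact h2.2.2.1 h1
    · have := h1.2.2.1
      rw [h2.2.2.2] at this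
      exact zero_ne_one this
    · have := h1.2.2.1
      rw [h2.2.2.2] at this
      exact zero_ne_one this
  rw [e, Finset.card_union_of_disjoint d3, Finset.card_union_of_disjoint d2,
    Finset.card_union_of_disjoint d1, Finset.card_singleton,
    Finset.card_erase_of_mem D.i_mem_R, Finset.card_erase_of_mem D.i_mem_R',
    ← D.card_R D.hx D.yX D.sx1 D.sy1]
  have h2 := Finset.card_pos.mpr ⟨i, D.i_mem_R⟩
  omega

end Blk

end SL

end TR
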