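import Pool.Agent.Helper21.TR.SL3

/-!
Simply laced systems: counting the weights when all roots of value two are adjacent.
-/

set_option linter.unusedSectionVars false

namespace TR

variable {K : Type*} [Field K] [CharZero K] {M : Type*} [AddCommGroup M] [Module K M]
  {B : LinearMap.BilinForm K M} {s : M →ₗ[K] K} {Φ X : Finset M}

namespace SL

variable (h : SL B s Φ X)
include h

open Classical in
/-- The roots of value two. -/
noncomputable def P (_ : SL B s Φ X) : Finset M := Φ.filter (fun a => s a = 2)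

open Classical in
/-- The positive weights. -/
noncomputable def Xp (_ : SL B s Φ X) : Finset M := X.filter (fun x => s x = 1)

lemma mem_P {a : M} : a ∈ h.P ↔ a ∈ Φ ∧ s a = 2 := by
  classical
  rw [P, Finset.mem_filter]

lemma mem_Xp {x : M} : x ∈ h.Xp ↔ x ∈ X ∧ s x = 1 := by
  classical
  rw [Xp, Finset.mem_filter]

lemma R_sub (x : M) : h.R x ⊆ h.P := by
  intro a ha
  rw [h.mem_R] at ha
  exact h.mem_P.mpr ⟨ha.1, ha.2.1⟩

lemma mem_R' {x a : M} (ha : a ∈ h.P) : a ∈ h.R x ↔ B x a = 1 := by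
  rw [h.mem_R]
  rw [h.mem_P] at ha
  tauto

lemma card_X : X.card = 2 * h.Xp.card := by
  classical
  have e : X = h.Xp ∪ X.filter (fun x => s x = -1) := by
    ext x
    rw [Finset.mem_union, h.mem_Xp, Finset.mem_filter]
    constructor
    · intro hx
      rcases h.sx x hx with h1 | h1
      · exact Or.inl ⟨hx, h1⟩
      · exact Or.inr ⟨hx, h1⟩
    · rintro (h1 | h1) <;> exact h1.1
  have d : Disjoint h.Xp (X.filter (fun x => s x = -1)) := by
    rw [Finset.disjoint_left]
    intro x h1 h2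
    rw [h.mem_Xp] at h1
    rw [Finset.mem_filter, h1.2] at h2
    have := h2.2
    norm_num at this
  have c : (X.filter (fun x => s x = -1)).card = h.Xp.card := by
    refine Finset.card_nbij' (fun x => -x) (fun x => -x) ?_ ?_ ?_ ?_
    · intro x hx
      rw [Finset.mem_coe, Finset.mem_filter] at hx
      rw [Finset.mem_coe, h.mem_Xp]
      exact ⟨h.xneg x hx.1, by rw [map_neg, hx.2, neg_neg]⟩
    · intro x hx
      rw [Finset.mem_coe, h.mem_Xp] at hx
      rw [Finset.mem_coe, Finset.mem_filter]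
      exact ⟨h.xneg x hx.1, by rw [map_neg, hx.2]⟩
    · intro x _; simp
    · intro x _; simp
  conv_lhs => rw [e]
  rw [Finset.card_union_of_disjoint d, c]
  ring

open Classical in
lemma filter_X {i : M} (hi : i ∈ h.P) :
    X.filter (fun x => B x i = 1) = h.Xp.filter (fun x => i ∈ h.R x) := by
  ext x
  rw [Finset.mem_filter, Finset.mem_filter, h.mem_R' hi, h.mem_Xp]
  constructor
  · rintro ⟨h1, h2⟩
    rw [h.mem_P] at hi
    exact ⟨⟨h1, h.sx_of_one h1 hi.1 hi.2 h2⟩, h2⟩
  · rintro ⟨h1, h2⟩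
    exact ⟨h1.1, h2⟩

/-- Exchange of two adjacent roots. -/
lemma flip {x a b : M} (hx : x ∈ h.Xp) (ha : a ∈ h.P) (hb : b ∈ h.P) (hab : B a b = 1)
    (xa : a ∈ h.R x) (xb : b ∉ h.R x) :
    x - (a - b) ∈ h.Xp ∧ ∀ k, B (x - (a - b)) k = B x k - B a k + B b k := by
  rw [h.mem_R' ha] at xa
  rw [h.mem_R' hb] at xb
  rw [h.mem_Xp] at hx ⊢
  rw [h.mem_P] at ha hb
  have hb0 : B x b = 0 := (h.xp hx.1 hx.2 hb.1 hb.2).resolve_right xb
  refine ⟨⟨h.xsub x hx.1 _ (h.sub a ha.1 b hb.1 hab) ?_, ?_⟩, ?_⟩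
  · rw [map_sub, xa, hb0, sub_zero]
  · rw [map_sub, map_sub, ha.2, hb.2, hx.2]; ring
  · intro k
    rw [map_sub, map_sub, LinearMap.sub_apply, LinearMap.sub_apply]; ring

lemma R_injOn : Set.InjOn h.R (h.Xp : Set M) := by
  intro x hx y hy hxy
  rw [Finset.mem_coe, h.mem_Xp] at hx hy
  refine h.R_inj hx.1 hy.1 hx.2 hy.2 ?_
  intro a ha sa
  have hP := h.mem_P.mpr ⟨ha, sa⟩
  rw [← h.mem_R' hP, ← h.mem_R' hP, hxy]

section A
variable (hadj : ∀ a ∈ h.P, ∀ b ∈ h.P, a ≠ b → B a b = 1) {x0 : M} (hx0 : x0 ∈ h.Xp)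
include hadj hx0

lemma imageA [DecidableEq (Finset M)] :
    h.Xp.image h.R = h.P.powersetCard (h.R x0).card := by
  classical
  ext T
  rw [Finset.mem_image, Finset.mem_powersetCard]
  constructor
  · rintro ⟨x, hx, rfl⟩
    rw [h.mem_Xp] at hx hx0
    exact ⟨h.R_sub x, h.card_R hx.1 hx0.1 hx.2 hx0.2⟩
  · rintro ⟨hT, hc⟩
    obtain ⟨x, hx, hmin⟩ := h.Xp.exists_min_image (fun x => (h.R x \ T).card) ⟨x0, hx0⟩
    refine ⟨x, hx, ?_⟩
    have hcx : (h.R x).card = T.card := by
      rw [hc]
      rw [h.mem_Xp] at hx hx0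
      exact h.card_R hx.1 hx0.1 hx.2 hx0.2
    apply Finset.eq_of_subset_of_card_le _ hcx.ge
    by_contra hsub
    obtain ⟨a, ha, haT⟩ := Finset.not_subset.mp hsub
    have hsub' : ¬ T ⊆ h.R x := by
      intro h1
      have h2 := Finset.eq_of_subset_of_card_le h1 hcx.le
      rw [h2] at haT
      exact haT ha
    obtain ⟨b, hb, hbR⟩ := Finset.not_subset.mp hsub'
    have haP := h.R_sub x ha
    have hbP := hT hb
    have hne : a ≠ b := by
      rintro rfl
      exact haT hb
    obtain ⟨q1, q2⟩ := h.flip hx haP hbP (hadj a haP b hbP hne) ha hbR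
    have h3 := hmin _ q1
    have h4 : h.R (x - (a - b)) \ T ⊆ (h.R x \ T).erase a := by
      intro k hk
      rw [Finset.mem_sdiff] at hk
      obtain ⟨hk, hkT⟩ := hk
      have hkP := h.R_sub _ hk
      rw [h.mem_R' hkP, q2 k] at hk
      have hkb : k ≠ b := by
        rintro rfl
        exact hkT hb
      have hka : k ≠ a := by
        rintro rfl
        rw [(h.mem_R' haP).mp ha, h.two k (h.mem_P.mp haP).1, h.symm b k,
          hadj k haP b hbP hne] at hk
        norm_num at hk
      rw [Finset.mem_erase, Finset.mem_sdiff, h.mem_R' hkP]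
      refine ⟨hka, ?_, hkT⟩
      rw [hadj a haP k hkP (Ne.symm hka), hadj b hbP k hkP (Ne.symm hkb)] at hk
      linear_combination hk
    have h5 := Finset.card_le_card h4
    have h6 : a ∈ h.R x \ T := Finset.mem_sdiff.mpr ⟨ha, haT⟩
    rw [Finset.card_erase_of_mem h6] at h5
    have h7 := Finset.card_pos.mpr ⟨a, h6⟩
    omega

lemma cardA : h.Xp.card = h.P.card.choose (h.R x0).card := by
  classical
  rw [← Finset.card_image_of_injOn h.R_injOn, h.imageA hadj hx0, Finset.card_powersetCard]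

open Classical in
lemma cardA' {i : M} (hi : i ∈ h.P) :
    (h.Xp.filter (fun x => i ∈ h.R x)).card + (h.P.card - 1).choose (h.R x0).card =
      h.P.card.choose (h.R x0).card := by
  have h1 : (h.Xp.filter (fun x => i ∉ h.R x)).card = (h.P.card - 1).choose (h.R x0).card := by
    have e : (h.Xp.filter (fun x => i ∉ h.R x)).image h.R =
        (h.P.erase i).powersetCard (h.R x0).card := by
      ext T
      rw [Finset.mem_image, Finset.mem_powersetCard]
      constructor
      · rintro ⟨x, hx, rfl⟩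
        rw [Finset.mem_filter] at hx
        have h2 : h.R x ∈ h.Xp.image h.R := Finset.mem_image_of_mem _ hx.1
        rw [h.imageA hadj hx0, Finset.mem_powersetCard] at h2
        refine ⟨?_, h2.2⟩
        intro a ha
        refine Finset.mem_erase.mpr ⟨?_, h2.1 ha⟩
        rintro rfl
        exact hx.2 ha
      · rintro ⟨h2, h3⟩
        have h4 : T ∈ h.Xp.image h.R := by
          rw [h.imageA hadj hx0, Finset.mem_powersetCard]
          exact ⟨h2.trans (Finset.erase_subset _ _), h3⟩
        obtain ⟨x, hx, rfl⟩ := Finset.mem_image.mp h4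
        refine ⟨x, Finset.mem_filter.mpr ⟨hx, ?_⟩, rfl⟩
        intro h5
        exact Finset.ne_of_mem_erase (h2 h5) rfl
    rw [← Finset.card_image_of_injOn (f := h.R) (h.R_injOn.mono (by
      intro x hx
      rw [Finset.mem_coe, Finset.mem_filter] at hx
      exact hx.1)), e, Finset.card_powersetCard, Finset.card_erase_of_mem hi]
  rw [← h1, ← h.cardA hadj hx0]
  exact Finset.card_filter_add_card_filter_not _

end A

end SL

end TR
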