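import Pool.Agent.Helper21.TR.SL4

/-!
Simply laced systems: counting the weights when every root of value two is orthogonal to exactly
one other.
-/

set_option linter.unusedSectionVars false

namespace TR

/-- The number of even subsets. -/
lemma card_even {α : Type*} [DecidableEq α] (U : Finset α) (hU : U.Nonempty) :
    (U.powerset.filter (fun S => Even S.card)).card = 2 ^ (U.card - 1) := by
  classical
  have h1 := Finset.sum_powerset_neg_one_pow_card_of_nonempty hU
  have h2 := Finset.card_filter_add_card_filter_not (s := U.powerset) (fun S => Even S.card)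
  rw [Finset.card_powerset] at h2
  have h3 : ∑ m ∈ U.powerset, (-1 : ℤ) ^ m.card =
      ((U.powerset.filter (fun S => Even S.card)).card : ℤ) -
      ((U.powerset.filter (fun S => ¬ Even S.card)).card : ℤ) := by
    rw [← Finset.sum_filter_add_sum_filter_not U.powerset (fun S => Even S.card)]
    have e1 : ∑ m ∈ U.powerset.filter (fun S => Even S.card), (-1 : ℤ) ^ m.card =
        ∑ m ∈ U.powerset.filter (fun S => Even S.card), 1 :=
      Finset.sum_congr rfl fun m hm => (Finset.mem_filter.mp hm).2.neg_one_pow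
    have e2 : ∑ m ∈ U.powerset.filter (fun S => ¬ Even S.card), (-1 : ℤ) ^ m.card =
        ∑ m ∈ U.powerset.filter (fun S => ¬ Even S.card), (-1) :=
      Finset.sum_congr rfl fun m hm => by
        have := (Finset.mem_filter.mp hm).2
        rw [Nat.not_even_iff_odd] at this
        exact this.neg_one_pow
    rw [e1, e2, Finset.sum_const, Finset.sum_const]
    simp
    ring
  rw [h1] at h3
  have h4 : U.card = (U.card - 1) + 1 := by
    have := Finset.card_pos.mpr hU
    omega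
  rw [h4, pow_succ] at h2
  omega

/-- Cardinality of a symmetric difference. -/
lemma card_symm {α : Type*} [DecidableEq α] (S T : Finset α) :
    (symmDiff S T).card + 2 * (S ∩ T).card = S.card + T.card := by
  have h1 : symmDiff S T = (S \ T) ∪ (T \ S) := rfl
  have h2 : Disjoint (S \ T) (T \ S) := by
    rw [Finset.disjoint_left]
    intro a h3 h4
    rw [Finset.mem_sdiff] at h3 h4
    exact h3.2 h4.1
  rw [h1, Finset.card_union_of_disjoint h2]
  have h3 := Finset.card_sdiff_add_card_inter S T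
  have h4 := Finset.card_sdiff_add_card_inter T S
  rw [Finset.inter_comm] at h4
  omega

lemma even_symm {α : Type*} [DecidableEq α] (S : Finset α) {p q : α} (hpq : p ≠ q) :
    Even (symmDiff S {p, q}).card ↔ Even S.card := by
  have h1 := card_symm S {p, q}
  rw [Finset.card_pair hpq] at h1
  have h2 : Even ((symmDiff S {p, q}).card + 2 * (S ∩ {p, q}).card) ↔ Even (S.card + 2) := by
    rw [h1]
  simpa [Nat.even_add] using h2

/-- A family of even subsets which is closed under toggling pairs. -/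
lemma family {α ι : Type*} [DecidableEq α] (U : Finset α) (Xs : Finset ι) (E : ι → Finset α)
    (hne : Xs.Nonempty) (hE : ∀ x ∈ Xs, E x ⊆ U) (hev : ∀ x ∈ Xs, Even (E x).card)
    (htog : ∀ x ∈ Xs, ∀ p ∈ U, ∀ q ∈ U, p ≠ q → ∃ z ∈ Xs, E z = symmDiff (E x) {p, q}) :
    Xs.image E = U.powerset.filter (fun S => Even S.card) := by
  ext S
  rw [Finset.mem_image, Finset.mem_filter, Finset.mem_powerset]
  constructor
  · rintro ⟨x, hx, rfl⟩
    exact ⟨hE x hx, hev x hx⟩
  · rintro ⟨hS, hSe⟩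
    obtain ⟨x, hx, hmin⟩ := Xs.exists_min_image (fun x => (symmDiff (E x) S).card) hne
    refine ⟨x, hx, ?_⟩
    by_contra hcon
    have h1 : (symmDiff (E x) S).Nonempty := by
      rw [Finset.nonempty_iff_ne_empty]
      intro h2
      exact hcon (symmDiff_eq_bot.mp h2)
    have h2 : Even (symmDiff (E x) S).card := by
      have := card_symm (E x) S
      have h3 : Even ((symmDiff (E x) S).card + 2 * (E x ∩ S).card) := by
        rw [this]; exact (hev x hx).add hSe
      rw [Nat.even_add] at h3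
      exact h3.mpr (even_two_mul _)
    have h3 : 1 < (symmDiff (E x) S).card := by
      have := Finset.card_pos.mpr h1
      obtain ⟨k, hk⟩ := h2
      omega
    obtain ⟨p, hp, q, hq, hpq⟩ := Finset.one_lt_card.mp h3
    have hsub : ∀ c ∈ symmDiff (E x) S, c ∈ U := by
      intro c hc
      rcases Finset.mem_symmDiff.mp hc with h4 | h4
      · exact hE x hx h4.1
      · exact hS h4.1
    obtain ⟨z, hz, hEz⟩ := htog x hx p (hsub p hp) q (hsub q hq) hpq
    have h5 := hmin z hz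
    have h6 : symmDiff (E z) S = symmDiff (symmDiff (E x) S) {p, q} := by
      rw [hEz, symmDiff_assoc, symmDiff_comm {p, q} S, ← symmDiff_assoc]
    have h7 : symmDiff (symmDiff (E x) S) {p, q} = symmDiff (E x) S \ {p, q} := by
      ext c
      rw [Finset.mem_symmDiff (t := {p, q}), Finset.mem_sdiff (t := {p, q}), Finset.mem_insert,
        Finset.mem_singleton]
      constructor
      · rintro (h8 | ⟨h8 | h8, h9⟩)
        · exact h8
        · exact absurd (by rw [h8]; exact hp) h9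
        · exact absurd (by rw [h8]; exact hq) h9
      · intro h8; exact Or.inl h8
    rw [h6, h7, Finset.card_sdiff_of_subset (by
      intro c hc
      rw [Finset.mem_insert, Finset.mem_singleton] at hc
      rcases hc with rfl | rfl
      · exact hp
      · exact hq), Finset.card_pair hpq] at h5
    omega

variable {K : Type*} [Field K] [CharZero K] {M : Type*} [AddCommGroup M] [Module K M]
  {B : LinearMap.BilinForm K M} {s : M →ₗ[K] K} {Φ X : Finset M}

/-- A root of value zero is a difference of adjacent roots of value two. -/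
lemma SL.zero_root (h : SL B s Φ X) {g : M} (hg : g ∈ Φ) (sg : s g = 0) :
    ∃ a ∈ h.P, ∃ b ∈ h.P, B a b = 1 ∧ g = a - b := by
  obtain ⟨k, hk, sk, hgk⟩ := h.hit g hg sg
  rcases h.pair_zero_two hg sg hk sk with h1 | h1 | h1
  · refine ⟨k + g, h.mem_P.mpr ⟨h.add_mem hk hg h1, by rw [map_add, sk, sg, add_zero]⟩, k,
      h.mem_P.mpr ⟨hk, sk⟩, ?_, by abel⟩
    rw [map_add, LinearMap.add_apply, h.two k hk, h.symm g k, h1]; norm_num
  · exact absurd (by rw [h.symm]; exact h1) hgk
  · refine ⟨k, h.mem_P.mpr ⟨hk, sk⟩, k - g,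
      h.mem_P.mpr ⟨h.sub k hk g hg h1, by rw [map_sub, sk, sg, sub_zero]⟩, ?_, by abel⟩
    rw [map_sub, h.two k hk, h1]; norm_num

/-- The data of case B: every root of value two has exactly one orthogonal partner. -/
structure SLB (B : LinearMap.BilinForm K M) (s : M →ₗ[K] K) (Φ X : Finset M) : Prop
    extends SL B s Φ X where
  ex : ∀ a ∈ Φ, s a = 2 → ∃ b ∈ Φ, s b = 2 ∧ b ≠ a ∧ B a b = 0
  un : ∀ a ∈ Φ, s a = 2 → ∀ b ∈ Φ, ∀ c ∈ Φ, s b = 2 → s c = 2 → b ≠ a → c ≠ a →
    B a b = 0 → B a c = 0 → b = c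
  ca : ∀ x ∈ X, s x = 1 → toSL.P.card = 2 * (toSL.R x).card

namespace SLB

variable (h : SLB B s Φ X)
include h

/-- the partner -/
noncomputable def pa (h : SLB B s Φ X) (a : M) : M := by
  classical
  exact if ha : a ∈ h.toSL.P then (h.ex a (h.toSL.mem_P.mp ha).1 (h.toSL.mem_P.mp ha).2).choose
    else a

lemma pa_spec {a : M} (ha : a ∈ h.P) : h.pa a ∈ h.P ∧ h.pa a ≠ a ∧ B a (h.pa a) = 0 := by
  have h1 := (h.ex a (h.mem_P.mp ha).1 (h.mem_P.mp ha).2).choose_spec
  have e : h.pa a = (h.ex a (h.mem_P.mp ha).1 (h.mem_P.mp ha).2).choose := by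
    rw [pa, dif_pos ha]
  rw [e]
  exact ⟨h.mem_P.mpr ⟨h1.1, h1.2.1⟩, h1.2.2.1, h1.2.2.2⟩

lemma pa_unique {a b : M} (ha : a ∈ h.P) (hb : b ∈ h.P) (hba : b ≠ a) (h0 : B a b = 0) :
    b = h.pa a := by
  obtain ⟨h1, h2, h3⟩ := h.pa_spec ha
  exact h.un a (h.mem_P.mp ha).1 (h.mem_P.mp ha).2 b (h.mem_P.mp hb).1 _ (h.mem_P.mp h1).1
    (h.mem_P.mp hb).2 (h.mem_P.mp h1).2 hba h2 h0 h3

lemma pa_pa {a : M} (ha : a ∈ h.P) : h.pa (h.pa a) = a := by
  obtain ⟨h1, h2, h3⟩ := h.pa_spec ha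
  exact (h.pa_unique h1 ha (Ne.symm h2) (by rw [h.symm]; exact h3)).symm

lemma adj {a b : M} (ha : a ∈ h.P) (hb : b ∈ h.P) (hab : a ≠ b) (hp : b ≠ h.pa a) :
    B a b = 1 := by
  rcases h.pp (h.mem_P.mp ha).1 (h.mem_P.mp hb).1 (h.mem_P.mp ha).2 (h.mem_P.mp hb).2 hab
    with h1 | h1
  · exact absurd (h.pa_unique ha hb (Ne.symm hab) h1) hp
  · exact h1

/-- A weight contains exactly one element of every pair. -/
lemma one_of {x a : M} (hx : x ∈ h.Xp) (ha : a ∈ h.P) : h.pa a ∈ h.R x ↔ a ∉ h.R x := by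
  classical
  have hx' := h.mem_Xp.mp hx
  have key : ∀ b ∈ h.R x, h.pa b ∉ h.R x := by
    intro b hb hpb
    have hbP := h.R_sub x hb
    obtain ⟨h1, h2, h3⟩ := h.pa_spec hbP
    have h4 := h.clique hx'.1 (h.mem_P.mp hbP).1 (h.mem_P.mp h1).1 (h.mem_P.mp hbP).2
      (h.mem_P.mp h1).2 ((h.mem_R' hbP).mp hb) ((h.mem_R' h1).mp hpb) (Ne.symm h2)
    rw [h3] at h4
    exact zero_ne_one h4
  have himg : (h.R x).image h.pa = h.P \ h.R x := by
    apply Finset.eq_of_subset_of_card_le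
    · intro c hc
      obtain ⟨b, hb, rfl⟩ := Finset.mem_image.mp hc
      exact Finset.mem_sdiff.mpr ⟨(h.pa_spec (h.R_sub x hb)).1, key b hb⟩
    · rw [Finset.card_sdiff_of_subset (h.R_sub x), h.ca x hx'.1 hx'.2,
        Finset.card_image_of_injOn]
      · omega
      · intro b hb c hc hbc
        have h1 := congrArg h.pa hbc
        rwa [h.pa_pa (h.R_sub x hb), h.pa_pa (h.R_sub x hc)] at h1
  constructor
  · intro h1 h2
    exact key a h2 h1
  · intro h1
    have h2 : a ∈ (h.R x).image h.pa := by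
      rw [himg]; exact Finset.mem_sdiff.mpr ⟨ha, h1⟩
    obtain ⟨b, hb, rfl⟩ := Finset.mem_image.mp h2
    rw [h.pa_pa (h.R_sub x hb)]
    exact hb

/-- The exchange in case B: membership is changed exactly on two pairs. -/
lemma flipB {x a b : M} (hx : x ∈ h.Xp) (ha : a ∈ h.P) (hb : b ∈ h.P) (hab : B a b = 1)
    (xa : a ∈ h.R x) (xb : b ∉ h.R x) :
    x - (a - b) ∈ h.Xp ∧ ∀ k ∈ h.P, (k ∈ h.R (x - (a - b)) ↔
      ¬ (k ∈ h.R x ↔ (k = a ∨ k = h.pa a ∨ k = b ∨ k = h.pa b))) := by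
  classical
  obtain ⟨q1, q2⟩ := h.flip hx ha hb hab xa xb
  refine ⟨q1, ?_⟩
  have hab' : a ≠ b := by
    rintro rfl
    exact xb xa
  have hbpa : b ≠ h.pa a := by
    intro e
    rw [e, (h.pa_spec ha).2.2] at hab
    exact zero_ne_one hab
  have hapb : a ≠ h.pa b := by
    intro e
    apply hbpa
    rw [e, h.pa_pa hb]
  have hpp : h.pa a ≠ h.pa b := by
    intro e
    apply hab'
    rw [← h.pa_pa ha, e, h.pa_pa hb]
  have hx' := h.mem_Xp.mp hx
  have val : ∀ k ∈ h.P, B x k = if k ∈ h.R x then 1 else 0 := by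
    intro k hk
    split_ifs with h1
    · exact (h.mem_R' hk).mp h1
    · exact (h.xp hx'.1 hx'.2 (h.mem_P.mp hk).1 (h.mem_P.mp hk).2).resolve_right
        (fun h2 => h1 ((h.mem_R' hk).mpr h2))
  intro k hk
  rw [h.mem_R' hk, q2 k]
  have hpaa := (h.pa_spec ha)
  have hpbb := (h.pa_spec hb)
  by_cases k1 : k = a
  · subst k1
    rw [val k hk, if_pos xa, h.two k (h.mem_P.mp hk).1, h.symm b k, hab]
    have e : (1 : K) - 2 + 1 ≠ 1 := by norm_num
    simp [xa, e]
  by_cases k2 : k = h.pa a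
  · have e1 : B b k = 1 := by
      rw [k2, h.symm]
      exact h.adj hpaa.1 hb (Ne.symm hbpa) (by rw [h.pa_pa ha]; exact Ne.symm hab')
    have e2 : k ∉ h.R x := by
      rw [k2, h.one_of hx ha]; exact fun h => h xa
    rw [val k hk, if_neg e2, e1]
    rw [k2, hpaa.2.2]
    simp only [sub_zero, zero_add, true_iff]
    rw [← k2]
    tauto
  by_cases k3 : k = b
  · have e1 : B b k = 2 := by rw [k3, h.two b (h.mem_P.mp hb).1]
    have e2 : k ∉ h.R x := by rw [k3]; exact xb
    have e3 : B a k = 1 := by rw [k3]; exact hab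
    rw [val k hk, if_neg e2, e1, e3]
    constructor
    · intro _; tauto
    · intro _; norm_num
  by_cases k4 : k = h.pa b
  · have e1 : B a k = 1 := by
      rw [k4]
      exact h.adj ha hpbb.1 hapb (fun e => hpp e.symm)
    have e2 : k ∈ h.R x := by
      rw [k4, h.one_of hx hb]; exact xb
    have e3 : B b k = 0 := by rw [k4]; exact hpbb.2.2
    rw [val k hk, if_pos e2, e1, e3]
    constructor
    · intro h1; norm_num at h1
    · intro h1; tauto
  · have e1 : B a k = 1 := h.adj ha hk (Ne.symm k1) k2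
    have e2 : B b k = 1 := h.adj hb hk (Ne.symm k3) k4
    rw [e1, e2, val k hk]
    split_ifs with h1
    · simp [h1, k1, k2, k3, k4]
    · simp [h1, k1, k2, k3, k4]

/-- The representative of the pair of `a` in the set of the weight `x`. -/
lemma exists_rep {x a : M} (hx : x ∈ h.Xp) (ha : a ∈ h.P) :
    ∃ p ∈ h.R x, (p = a ∨ p = h.pa a) ∧ ∀ c ∈ h.R x, (c = a ∨ c = h.pa a) ↔ c = p := by
  by_cases h1 : a ∈ h.R x
  · refine ⟨a, h1, Or.inl rfl, ?_⟩
    intro c hc
    constructor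
    · rintro (e | e)
      · exact e
      · exfalso
        rw [e, h.one_of hx ha] at hc
        exact hc h1
    · intro e; exact Or.inl e
  · have h2 := (h.one_of hx ha).mpr h1
    refine ⟨h.pa a, h2, Or.inr rfl, ?_⟩
    intro c hc
    constructor
    · rintro (e | e)
      · exfalso
        rw [e] at hc
        exact h1 hc
      · exact e
    · intro e; exact Or.inr e

/-- Two elements of the reference set lie in different pairs. -/
lemma ref_ne {x p q : M} (hx : x ∈ h.Xp) (hp : p ∈ h.R x) (hq : q ∈ h.R x) : q ≠ h.pa p := by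
  intro e
  rw [e, h.one_of hx (h.R_sub x hp)] at hq
  exact hq hp

/-- A flip changes two elements of the reference set. -/
lemma flip_ref [DecidableEq M] {x0 x a b p q : M} (hx : x ∈ h.Xp) (ha : a ∈ h.P) (hb : b ∈ h.P)
    (hab : B a b = 1) (xa : a ∈ h.R x) (xb : b ∉ h.R x) (hp : p ∈ h.R x0) (hq : q ∈ h.R x0)
    (hp1 : ∀ c ∈ h.R x0, (c = a ∨ c = h.pa a) ↔ c = p)
    (hq1 : ∀ c ∈ h.R x0, (c = b ∨ c = h.pa b) ↔ c = q) :
    h.R x0 \ h.R (x - (a - b)) = symmDiff (h.R x0 \ h.R x) {p, q} := by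
  ext c
  rw [Finset.mem_symmDiff, Finset.mem_sdiff, Finset.mem_sdiff, Finset.mem_insert,
    Finset.mem_singleton]
  by_cases hc : c ∈ h.R x0
  · rw [(h.flipB hx ha hb hab xa xb).2 c (h.R_sub x0 hc), ← or_assoc, hp1 c hc, hq1 c hc]
    by_cases h1 : c ∈ h.R x <;> by_cases h2 : (c = p ∨ c = q) <;> simp [hc, h1, h2]
  · have h2 : ¬ (c = p ∨ c = q) := by
      rintro (e | e)
      · exact hc (by rw [e]; exact hp)
      · exact hc (by rw [e]; exact hq)
    simp [hc, h2]

lemma pa_iff {a : M} (ha : a ∈ h.P) {p c : M} (hc : c ∈ h.P) (hp : p = a ∨ p = h.pa a)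
    (hcp : c ≠ h.pa p) : (c = a ∨ c = h.pa a) ↔ c = p := by
  constructor
  · rintro (e | e)
    · rcases hp with e' | e'
      · rw [e, e']
      · exfalso
        apply hcp
        rw [e', h.pa_pa ha, e]
    · rcases hp with e' | e'
      · exfalso
        apply hcp
        rw [e', e]
      · rw [e, e']
  · intro e
    rw [e]; exact hp

lemma toggle [DecidableEq M] {x0 x p q : M} (hx0 : x0 ∈ h.Xp) (hx : x ∈ h.Xp)
    (hp : p ∈ h.R x0) (hq : q ∈ h.R x0) (hpq : p ≠ q) :
    ∃ z ∈ h.Xp, h.R x0 \ h.R z = symmDiff (h.R x0 \ h.R x) {p, q} := by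
  have hpP := h.R_sub x0 hp
  have hqP := h.R_sub x0 hq
  obtain ⟨a, haP, hpa, xa⟩ : ∃ a ∈ h.P, (p = a ∨ p = h.pa a) ∧ a ∈ h.R x := by
    by_cases h1 : p ∈ h.R x
    · exact ⟨p, hpP, Or.inl rfl, h1⟩
    · exact ⟨h.pa p, (h.pa_spec hpP).1, Or.inr (h.pa_pa hpP).symm, (h.one_of hx hpP).mpr h1⟩
  obtain ⟨b, hbP, hqb, xb⟩ : ∃ b ∈ h.P, (q = b ∨ q = h.pa b) ∧ b ∉ h.R x := by
    by_cases h1 : q ∈ h.R x
    · refine ⟨h.pa q, (h.pa_spec hqP).1, Or.inr (h.pa_pa hqP).symm, ?_⟩
      rw [h.one_of hx hqP]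
      exact fun h2 => h2 h1
    · exact ⟨q, hqP, Or.inl rfl, h1⟩
  have hne : a ≠ b := by
    rintro rfl
    exact xb xa
  have hpa' : b ≠ h.pa a := by
    intro e
    -- the pairs of `p` and `q` would coincide
    rcases hpa with e1 | e1 <;> rcases hqb with e2 | e2
    · exact h.ref_ne hx0 hp hq (by rw [e2, e1, e])
    · apply hpq
      rw [e1, e2, e, h.pa_pa haP]
    · apply hpq
      rw [e1, e2, e]
    · apply h.ref_ne hx0 hp hq
      rw [e1, e2, h.pa_pa haP, e, h.pa_pa haP]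
  have hab := h.adj haP hbP hne hpa'
  refine ⟨x - (a - b), (h.flip hx haP hbP hab xa xb).1, ?_⟩
  refine h.flip_ref hx haP hbP hab xa xb hp hq ?_ ?_
  · intro c hc
    exact h.pa_iff haP (h.R_sub x0 hc) hpa (h.ref_ne hx0 hp hc)
  · intro c hc
    exact h.pa_iff hbP (h.R_sub x0 hc) hqb (h.ref_ne hx0 hq hc)

lemma even_E [DecidableEq M] {x0 y : M} (hx0 : x0 ∈ h.Xp) (hy : y ∈ h.Xp) :
    Even (h.R x0 \ h.R y).card := by
  have hx0' := h.mem_Xp.mp hx0
  have hy' := h.mem_Xp.mp hy
  refine h.chain_ind hx0'.1 hx0'.2 (fun y => Even (h.R x0 \ h.R y).card) ?_ ?_ hy'.1 hy'.2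
  · rw [Finset.sdiff_self]; simp
  · rintro y z hy sy hz sz ⟨g, hg, sg, yg, rfl⟩ ih
    have yg' : B y g = 1 := yg
    obtain ⟨a, ha, b, hb, hab, rfl⟩ := h.toSL.zero_root hg sg
    have hyX := h.mem_Xp.mpr ⟨hy, sy⟩
    have hv : a ∈ h.R y ∧ b ∉ h.R y := by
      rw [map_sub] at yg'
      rw [h.mem_R' ha, h.mem_R' hb]
      rcases h.xp hy sy (h.mem_P.mp ha).1 (h.mem_P.mp ha).2 with h1 | h1 <;>
        rcases h.xp hy sy (h.mem_P.mp hb).1 (h.mem_P.mp hb).2 with h2 | h2 <;>
        rw [h1, h2] at yg' ⊢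
      · norm_num at yg'
      · norm_num at yg'
      · exact ⟨rfl, zero_ne_one⟩
      · norm_num at yg'
    obtain ⟨p, hp, hpa, hp1⟩ := h.exists_rep hx0 ha
    obtain ⟨q, hq, hqb, hq1⟩ := h.exists_rep hx0 hb
    have hpq : p ≠ q := by
      intro e
      have hab' : a ≠ b := by
        rintro rfl
        exact hv.2 hv.1
      have hbpa : b ≠ h.pa a := by
        intro e
        rw [e, (h.pa_spec ha).2.2] at hab
        exact zero_ne_one hab
      rcases hpa with e1 | e1 <;> rcases hqb with e2 | e2 <;> rw [e1, e2] at e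
      · exact hab' e
      · apply hbpa
        rw [e, h.pa_pa hb]
      · exact hbpa e.symm
      · apply hab'
        rw [← h.pa_pa ha, e, h.pa_pa hb]
    rw [h.flip_ref hyX ha hb hab hv.1 hv.2 hp hq hp1 hq1, even_symm _ hpq]
    exact ih

/-- The image of the weights: all even subsets of the reference set. -/
lemma imageB [DecidableEq M] {x0 : M} (hx0 : x0 ∈ h.Xp) :
    h.Xp.image (fun x => h.R x0 \ h.R x) =
      (h.R x0).powerset.filter (fun S => Even S.card) :=
  family (h.R x0) h.Xp (fun x => h.R x0 \ h.R x) ⟨x0, hx0⟩ (fun _ _ => Finset.sdiff_subset)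
    (fun _ hx => h.even_E hx0 hx) (fun _ hx _ hp _ hq hpq => h.toggle hx0 hx hp hq hpq)

lemma E_injOn [DecidableEq M] {x0 : M} (hx0 : x0 ∈ h.Xp) :
    Set.InjOn (fun x => h.R x0 \ h.R x) (h.Xp : Set M) := by
  intro x hx y hy hxy
  have hxy' : h.R x0 \ h.R x = h.R x0 \ h.R y := hxy
  apply h.R_injOn hx hy
  have hx' : x ∈ h.Xp := hx
  have hy' : y ∈ h.Xp := hy
  have key : ∀ c ∈ h.R x0, (c ∈ h.R x ↔ c ∈ h.R y) := by
    intro c hc
    have h1 : c ∈ h.R x0 \ h.R x ↔ c ∈ h.R x0 \ h.R y := by rw [hxy']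
    rw [Finset.mem_sdiff, Finset.mem_sdiff] at h1
    tauto
  ext c
  by_cases hcP : c ∈ h.P
  · by_cases hc : c ∈ h.R x0
    · exact key c hc
    · have h1 := (h.one_of hx0 hcP).mpr hc
      have h2 := key _ h1
      rw [h.one_of hx' hcP, h.one_of hy' hcP] at h2
      tauto
  · constructor
    · intro h1; exact absurd (h.R_sub x h1) hcP
    · intro h1; exact absurd (h.R_sub y h1) hcP

lemma cardB {x0 : M} (hx0 : x0 ∈ h.Xp) (hne : (h.R x0).Nonempty) :
    h.Xp.card = 2 ^ ((h.R x0).card - 1) := by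
  classical
  rw [← card_even _ hne, ← h.imageB hx0, Finset.card_image_of_injOn (h.E_injOn hx0)]

open Classical in
lemma cardB' {x0 i : M} (hx0 : x0 ∈ h.Xp) (hi : i ∈ h.R x0) (hc : 2 ≤ (h.R x0).card) :
    (h.Xp.filter (fun x => i ∈ h.R x)).card = 2 ^ ((h.R x0).card - 2) := by
  have e : (h.Xp.filter (fun x => i ∈ h.R x)).image (fun x => h.R x0 \ h.R x) =
      ((h.R x0).erase i).powerset.filter (fun S => Even S.card) := by
    ext S
    rw [Finset.mem_image, Finset.mem_filter, Finset.mem_powerset]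
    constructor
    · rintro ⟨x, hx, rfl⟩
      rw [Finset.mem_filter] at hx
      refine ⟨?_, h.even_E hx0 hx.1⟩
      intro c hc
      rw [Finset.mem_sdiff] at hc
      refine Finset.mem_erase.mpr ⟨?_, hc.1⟩
      rintro rfl
      exact hc.2 hx.2
    · rintro ⟨h1, h2⟩
      have h3 : S ∈ h.Xp.image (fun x => h.R x0 \ h.R x) := by
        rw [h.imageB hx0, Finset.mem_filter, Finset.mem_powerset]
        exact ⟨h1.trans (Finset.erase_subset _ _), h2⟩
      obtain ⟨x, hx, rfl⟩ := Finset.mem_image.mp h3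
      refine ⟨x, Finset.mem_filter.mpr ⟨hx, ?_⟩, rfl⟩
      by_contra h4
      exact Finset.ne_of_mem_erase (h1 (Finset.mem_sdiff.mpr ⟨hi, h4⟩)) rfl
  have hne : ((h.R x0).erase i).Nonempty := by
    rw [← Finset.card_pos, Finset.card_erase_of_mem hi]
    omega
  rw [← Finset.card_image_of_injOn (f := fun x => h.R x0 \ h.R x)
    ((h.E_injOn hx0).mono (by
      intro x hx
      rw [Finset.mem_coe, Finset.mem_filter] at hx
      exact hx.1)), e, card_even _ hne, Finset.card_erase_of_mem hi]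
  congr 1

end SLB

end TR
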